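import Mathlib

set_option autoImplicit false

open Filter Topology Set

namespace Pool.Agent.H44G

/-- **Chunk CCOMP** (size M). A sublevel set is connected if it contains a connected set `A` and no open subset outside `A` can be
bounded by the level set.

Proof. Put `S = {x | u x < t}`, open. Let `x ∈ S` and `W = connectedComponentIn S x`, open (`IsOpen.connectedComponentIn`,
locally connected space). Claim: `W` meets `A`. Otherwise `hmp W` applies: `W` is open, nonempty, disjoint from `A`, `u < t` on
`W ⊆ S`, and `t ≤ u` on `frontier W`: if `p ∈ frontier W` had `u p < t`, then `p ∈ S`, the open set `connectedComponentIn S p` contains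
`p ∈ closure W`, so meets `W`, so the components are equal (`connectedComponentIn_eq`,
`connectedComponentIn_disjoint_iff`-type lemma), `p ∈ W`; but `p ∉ interior W = W`. So every point of `S` is joined inside `S` with a
point of `A`; fix `a ∈ A`: `A ⊆ connectedComponentIn S a` (`IsPreconnected.subset_connectedComponentIn`), hence
`S = connectedComponentIn S a`, which is preconnected (`isPreconnected_connectedComponentIn`). -/
theorem preconn_sublevel {n : ℕ} {u : EuclideanSpace ℝ (Fin n) → ℝ} (hu : Continuous u) {t : ℝ}
    {A : Set (EuclideanSpace ℝ (Fin n))} (hA : IsPreconnected A) (hne : A.Nonempty) (hAt : ∀ x ∈ A, u x < t)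
    (hmp : ∀ W : Set (EuclideanSpace ℝ (Fin n)), IsOpen W → W.Nonempty → (∀ x ∈ W, x ∉ A) → (∀ x ∈ W, u x < t) →
      (∀ x ∈ frontier W, t ≤ u x) → False) :
    IsPreconnected {x | u x < t} := by
  set S : Set (EuclideanSpace ℝ (Fin n)) := {x | u x < t} with hS
  have hSo : IsOpen S := isOpen_lt hu continuous_const
  have hAS : A ⊆ S := hAt
  obtain ⟨a, ha⟩ := hne
  have hAC : A ⊆ connectedComponentIn S a := hA.subset_connectedComponentIn ha hAS
  have hmeet : ∀ x ∈ S, ∃ b ∈ connectedComponentIn S x, b ∈ A := by
    intro x hx
    by_contra hcon
    push Not at hcon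
    have hWo : IsOpen (connectedComponentIn S x) := hSo.connectedComponentIn
    refine hmp _ hWo ⟨x, mem_connectedComponentIn hx⟩ hcon
      (fun y hy => connectedComponentIn_subset S x hy) ?_
    intro p hp
    by_contra hlt
    push Not at hlt
    have hpS : p ∈ S := hlt
    have hCo : IsOpen (connectedComponentIn S p) := hSo.connectedComponentIn
    have hpcl : p ∈ closure (connectedComponentIn S x) := frontier_subset_closure hp
    obtain ⟨q, hq1, hq2⟩ := mem_closure_iff_nhds.mp hpcl _ (hCo.mem_nhds (mem_connectedComponentIn hpS))
    have h1 := connectedComponentIn_eq hq1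
    have h2 := connectedComponentIn_eq hq2
    have h3 : p ∈ connectedComponentIn S x := by
      rw [h2, ← h1]
      exact mem_connectedComponentIn hpS
    rw [hWo.frontier_eq] at hp
    exact hp.2 h3
  have hSC : S = connectedComponentIn S a := by
    apply Subset.antisymm _ (connectedComponentIn_subset S a)
    intro x hx
    obtain ⟨b, hb, hbA⟩ := hmeet x hx
    have h1 := connectedComponentIn_eq hb
    have h2 := connectedComponentIn_eq (hAC hbA)
    rw [h2, ← h1]
    exact mem_connectedComponentIn hx
  rw [hSC]
  exact isPreconnected_connectedComponentIn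

end Pool.Agent.H44G
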