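import Mathlib

set_option autoImplicit false

open Filter Topology Set

namespace Pool.Agent.H44G

/-- **Chunk CEXT** (size S). The exterior of a ball in `ℝ³` is connected.

Proof. `0 < ρ`: it is the image of `Ici ρ ×ˢ sphere 0 1` under `(s, n) ↦ s • n`, continuous; `Ici ρ` is connected and the
unit sphere is connected (`isPreconnected_sphere` for `1 < Module.rank ℝ E`, rank of `EuclideanSpace ℝ (Fin 3)` is `3`). -/
theorem preconn_exterior (ρ : ℝ) (hρ : 0 < ρ) : IsPreconnected {x : EuclideanSpace ℝ (Fin 3) | ρ ≤ ‖x‖} := by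
  have hrank : 1 < Module.rank ℝ (EuclideanSpace ℝ (Fin 3)) := by
    rw [← Module.finrank_eq_rank]
    simp
  have h1 : IsPreconnected (Set.Ici ρ ×ˢ Metric.sphere (0 : EuclideanSpace ℝ (Fin 3)) 1) :=
    isPreconnected_Ici.prod (isPreconnected_sphere hrank 0 1)
  have h2 : {x : EuclideanSpace ℝ (Fin 3) | ρ ≤ ‖x‖} =
      (fun p : ℝ × EuclideanSpace ℝ (Fin 3) => p.1 • p.2) ''
        (Set.Ici ρ ×ˢ Metric.sphere (0 : EuclideanSpace ℝ (Fin 3)) 1) := by
    ext x
    constructor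
    · intro hx
      have hx' : ρ ≤ ‖x‖ := hx
      have hn : ‖x‖ ≠ 0 := by linarith
      refine ⟨(‖x‖, ‖x‖⁻¹ • x), ⟨hx', ?_⟩, ?_⟩
      · rw [mem_sphere_zero_iff_norm, norm_smul, norm_inv, norm_norm, inv_mul_cancel₀ hn]
      · simp [smul_smul, hn]
    · rintro ⟨⟨s, y⟩, ⟨hs, hy⟩, rfl⟩
      have hs' : ρ ≤ s := hs
      have hy' : ‖y‖ = 1 := mem_sphere_zero_iff_norm.1 hy
      show ρ ≤ ‖s • y‖
      rw [norm_smul, hy', mul_one, Real.norm_eq_abs]
      exact hs'.trans (le_abs_self _)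
  rw [h2]
  exact h1.image _ (continuous_fst.smul continuous_snd).continuousOn

end Pool.Agent.H44G
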