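import Pool.Agent.Lib.H44G.Hull

set_option autoImplicit false

open Filter Topology Set

namespace Pool.Agent.H44G

open Pool.Agent.Lib.PenroseSph (E3)

/-- **Chunk CHULL** (size S/M). The extended function is continuous.

Proof. For instance with `ContinuousOn.piecewise`-type lemmas or `Continuous.if_le` twice: on `{‖x‖ ≤ 1}` it is the constant
`c`; on `{1 ≤ ‖x‖}` it is `if R ≤ ‖x‖ then d else θ x` (at `‖x‖ = 1` this is `θ x = c` by `h.inner`, as `1 < R`), and so on. Or: the
three closed sets `{‖x‖ ≤ 1}`, `{1 ≤ ‖x‖ ≤ R}`, `{R ≤ ‖x‖}` cover, `hull` is continuous on each (on the second it is equal to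
`θ`, also on the two spheres by `h.inner`, `h.outer`), use `ContinuousOn.union_of_isClosed` or `LocallyFinite.continuous`. -/
theorem hull_continuous {θ : E3 → ℝ} {c d R : ℝ} (h : IsLevel θ c d R) : Continuous (hull θ c d R) := by
  have hA : IsClosed {x : E3 | ‖x‖ ≤ 1} := isClosed_le continuous_norm continuous_const
  have hB : IsClosed {x : E3 | 1 ≤ ‖x‖ ∧ ‖x‖ ≤ R} :=
    (isClosed_le continuous_const continuous_norm).inter (isClosed_le continuous_norm continuous_const)
  have hC : IsClosed {x : E3 | R ≤ ‖x‖} := isClosed_le continuous_const continuous_norm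
  have h1 : ContinuousOn (hull θ c d R) {x : E3 | ‖x‖ ≤ 1} := by
    refine (continuousOn_const (c := c)).congr ?_
    intro x hx
    simp only [mem_setOf_eq] at hx
    simp [hull, hx]
  have h2 : ContinuousOn (hull θ c d R) {x : E3 | 1 ≤ ‖x‖ ∧ ‖x‖ ≤ R} := by
    refine h.cont.congr ?_
    intro x hx
    simp only [mem_setOf_eq] at hx
    by_cases ha : ‖x‖ ≤ 1
    · have hx1 : ‖x‖ = 1 := le_antisymm ha hx.1
      simp [hull, ha, h.inner x hx1]
    · by_cases hb : R ≤ ‖x‖
      · have hx1 : ‖x‖ = R := le_antisymm hx.2 hb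
        simp [hull, ha, hb, h.outer x hx1]
      · simp [hull, ha, hb]
  have h3 : ContinuousOn (hull θ c d R) {x : E3 | R ≤ ‖x‖} := by
    refine (continuousOn_const (c := d)).congr ?_
    intro x hx
    simp only [mem_setOf_eq] at hx
    have h4 : ¬ ‖x‖ ≤ 1 := not_le.2 (lt_of_lt_of_le h.one_lt hx)
    simp [hull, h4, hx]
  rw [← continuousOn_univ]
  have hU : (univ : Set E3) = ({x : E3 | ‖x‖ ≤ 1} ∪ {x : E3 | 1 ≤ ‖x‖ ∧ ‖x‖ ≤ R}) ∪ {x : E3 | R ≤ ‖x‖} := by
    ext x
    simp only [mem_univ, mem_union, mem_setOf_eq, true_iff]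
    rcases le_total ‖x‖ 1 with ha | ha
    · exact Or.inl (Or.inl ha)
    · rcases le_total ‖x‖ R with hb | hb
      · exact Or.inl (Or.inr ⟨ha, hb⟩)
      · exact Or.inr hb
  rw [hU]
  exact (h1.union_of_isClosed h2 hA hB).union_of_isClosed h3 (hA.union hB) hC

/-- The extended function is `θ` near every point of the shell. (The shell is open: `isOpen_lt` etc.) -/
theorem hull_eventuallyEq {θ : E3 → ℝ} {c d R : ℝ} {x : E3} (hx : x ∈ shell R) : hull θ c d R =ᶠ[𝓝 x] θ := by
  have ho : IsOpen (shell R) :=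
    (isOpen_lt continuous_const continuous_norm).inter (isOpen_lt continuous_norm continuous_const)
  filter_upwards [ho.mem_nhds hx] with y hy
  simp [hull, not_le.2 hy.1, not_le.2 hy.2]

/-- The shell is the set where the extended function is strictly between the two boundary values. -/
theorem hull_mem_iff {θ : E3 → ℝ} {c d R : ℝ} (h : IsLevel θ c d R) {x : E3} :
    (c < hull θ c d R x ∧ hull θ c d R x < d) ↔ x ∈ shell R := by
  constructor
  · rintro ⟨h1, h2⟩
    by_cases ha : ‖x‖ ≤ 1
    · simp [hull, ha] at h1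
    · by_cases hb : R ≤ ‖x‖
      · simp [hull, ha, hb] at h2
      · exact ⟨not_le.1 ha, not_le.1 hb⟩
  · intro hx
    have h1 := h.mem x hx
    simpa [hull, not_le.2 hx.1, not_le.2 hx.2] using h1

end Pool.Agent.H44G
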