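import Pool.Agent.Lib.H44G.CComp
import Pool.Agent.Lib.H44G.CExt
import Pool.Agent.Lib.H44G.CHull

set_option autoImplicit false

open Filter Topology Set

namespace Pool.Agent.H44G

open Pool.Agent.Lib.PenroseSph (E3)

/-- **Chunk CCONN** (size M). Sublevel and superlevel sets of the extended function are connected.

Proof. (i) `preconn_sublevel` with `u = hull θ c d R`, `A = closedBall 0 1` (convex, so preconnected); on `A` the value is
`c < t`. `hmp`: let `W` be open, disjoint from `A`, `u < t` on `W`, `t ≤ u` on `frontier W`. For `x ∈ W`: `1 < ‖x‖` and `‖x‖ < R` (otherwise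
`u x = d > t`), so `W ⊆ shell R`, and `u = θ` on `W`. For `x ∈ frontier W ⊆ closure (shell R) ⊆ {1 ≤ ‖x‖ ≤ R}`: `u x = θ x` (on the two
spheres by `h.inner`, `h.outer`), so `t ≤ θ x`. `h.wmin W … t` gives `t ≤ θ x` for `x ∈ W`: contradiction for one point of `W`.
(ii) `preconn_sublevel` with `u = fun x => - hull θ c d R x`, `A = {x | R ≤ ‖x‖}` (`preconn_exterior`, nonempty), level `-t`; same
argument with `h.wmax` (if `x ∈ W`, `x ∉ A`, then `‖x‖ < R`, and `‖x‖ ≤ 1` would give `u x = -c > -t`). Then rewrite
`{x | - hull x < - t} = {x | t < hull x}`. -/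
theorem hull_preconn {θ : E3 → ℝ} {c d R : ℝ} (h : IsLevel θ c d R) {t : ℝ} (ht : t ∈ Ioo c d) :
    IsPreconnected {x : E3 | hull θ c d R x < t} ∧ IsPreconnected {x : E3 | t < hull θ c d R x} := by
  have hR := h.one_lt
  have hc := hull_continuous h
  have hle : ∀ x : E3, ‖x‖ ≤ 1 → hull θ c d R x = c := by
    intro x hx
    simp [hull, hx]
  have hge : ∀ x : E3, R ≤ ‖x‖ → hull θ c d R x = d := by
    intro x hx
    have h1 : ¬ ‖x‖ ≤ 1 := by linarith
    simp [hull, h1, hx]
  have hmid : ∀ x : E3, 1 ≤ ‖x‖ → ‖x‖ ≤ R → hull θ c d R x = θ x := by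
    intro x h1 h2
    rcases eq_or_lt_of_le h1 with h3 | h3
    · rw [hle x h3.symm.le, h.inner x h3.symm]
    rcases eq_or_lt_of_le h2 with h4 | h4
    · rw [hge x h4.symm.le, h.outer x h4]
    simp [hull, not_le.mpr h3, not_le.mpr h4]
  have hcl : ∀ W : Set E3, W ⊆ shell R → ∀ x ∈ frontier W, 1 ≤ ‖x‖ ∧ ‖x‖ ≤ R := by
    intro W hW x hx
    have h1 : IsClosed {x : E3 | 1 ≤ ‖x‖ ∧ ‖x‖ ≤ R} :=
      (isClosed_le continuous_const continuous_norm).inter (isClosed_le continuous_norm continuous_const)
    have h2 : W ⊆ {x : E3 | 1 ≤ ‖x‖ ∧ ‖x‖ ≤ R} := fun y hy => ⟨(hW hy).1.le, (hW hy).2.le⟩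
    exact closure_minimal h2 h1 (frontier_subset_closure hx)
  constructor
  · refine preconn_sublevel hc (A := Metric.closedBall (0 : E3) 1)
      (convex_closedBall (0 : E3) 1).isPreconnected ⟨0, by simp⟩ ?_ ?_
    · intro x hx
      rw [hle x (by simpa using hx)]
      exact ht.1
    · intro W hWo hWne hWA hWt hWf
      have hWs : W ⊆ shell R := by
        intro x hx
        refine ⟨?_, ?_⟩
        · have h1 := hWA x hx
          by_contra hcon
          push Not at hcon
          exact h1 (by simpa using hcon)
        · by_contra hcon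
          push Not at hcon
          have h1 := hWt x hx
          rw [hge x hcon] at h1
          linarith [ht.2]
      obtain ⟨x, hx⟩ := hWne
      have h1 := h.wmin W hWo hWs t (fun y hy => by
        have h2 := hcl W hWs y hy
        rw [← hmid y h2.1 h2.2]
        exact hWf y hy) x hx
      have h3 := hWt x hx
      rw [hmid x (hWs hx).1.le (hWs hx).2.le] at h3
      linarith
  · have h0 : {x : E3 | t < hull θ c d R x} = {x : E3 | -hull θ c d R x < -t} := by
      ext x
      simp
    rw [h0]
    have hcn : Continuous (fun x : E3 => -hull θ c d R x) := hc.neg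
    refine preconn_sublevel (u := fun x : E3 => -hull θ c d R x) hcn (A := {x : E3 | R ≤ ‖x‖})
      (preconn_exterior R (by linarith)) ?_ ?_ ?_
    · refine ⟨EuclideanSpace.single 0 R, ?_⟩
      simp [abs_of_pos (show (0 : ℝ) < R by linarith)]
    · intro x hx
      have h1 := hge x hx
      change -hull θ c d R x < -t
      linarith [ht.2]
    · intro W hWo hWne hWA hWt hWf
      have hWs : W ⊆ shell R := by
        intro x hx
        refine ⟨?_, ?_⟩
        · by_contra hcon
          push Not at hcon
          have h1 : -hull θ c d R x < -t := hWt x hx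
          rw [hle x hcon] at h1
          linarith [ht.1]
        · have h1 := hWA x hx
          by_contra hcon
          push Not at hcon
          exact h1 hcon
      obtain ⟨x, hx⟩ := hWne
      have h1 := h.wmax W hWo hWs t (fun y hy => by
        have h2 := hcl W hWs y hy
        rw [← hmid y h2.1 h2.2]
        have h3 : -t ≤ -hull θ c d R y := hWf y hy
        linarith) x hx
      have h3 : -hull θ c d R x < -t := hWt x hx
      rw [hmid x (hWs hx).1.le (hWs hx).2.le] at h3
      linarith

end Pool.Agent.H44G
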