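import Pool.Agent.Lib.PenroseSph.Defs

set_option autoImplicit false

/-!
# H44G: definitions

Gauss curvature density of the level sets of a function `θ` on the shell `1 < |x| < R` of `ℝ³` (flat metric; for a general
metric see `UMB.kap`).
-/

open Filter Topology Set MeasureTheory
open scoped ContDiff

namespace Pool.Agent.H44G

open Pool.Agent.Lib.PenroseSph (E3 Tens pd)

/-- The matrix of the second partial derivatives. -/
noncomputable def flatHess (θ : E3 → ℝ) : Tens := fun x i j => pd i (pd j θ) x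

/-- `K |∇θ|` for the flat metric. -/
noncomputable def gaussDens (θ : E3 → ℝ) (x : E3) : ℝ :=
  (∑ i, ∑ j, (flatHess θ x).adjugate i j * pd i θ x * pd j θ x) / Real.sqrt (∑ i, pd i θ x ^ 2) ^ 3

/-- The open shell `1 < |x| < R`. -/
def shell (R : ℝ) : Set E3 := {x : E3 | 1 < ‖x‖ ∧ ‖x‖ < R}

/-- `θ` is continuous on the closed shell, smooth inside, `c` on the inner sphere, `d` on the outer sphere, strictly
between inside, and satisfies the weak maximum and minimum principle on open subsets of the shell. -/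
structure IsLevel (θ : E3 → ℝ) (c d R : ℝ) : Prop where
  one_lt : 1 < R
  lt : c < d
  cont : ContinuousOn θ {x : E3 | 1 ≤ ‖x‖ ∧ ‖x‖ ≤ R}
  smooth : ContDiffOn ℝ ∞ θ (shell R)
  inner : ∀ x : E3, ‖x‖ = 1 → θ x = c
  outer : ∀ x : E3, ‖x‖ = R → θ x = d
  mem : ∀ x ∈ shell R, c < θ x ∧ θ x < d
  wmin : ∀ W : Set E3, IsOpen W → W ⊆ shell R → ∀ M : ℝ, (∀ x ∈ frontier W, M ≤ θ x) → ∀ x ∈ W, M ≤ θ x
  wmax : ∀ W : Set E3, IsOpen W → W ⊆ shell R → ∀ M : ℝ, (∀ x ∈ frontier W, θ x ≤ M) → ∀ x ∈ W, θ x ≤ M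

/-- The critical values of `θ` in the shell. -/
def critVals (θ : E3 → ℝ) (R : ℝ) : Set ℝ := θ '' {x ∈ shell R | fderiv ℝ θ x = 0}

end Pool.Agent.H44G
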