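import Pool.Agent.Lib.H44G.Defs

set_option autoImplicit false

open Filter Topology Set

namespace Pool.Agent.H44G

open Pool.Agent.Lib.PenroseSph (E3)

/-- The extension of `θ` to `ℝ³` by constants. -/
noncomputable def hull (θ : E3 → ℝ) (c d R : ℝ) (x : E3) : ℝ := if ‖x‖ ≤ 1 then c else if R ≤ ‖x‖ then d else θ x

end Pool.Agent.H44G
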