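import Pool.Agent.Lib.H44G.MAlg

set_option autoImplicit false

namespace Pool.Agent.H44G

open UMB

variable {R : Type*} [CommRing R] [Algebra ℝ R]

/-- **Chunk MA0** (size S). `P Pᵀ = G` implies that `Q = Pᵀ g` is the inverse of `P`. -/
theorem fr_of {S : GA R} {P : Fin 3 → Fin 3 → R} (hPP : ∀ i j, ∑ a, P i a * P j a = S.G i j) :
    Fr S P (fun a j => ∑ k, P k a * S.g k j) := by
  have hPQ : ∀ i j, ∑ a, P i a * ∑ k, P k a * S.g k j = if i = j then 1 else 0 := by
    intro i j
    rw [← S.inv' i j]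
    simp only [← hPP, Fin.sum_univ_three]
    ring
  have h1 : Matrix.of P * Matrix.of (fun a j => ∑ k, P k a * S.g k j) = 1 := by
    ext i j
    rw [Matrix.mul_apply, Matrix.one_apply]
    exact hPQ i j
  have h2 : Matrix.of (fun a j => ∑ k, P k a * S.g k j) * Matrix.of P = 1 := mul_eq_one_comm.1 h1
  refine ⟨hPP, fun a b => ?_, hPQ⟩
  have := congrFun (congrFun h2 a) b
  rw [Matrix.mul_apply, Matrix.one_apply] at this
  exact this

end Pool.Agent.H44G
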