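import Pool.Agent.Lib.H44G.MAlg

set_option autoImplicit false

namespace Pool.Agent.H44G

open UMB

variable {R : Type*} [CommRing R] [Algebra ℝ R]

/-- `Q a k = ∑ l, P l a * g l k`. -/
theorem ma1_Q {S : GA R} {P Q : Fin 3 → Fin 3 → R} (h : Fr S P Q) (a k : Fin 3) :
    Q a k = ∑ l, P l a * S.g l k := by
  have e : ∀ i k, ∑ a, P i a * ∑ l, P l a * S.g l k = if i = k then 1 else 0 := by
    intro i k
    rw [← S.inv' i k]
    simp only [← h.PP, Fin.sum_univ_three]
    ring
  have h2 : ∑ i, Q a i * ∑ b, P i b * ∑ l, P l b * S.g l k = ∑ l, P l a * S.g l k := by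
    have h0 := h.QP a 0
    have h1 := h.QP a 1
    have h2 := h.QP a 2
    simp only [Fin.sum_univ_three] at h0 h1 h2
    have key : ∑ i, Q a i * ∑ b, P i b * ∑ l, P l b * S.g l k
        = (Q a 0 * P 0 0 + Q a 1 * P 1 0 + Q a 2 * P 2 0) * ∑ l, P l 0 * S.g l k
          + (Q a 0 * P 0 1 + Q a 1 * P 1 1 + Q a 2 * P 2 1) * ∑ l, P l 1 * S.g l k
          + (Q a 0 * P 0 2 + Q a 1 * P 1 2 + Q a 2 * P 2 2) * ∑ l, P l 2 * S.g l k := by
      simp only [Fin.sum_univ_three]
      ring
    rw [key, h0, h1, h2]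
    fin_cases a <;> simp
  rw [← h2]
  simp only [e]
  simp

/-- **Chunk MA1** (size M). The connection form is antisymmetric. -/
theorem con_antisymm {S : GA R} {P Q : Fin 3 → Fin 3 → R} (h : Fr S P Q) (i a b : Fin 3) :
    con S P Q i a b = - con S P Q i b a := by
  have h1 : ∑ k, (∑ l, P l a * S.g l k) * P k b = if a = b then 1 else 0 := by
    rw [← h.QP a b]
    exact Finset.sum_congr rfl fun k _ => by rw [ma1_Q h]
  have h2 := congrArg (S.D i) h1
  have h3 : S.D i (if a = b then (1 : R) else 0) = 0 := by split_ifs <;> simp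
  rw [h3] at h2
  simp only [map_sum, Derivation.leibniz, smul_eq_mul, S.Dg] at h2
  have h4 : con S P Q i a b + con S P Q i b a = 0 := by
    rw [← h2]
    unfold con
    simp only [ma1_Q h]
    simp only [Fin.sum_univ_three, S.gsymm 1 0, S.gsymm 2 0, S.gsymm 2 1]
    ring
  linear_combination h4

/-- The curvature form is antisymmetric in the frame indices. -/
theorem cur_antisymm {S : GA R} {P Q : Fin 3 → Fin 3 → R} (h : Fr S P Q) (i j a b : Fin 3) :
    cur S P Q i j a b = - cur S P Q i j b a := by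
  unfold cur
  rw [con_antisymm h j a b, con_antisymm h i a b]
  have e : ∀ c, con S P Q i a c * con S P Q j c b - con S P Q j a c * con S P Q i c b
      = -(con S P Q i b c * con S P Q j c a - con S P Q j b c * con S P Q i c a) := by
    intro c
    rw [con_antisymm h i a c, con_antisymm h j c b, con_antisymm h j a c, con_antisymm h i c b]
    ring
  simp only [e, map_neg, Finset.sum_neg_distrib]
  ring

end Pool.Agent.H44G
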