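import Pool.Agent.Lib.H44G.MAlg

set_option autoImplicit false

namespace Pool.Agent.H44G

open UMB

variable {R : Type*} [CommRing R] [Algebra ℝ R]

theorem ma2_PW {S : GA R} {P Q : Fin 3 → Fin 3 → R} (h : Fr S P Q) (i k b : Fin 3) :
    ∑ a, P k a * con S P Q i a b = S.D i (P k b) + ∑ l, S.Ga k i l * P l b := by
  unfold con
  generalize hX : (fun k => S.D i (P k b) + ∑ l, S.Ga k i l * P l b) = X
  have hX' : ∀ k, S.D i (P k b) + ∑ l, S.Ga k i l * P l b = X k := fun k => congrFun hX k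
  simp only [hX']
  have h0 := h.PQ k 0
  have h1 := h.PQ k 1
  have h2 := h.PQ k 2
  simp only [Fin.sum_univ_three] at h0 h1 h2 ⊢
  have key : P k 0 * (Q 0 0 * X 0 + Q 0 1 * X 1 + Q 0 2 * X 2) + P k 1 * (Q 1 0 * X 0 + Q 1 1 * X 1 + Q 1 2 * X 2)
      + P k 2 * (Q 2 0 * X 0 + Q 2 1 * X 1 + Q 2 2 * X 2)
      = (P k 0 * Q 0 0 + P k 1 * Q 1 0 + P k 2 * Q 2 0) * X 0 + (P k 0 * Q 0 1 + P k 1 * Q 1 1 + P k 2 * Q 2 1) * X 1
        + (P k 0 * Q 0 2 + P k 1 * Q 1 2 + P k 2 * Q 2 2) * X 2 := by ring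
  rw [key, h0, h1, h2]
  fin_cases k <;> simp

theorem ma2_rieP {S : GA R} {P Q : Fin 3 → Fin 3 → R} (h : Fr S P Q) (i j k b : Fin 3) :
    ∑ a, P k a * cur S P Q i j a b = ∑ l, rie S i j k l * P l b := by
  have hPW := ma2_PW h
  -- derivative of `P W = DP + Ga P`
  have d1 := congrArg (S.D i) (hPW j k b)
  have d2 := congrArg (S.D j) (hPW i k b)
  simp only [map_add, map_sum, Derivation.leibniz, smul_eq_mul] at d1 d2
  rw [S.comm j i] at d2
  -- `(D P) W` terms
  have e1 : ∀ i' c, S.D i' (P k c) = ∑ a, P k a * con S P Q i' a c - ∑ l, S.Ga k i' l * P l c := by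
    intro i' c
    rw [hPW i' k c]; ring
  have e2 : ∀ i' l c, S.D i' (P l c) = ∑ a, P l a * con S P Q i' a c - ∑ m, S.Ga l i' m * P m c := by
    intro i' l c
    rw [hPW i' l c]; ring
  unfold cur rie
  generalize hW : con S P Q = W at *
  simp only [e2] at d1 d2
  simp only [Fin.sum_univ_three] at d1 d2 ⊢
  linear_combination d1 - d2

/-- **Chunk MA2** (size M). Curvature in coordinates and in the frame. -/
theorem rie_eq {S : GA R} {P Q : Fin 3 → Fin 3 → R} (h : Fr S P Q) (i j k l : Fin 3) :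
    rie S i j k l = ∑ a, ∑ b, P k a * cur S P Q i j a b * Q b l := by
  have h1 : ∑ a, ∑ b, P k a * cur S P Q i j a b * Q b l = ∑ b, (∑ m, rie S i j k m * P m b) * Q b l := by
    rw [Finset.sum_comm]
    refine Finset.sum_congr rfl fun b _ => ?_
    rw [← ma2_rieP h, Finset.sum_mul]
  have h2 : ∑ b, (∑ m, rie S i j k m * P m b) * Q b l = ∑ m, rie S i j k m * ∑ b, P m b * Q b l := by
    simp only [Fin.sum_univ_three]
    ring
  rw [h1, h2]
  simp only [h.PQ]
  simp

/-- The Ricci curvature is a contraction of `rie`. -/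
theorem ric_eq (S : GA R) (i j : Fin 3) : S.ric i j = ∑ k, rie S k j k i := by
  unfold GA.ric rie
  refine Finset.sum_congr rfl fun k _ => ?_
  rw [S.Ga_symm k i j, S.Ga_symm k i k]
  congr 1
  refine Finset.sum_congr rfl fun l _ => ?_
  rw [S.Ga_symm l i j, S.Ga_symm l i k]

end Pool.Agent.H44G
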