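import Pool.Agent.Lib.H44G.MA1

set_option autoImplicit false

namespace Pool.Agent.H44G

open UMB

variable {R : Type*} [CommRing R] [Algebra ℝ R]

theorem ma3_Qu {S : GA R} {P Q : Fin 3 → Fin 3 → R} (h : Fr S P Q) (θ : R) (k : Fin 3) :
    S.D k θ = ∑ a, Q a k * uu S P θ a := by
  have h0 := h.PQ 0 k
  have h1 := h.PQ 1 k
  have h2 := h.PQ 2 k
  unfold uu
  simp only [Fin.sum_univ_three] at h0 h1 h2 ⊢
  have key : Q 0 k * (P 0 0 * S.D 0 θ + P 1 0 * S.D 1 θ + P 2 0 * S.D 2 θ) + Q 1 k * (P 0 1 * S.D 0 θ + P 1 1 * S.D 1 θ + P 2 1 * S.D 2 θ)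
      + Q 2 k * (P 0 2 * S.D 0 θ + P 1 2 * S.D 1 θ + P 2 2 * S.D 2 θ)
      = (P 0 0 * Q 0 k + P 0 1 * Q 1 k + P 0 2 * Q 2 k) * S.D 0 θ + (P 1 0 * Q 0 k + P 1 1 * Q 1 k + P 1 2 * Q 2 k) * S.D 1 θ
        + (P 2 0 * Q 0 k + P 2 1 * Q 1 k + P 2 2 * Q 2 k) * S.D 2 θ := by ring
  rw [key, h0, h1, h2]
  fin_cases k <;> simp

/-- **Chunk MA3** (size S/M). Covariant derivative of the gradient in the frame. -/
theorem D_uu {S : GA R} {P Q : Fin 3 → Fin 3 → R} (h : Fr S P Q) (θ : R) (i a : Fin 3) :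
    S.D i (uu S P θ a) + ∑ b, con S P Q i a b * uu S P θ b = hf S P θ i a := by
  have h1 : ∑ b, con S P Q i a b * uu S P θ b = - ∑ k, (S.D i (P k a) + ∑ l, S.Ga k i l * P l a) * S.D k θ := by
    simp only [con_antisymm h i a, ma3_Qu h θ]
    unfold con
    simp only [Fin.sum_univ_three]
    ring
  rw [h1]
  unfold uu hf GA.hs
  simp only [Fin.sum_univ_three, S.Ga_symm _ i 0, S.Ga_symm _ i 1, S.Ga_symm _ i 2]
  simp only [map_add, Derivation.leibniz, smul_eq_mul]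
  ring

/-- `gradient = ∑ a, uu a e_a`, and `|∇θ|² = ∑ uu²`, and `∂_k θ = ∑ a, Q a k uu a`. -/
theorem gr_eq {S : GA R} {P Q : Fin 3 → Fin 3 → R} (h : Fr S P Q) (θ : R) :
    (∀ i, S.gr θ i = ∑ a, P i a * uu S P θ a) ∧ S.fsq θ = ∑ a, uu S P θ a ^ 2 ∧
      (∀ k, S.D k θ = ∑ a, Q a k * uu S P θ a) ∧ ∀ a, ∑ k, Q a k * S.gr θ k = uu S P θ a := by
  have hg : ∀ i, S.gr θ i = ∑ a, P i a * uu S P θ a := by
    intro i
    unfold GA.gr uu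
    simp only [← h.PP, Fin.sum_univ_three]
    ring
  refine ⟨hg, ?_, ma3_Qu h θ, fun a => ?_⟩
  · unfold GA.fsq
    simp only [hg]
    unfold uu
    simp only [Fin.sum_univ_three]
    ring
  · have h0 := h.QP a 0
    have h1 := h.QP a 1
    have h2 := h.QP a 2
    simp only [hg, Fin.sum_univ_three] at h0 h1 h2 ⊢
    generalize uu S P θ = u
    have key : Q a 0 * (P 0 0 * u 0 + P 0 1 * u 1 + P 0 2 * u 2) + Q a 1 * (P 1 0 * u 0 + P 1 1 * u 1 + P 1 2 * u 2)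
        + Q a 2 * (P 2 0 * u 0 + P 2 1 * u 1 + P 2 2 * u 2)
        = (Q a 0 * P 0 0 + Q a 1 * P 1 0 + Q a 2 * P 2 0) * u 0 + (Q a 0 * P 0 1 + Q a 1 * P 1 1 + Q a 2 * P 2 1) * u 1
          + (Q a 0 * P 0 2 + Q a 1 * P 1 2 + Q a 2 * P 2 2) * u 2 := by ring
    rw [key, h0, h1, h2]
    fin_cases a <;> simp

end Pool.Agent.H44G
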