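import Pool.Agent.Lib.H44G.MA1
import Pool.Agent.Lib.H44G.MA2
import Pool.Agent.Lib.H44G.MA3

set_option autoImplicit false

namespace Pool.Agent.H44G

open UMB

variable {R : Type*} [CommRing R] [Algebra ℝ R]

theorem ma4_QG {S : GA R} {P Q : Fin 3 → Fin 3 → R} (h : Fr S P Q) (b j : Fin 3) :
    ∑ i, Q b i * S.G i j = P j b := by
  have h1 : ∑ i, Q b i * S.G i j = ∑ c, (∑ i, Q b i * P i c) * P j c := by
    simp only [← h.PP, Fin.sum_univ_three]; ring
  rw [h1]
  simp [h.QP]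

theorem ma4_row {S : GA R} {P Q : Fin 3 → Fin 3 → R} (h : Fr S P Q) (k j : Fin 3) (v : Fin 3 → R) :
    ∑ i, v i * rie S k j k i = ∑ a, ∑ b, P k a * cur S P Q k j a b * ∑ i, Q b i * v i := by
  simp only [rie_eq h]
  generalize cur S P Q k j = C
  simp only [Fin.sum_univ_three]
  ring

/-- **Chunk MA4** (size M). Scalar curvature in the frame.

Proof. `scal = ∑ G i j ric i j`, `ric i j = ∑ k, rie k j k i = ∑ k a b, P k a cur k j a b Q b i` (`ric_eq`, `rie_eq`),
`G i j = ∑ c, P i c P j c`, and `∑ i, Q b i P i c = δ b c` (`QP`). -/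
theorem scal_eq {S : GA R} {P Q : Fin 3 → Fin 3 → R} (h : Fr S P Q) :
    S.scal = ∑ k, ∑ j, ∑ a, ∑ b, P k a * P j b * cur S P Q k j a b := by
  have h1 : S.scal = ∑ k, ∑ j, ∑ i, S.G i j * rie S k j k i := by
    unfold GA.scal
    simp only [ric_eq]
    have e1 : ∀ i j, S.G i j * ∑ k, rie S k j k i = ∑ k, S.G i j * rie S k j k i := fun i j => Finset.mul_sum _ _ _
    simp only [e1]
    rw [Finset.sum_comm]
    have e2 : ∀ j, ∑ i, ∑ k, S.G i j * rie S k j k i = ∑ k, ∑ i, S.G i j * rie S k j k i := fun j => Finset.sum_comm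
    simp only [e2]
    exact Finset.sum_comm
  rw [h1]
  refine Finset.sum_congr rfl fun k _ => Finset.sum_congr rfl fun j _ => ?_
  rw [ma4_row h k j (fun i => S.G i j)]
  refine Finset.sum_congr rfl fun a _ => Finset.sum_congr rfl fun b _ => ?_
  rw [ma4_QG h b j]
  ring

/-- Ricci curvature on the gradient, in the frame. Same proof, with `∑ i, Q b i gr i = uu b` and
`gr j = ∑ c, P j c uu c` (`gr_eq`). -/
theorem ricg_eq {S : GA R} {P Q : Fin 3 → Fin 3 → R} (h : Fr S P Q) (θ : R) :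
    S.ricg θ = ∑ k, ∑ j, ∑ a, ∑ b, ∑ c, P k a * P j c * cur S P Q k j a b * uu S P θ b * uu S P θ c := by
  obtain ⟨hg1, -, -, hg4⟩ := gr_eq h θ
  have h1 : S.ricg θ = ∑ k, ∑ j, (∑ i, S.gr θ i * rie S k j k i) * S.gr θ j := by
    unfold GA.ricg
    simp only [ric_eq]
    have e1 : ∀ i j, (∑ k, rie S k j k i) * S.gr θ i * S.gr θ j = ∑ k, S.gr θ i * rie S k j k i * S.gr θ j := by
      intro i j
      rw [Finset.sum_mul, Finset.sum_mul]
      exact Finset.sum_congr rfl fun k _ => by ring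
    simp only [e1]
    rw [Finset.sum_comm]
    have e2 : ∀ j, ∑ i, ∑ k, S.gr θ i * rie S k j k i * S.gr θ j = ∑ k, (∑ i, S.gr θ i * rie S k j k i) * S.gr θ j := by
      intro j
      rw [Finset.sum_comm]
      exact Finset.sum_congr rfl fun k _ => by rw [Finset.sum_mul]
    simp only [e2]
    exact Finset.sum_comm
  rw [h1]
  refine Finset.sum_congr rfl fun k _ => Finset.sum_congr rfl fun j _ => ?_
  rw [ma4_row h k j (fun i => S.gr θ i), Finset.sum_mul]
  refine Finset.sum_congr rfl fun a _ => ?_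
  rw [Finset.sum_mul]
  refine Finset.sum_congr rfl fun b _ => ?_
  rw [hg4 b, hg1 j, Finset.mul_sum]
  exact Finset.sum_congr rfl fun c _ => by ring

end Pool.Agent.H44G
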