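import Pool.Agent.Lib.H44G.MA4

set_option autoImplicit false

namespace Pool.Agent.H44G

open UMB

variable {R : Type*} [CommRing R] [Algebra ℝ R]

theorem ma4b_self_neg {x : R} (h : x = -x) : x = 0 := by
  have h4 : (2 : ℝ) • x = 0 := by
    rw [two_smul]; linear_combination h
  have h5 := congrArg (fun z => (1 / 2 : ℝ) • z) h4
  simpa [smul_smul] using h5

/-- The adjugate of a `3 × 3` matrix. -/
def ma4bAdj (P : Fin 3 → Fin 3 → R) : Fin 3 → Fin 3 → R :=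
  ![![P 1 1 * P 2 2 - P 1 2 * P 2 1, P 0 2 * P 2 1 - P 0 1 * P 2 2, P 0 1 * P 1 2 - P 0 2 * P 1 1],
    ![P 1 2 * P 2 0 - P 1 0 * P 2 2, P 0 0 * P 2 2 - P 0 2 * P 2 0, P 0 2 * P 1 0 - P 0 0 * P 1 2],
    ![P 1 0 * P 2 1 - P 1 1 * P 2 0, P 0 1 * P 2 0 - P 0 0 * P 2 1, P 0 0 * P 1 1 - P 0 1 * P 1 0]]

theorem ma4b_adj {P Q : Fin 3 → Fin 3 → R} (h : ∀ a b, ∑ i, Q a i * P i b = if a = b then 1 else 0) (c k : Fin 3) :
    det3 P * Q c k = ma4bAdj P c k := by
  have h0 := h c 0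
  have h1 := h c 1
  have h2 := h c 2
  simp only [Fin.sum_univ_three] at h0 h1 h2
  have key : det3 P * Q c k = ma4bAdj P 0 k * (Q c 0 * P 0 0 + Q c 1 * P 1 0 + Q c 2 * P 2 0)
      + ma4bAdj P 1 k * (Q c 0 * P 0 1 + Q c 1 * P 1 1 + Q c 2 * P 2 1)
      + ma4bAdj P 2 k * (Q c 0 * P 0 2 + Q c 1 * P 1 2 + Q c 2 * P 2 2) := by
    unfold det3 ma4bAdj
    fin_cases k <;> simp <;> ring
  rw [key, h0, h1, h2]
  fin_cases c <;> simp

/-- **Chunk MA4B** (size M/L): the Einstein tensor. With `Φ i j = vec (cur i j)` (antisymmetric in the frame indices by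
`cur_antisymm`, and in `i j` by definition), `J = det3 P`:
`2 J ∑_cyc ∂_kθ (u · Φ i j) = 2 ricg - |u|² scal`. -/
theorem einstein {S : GA R} {P Q : Fin 3 → Fin 3 → R} (h : Fr S P Q) (θ : R) :
    2 * det3 P * cyc (fun k => S.D k θ) (fun i j => dotp (uu S P θ) (vec (cur S P Q i j)))
      = 2 * S.ricg θ - S.fsq θ * S.scal := by
  obtain ⟨hg1, hg2, hg3, hg4⟩ := gr_eq h θ
  have hD : ∀ k, det3 P * S.D k θ = ma4bAdj P 0 k * uu S P θ 0 + ma4bAdj P 1 k * uu S P θ 1 + ma4bAdj P 2 k * uu S P θ 2 := by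
    intro k
    rw [hg3 k, Fin.sum_univ_three, ← ma4b_adj h.QP 0 k, ← ma4b_adj h.QP 1 k, ← ma4b_adj h.QP 2 k]
    ring
  have hL : 2 * det3 P * cyc (fun k => S.D k θ) (fun i j => dotp (uu S P θ) (vec (cur S P Q i j)))
      = 2 * cyc (fun k => ma4bAdj P 0 k * uu S P θ 0 + ma4bAdj P 1 k * uu S P θ 1 + ma4bAdj P 2 k * uu S P θ 2)
        (fun i j => dotp (uu S P θ) (vec (cur S P Q i j))) := by
    unfold cyc
    simp only [← hD]
    ring
  rw [hL, ricg_eq h θ, scal_eq h, hg2]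
  have hij : ∀ i j a b, cur S P Q i j a b = - cur S P Q j i a b := by
    intro i j a b
    unfold cur
    simp only [Fin.sum_univ_three]
    ring
  have hii : ∀ i a b, cur S P Q i i a b = 0 := fun i a b => ma4b_self_neg (hij i i a b)
  have haa : ∀ i j a, cur S P Q i j a a = 0 := fun i j a => ma4b_self_neg (cur_antisymm h i j a a)
  have hab : ∀ i j a b, cur S P Q i j a b = - cur S P Q i j b a := fun i j a b => cur_antisymm h i j a b
  generalize huu : uu S P θ = u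
  generalize hc : cur S P Q = C at *
  simp only [Fin.sum_univ_three, hii, haa, hij 1 0, hij 2 1, hij 0 2, hab _ _ 0 1, hab _ _ 1 2, hab _ _ 2 0]
  unfold cyc dotp vec ma4bAdj
  simp
  ring

end Pool.Agent.H44G
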