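import Pool.Agent.Lib.H44G.MA3

set_option autoImplicit false

namespace Pool.Agent.H44G

open UMB

variable {R : Type*} [CommRing R] [Algebra ℝ R]

/-- Frame components of the Hessian. -/
noncomputable def ma5H (S : GA R) (P : Fin 3 → Fin 3 → R) (θ : R) (a b : Fin 3) : R := ∑ i, P i a * hf S P θ i b

theorem ma5_symm (S : GA R) (P : Fin 3 → Fin 3 → R) (θ : R) (a b : Fin 3) : ma5H S P θ a b = ma5H S P θ b a := by
  unfold ma5H hf
  simp only [Fin.sum_univ_three, S.hs_symm θ 1 0, S.hs_symm θ 2 0, S.hs_symm θ 2 1]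
  ring

theorem ma5_hf {S : GA R} {P Q : Fin 3 → Fin 3 → R} (h : Fr S P Q) (θ : R) (i b : Fin 3) :
    hf S P θ i b = ∑ a, Q a i * ma5H S P θ a b := by
  have h0 := h.PQ 0 i
  have h1 := h.PQ 1 i
  have h2 := h.PQ 2 i
  simp only [Fin.sum_univ_three] at h0 h1 h2
  have key : ∑ a, Q a i * ma5H S P θ a b = (P 0 0 * Q 0 i + P 0 1 * Q 1 i + P 0 2 * Q 2 i) * hf S P θ 0 b
      + (P 1 0 * Q 0 i + P 1 1 * Q 1 i + P 1 2 * Q 2 i) * hf S P θ 1 b
      + (P 2 0 * Q 0 i + P 2 1 * Q 1 i + P 2 2 * Q 2 i) * hf S P θ 2 b := by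
    unfold ma5H
    simp only [Fin.sum_univ_three]
    ring
  rw [key, h0, h1, h2]
  fin_cases i <;> simp

theorem ma5_lap {S : GA R} {P Q : Fin 3 → Fin 3 → R} (h : Fr S P Q) (θ : R) :
    S.lap θ = ∑ a, ma5H S P θ a a := by
  unfold GA.lap GA.hm ma5H hf
  simp only [← h.PP, Fin.sum_univ_three, S.hs_symm θ 1 0, S.hs_symm θ 2 0, S.hs_symm θ 2 1]
  ring

theorem ma5_hsq {S : GA R} {P Q : Fin 3 → Fin 3 → R} (h : Fr S P Q) (θ : R) :
    S.hsq θ = ∑ a, ∑ b, ma5H S P θ a b ^ 2 := by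
  unfold GA.hsq GA.hm ma5H hf
  simp only [← h.PP, Fin.sum_univ_three, S.hs_symm θ 1 0, S.hs_symm θ 2 0, S.hs_symm θ 2 1]
  ring

theorem ma5_hg {S : GA R} {P Q : Fin 3 → Fin 3 → R} (h : Fr S P Q) (θ : R) (a : Fin 3) :
    ∑ i, P i a * S.hg θ i = ∑ b, ma5H S P θ a b * uu S P θ b := by
  obtain ⟨hg1, -, -, -⟩ := gr_eq h θ
  unfold GA.hg ma5H hf
  simp only [hg1, Fin.sum_univ_three]
  ring

theorem ma5_hgg {S : GA R} {P Q : Fin 3 → Fin 3 → R} (h : Fr S P Q) (θ : R) :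
    S.hgg θ = ∑ a, (∑ b, ma5H S P θ a b * uu S P θ b) * uu S P θ a := by
  obtain ⟨hg1, -, -, -⟩ := gr_eq h θ
  simp only [← ma5_hg h]
  unfold GA.hgg
  simp only [hg1, Fin.sum_univ_three]
  ring

theorem ma5_hgq {S : GA R} {P Q : Fin 3 → Fin 3 → R} (h : Fr S P Q) (θ : R) :
    S.hgq θ = ∑ a, (∑ b, ma5H S P θ a b * uu S P θ b) ^ 2 := by
  simp only [← ma5_hg h]
  unfold GA.hgq
  simp only [← h.PP, Fin.sum_univ_three]
  ring

theorem ma5_det {P Q : Fin 3 → Fin 3 → R} (h : ∀ a b, ∑ i, Q a i * P i b = if a = b then 1 else 0) :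
    det3 P * det3 Q = 1 := by
  have e : ∀ M : Fin 3 → Fin 3 → R, det3 M = (Matrix.of M).det := by
    intro M
    rw [Matrix.det_fin_three]
    rfl
  have h1 : Matrix.of Q * Matrix.of P = 1 := by
    ext a b
    rw [Matrix.mul_apply, Matrix.one_apply]
    exact h a b
  rw [e, e, mul_comm, ← Matrix.det_mul, h1, Matrix.det_one]

/-- **Chunk MA5** (size M). The second fundamental form part.
`2 J ∑_cyc ∂_kθ u · (hf i × hf j) = 2 (|H∇|² - lap H(∇,∇)) + |∇θ|² (lap² - |H|²)`. -/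
theorem second_form {S : GA R} {P Q : Fin 3 → Fin 3 → R} (h : Fr S P Q) (θ : R) :
    2 * det3 P * cyc (fun k => S.D k θ) (fun i j => dotp (uu S P θ) (crs (hf S P θ i) (hf S P θ j)))
      = 2 * (S.hgq θ - S.lap θ * S.hgg θ) + S.fsq θ * (S.lap θ ^ 2 - S.hsq θ) := by
  obtain ⟨hg1, hg2, hg3, hg4⟩ := gr_eq h θ
  have hd := ma5_det h.QP
  rw [ma5_hgq h, ma5_hgg h, ma5_lap h, ma5_hsq h, hg2]
  have hs := ma5_symm S P θ
  have hff := ma5_hf h θ
  generalize ma5H S P θ = H at *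
  generalize uu S P θ = u at *
  have e1 : cyc (fun k => S.D k θ) (fun i j => dotp u (crs (hf S P θ i) (hf S P θ j)))
      = det3 Q * (u 2 * dotp u (crs (H 0) (H 1)) + u 0 * dotp u (crs (H 1) (H 2)) + u 1 * dotp u (crs (H 2) (H 0))) := by
    unfold cyc dotp crs det3
    simp only [hg3, hff, Fin.sum_univ_three]
    simp
    ring
  rw [e1]
  have e2 : 2 * det3 P * (det3 Q * (u 2 * dotp u (crs (H 0) (H 1)) + u 0 * dotp u (crs (H 1) (H 2)) + u 1 * dotp u (crs (H 2) (H 0))))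
      = 2 * (u 2 * dotp u (crs (H 0) (H 1)) + u 0 * dotp u (crs (H 1) (H 2)) + u 1 * dotp u (crs (H 2) (H 0))) := by
    linear_combination 2 * (u 2 * dotp u (crs (H 0) (H 1)) + u 0 * dotp u (crs (H 1) (H 2)) + u 1 * dotp u (crs (H 2) (H 0))) * hd
  rw [e2]
  unfold dotp crs
  simp only [Fin.sum_univ_three, hs 1 0, hs 2 0, hs 2 1]
  simp
  ring

end Pool.Agent.H44G
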