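import Pool.Agent.Lib.H44G.MA4b
import Pool.Agent.Lib.H44G.MA5

set_option autoImplicit false

namespace Pool.Agent.H44G

open UMB

variable {R : Type*} [CommRing R] [Algebra ℝ R]

/-- The connection acts on vectors as a vector product. -/
theorem ma6_act {S : GA R} {P Q : Fin 3 → Fin 3 → R} (h : Fr S P Q) (i a : Fin 3) (v : Fin 3 → R) :
    ∑ b, con S P Q i a b * v b = crs (vec (con S P Q i)) v a := by
  have h0 : ∀ i a, con S P Q i a a = 0 := fun i a => ma4b_self_neg (con_antisymm h i a a)
  have h1 := fun i => con_antisymm h i 0 1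
  have h2 := fun i => con_antisymm h i 1 2
  have h3 := fun i => con_antisymm h i 2 0
  fin_cases a <;>
  · simp only [vec, crs, Fin.sum_univ_three, Matrix.cons_val_zero, Matrix.cons_val_one, Matrix.cons_val,
      Fin.zero_eta, Fin.mk_one, Fin.reduceFinMk, Fin.isValue, h0, h1, h2, h3]
    ring

/-- **Chunk MA6** (size M). The Gauss equation in the frame. -/
theorem gauss_frame {S : GA R} {P Q : Fin 3 → Fin 3 → R} (h : Fr S P Q) {θ y yi : R} {n : Fin 3 → R}
    (hy : y * yi = 1) (hn : dotp n n = 1) (hu : ∀ a, uu S P θ a = y * n a) :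
    kap2 S θ y yi = 2 * det3 P * cyc (fun k => S.D k θ) (fun i j =>
      dotp n (crs (fun a => S.D i (n a) + crs (vec (con S P Q i)) n a) (fun a => S.D j (n a) + crs (vec (con S P Q j)) n a))
        - dotp n (vec (cur S P Q i j))) := by
  have hf2 : S.fsq θ = y ^ 2 := by
    rw [(gr_eq h θ).2.1]
    unfold dotp at hn
    simp only [hu, Fin.sum_univ_three]
    linear_combination y ^ 2 * hn
  -- covariant derivative of `n`
  have hDn : ∀ i a, S.D i (n a) + crs (vec (con S P Q i)) n a = yi * (hf S P θ i a - S.D i y * n a) := by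
    intro i a
    have h1 := D_uu h θ i a
    rw [ma6_act h i a] at h1
    have h2 : crs (vec (con S P Q i)) (uu S P θ) a = y * crs (vec (con S P Q i)) n a := by
      have e : uu S P θ = fun a => y * n a := funext hu
      rw [e]
      unfold crs
      fin_cases a <;> simp <;> ring
    rw [h2, hu a] at h1
    simp only [Derivation.leibniz, smul_eq_mul] at h1
    linear_combination (-(S.D i (n a)) - crs (vec (con S P Q i)) n a) * hy + yi * h1
  have ht : ∀ i j, dotp n (crs (fun a => S.D i (n a) + crs (vec (con S P Q i)) n a)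
      (fun a => S.D j (n a) + crs (vec (con S P Q j)) n a))
      = yi ^ 3 * dotp (uu S P θ) (crs (hf S P θ i) (hf S P θ j)) := by
    intro i j
    simp only [hDn]
    simp only [dotp, crs, hu, Matrix.cons_val_zero, Matrix.cons_val_one, Matrix.cons_val]
    linear_combination -(yi ^ 2 * (n 0 * (hf S P θ i 1 * hf S P θ j 2 - hf S P θ i 2 * hf S P θ j 1)
      + n 1 * (hf S P θ i 2 * hf S P θ j 0 - hf S P θ i 0 * hf S P θ j 2)
      + n 2 * (hf S P θ i 0 * hf S P θ j 1 - hf S P θ i 1 * hf S P θ j 0))) * hy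
  have hp : ∀ i j, dotp n (vec (cur S P Q i j)) = yi * dotp (uu S P θ) (vec (cur S P Q i j)) := by
    intro i j
    simp only [dotp, hu]
    linear_combination -(n 0 * vec (cur S P Q i j) 0 + n 1 * vec (cur S P Q i j) 1 + n 2 * vec (cur S P Q i j) 2) * hy
  have h1 := second_form h θ
  have h2 := einstein h θ
  have e : 2 * det3 P * cyc (fun k => S.D k θ) (fun i j =>
      dotp n (crs (fun a => S.D i (n a) + crs (vec (con S P Q i)) n a) (fun a => S.D j (n a) + crs (vec (con S P Q j)) n a))
        - dotp n (vec (cur S P Q i j)))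
      = yi ^ 3 * (2 * det3 P * cyc (fun k => S.D k θ) (fun i j => dotp (uu S P θ) (crs (hf S P θ i) (hf S P θ j))))
        - yi * (2 * det3 P * cyc (fun k => S.D k θ) (fun i j => dotp (uu S P θ) (vec (cur S P Q i j)))) := by
    simp only [ht, hp]
    unfold cyc
    ring
  rw [e, h1, h2, hf2]
  unfold kap2
  linear_combination (-y * S.scal) * hy - yi * (S.lap θ ^ 2 - S.hsq θ) * (1 + y * yi) * hy

end Pool.Agent.H44G
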