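import Pool.Agent.Lib.H44G.MA1

set_option autoImplicit false

namespace Pool.Agent.H44G

open UMB

variable {R : Type*} [CommRing R] [Algebra ℝ R]

theorem ma7_half {x : R} (h : 2 * x = 0) : x = 0 := by
  have h4 : (2 : ℝ) • x = 0 := by
    rw [two_smul]; linear_combination h
  have h5 := congrArg (fun z => (1 / 2 : ℝ) • z) h4
  simpa [smul_smul] using h5

theorem ma7_nD {S : GA R} {n : Fin 3 → R} (hn : dotp n n = 1) (i : Fin 3) : dotp n (fun a => S.D i (n a)) = 0 := by
  have h := congrArg (S.D i) hn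
  unfold dotp at h ⊢
  simp only [map_add, Derivation.leibniz, smul_eq_mul, Derivation.map_one_eq_zero] at h
  exact ma7_half (by linear_combination h)

/-- The vector identity behind the transgression. -/
theorem ma7_vec (n a b p q : Fin 3 → R) (hn : dotp n n = 1) (hp : dotp n p = 0) (hq : dotp n q = 0) :
    dotp n (crs (fun c => p c + crs a n c) (fun c => q c + crs b n c))
      = dotp n (crs p q) - dotp b p + dotp a q + dotp n (crs a b) := by
  unfold dotp crs at *
  simp only [Matrix.cons_val_zero, Matrix.cons_val_one, Matrix.cons_val]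
  linear_combination (-(b 0 * p 0 + b 1 * p 1 + b 2 * p 2) + (a 0 * q 0 + a 1 * q 1 + a 2 * q 2)
    + (n 0 * (a 1 * b 2 - a 2 * b 1) + n 1 * (a 2 * b 0 - a 0 * b 2) + n 2 * (a 0 * b 1 - a 1 * b 0))) * hn
    + (b 0 * n 0 + b 1 * n 1 + b 2 * n 2) * hp - (a 0 * n 0 + a 1 * n 1 + a 2 * n 2) * hq

theorem ma7_cur {S : GA R} {P Q : Fin 3 → Fin 3 → R} (h : Fr S P Q) (i j a : Fin 3) :
    vec (cur S P Q i j) a = S.D i (vec (con S P Q j) a) - S.D j (vec (con S P Q i) a)
      + crs (vec (con S P Q i)) (vec (con S P Q j)) a := by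
  have h0 : ∀ i a, con S P Q i a a = 0 := fun i a => ma7_half (by linear_combination con_antisymm h i a a)
  have h1 := fun i => con_antisymm h i 0 1
  have h2 := fun i => con_antisymm h i 1 2
  have h3 := fun i => con_antisymm h i 2 0
  fin_cases a <;>
  · simp only [vec, cur, crs, Fin.sum_univ_three, Matrix.cons_val_zero, Matrix.cons_val_one, Matrix.cons_val,
      Fin.zero_eta, Fin.mk_one, Fin.reduceFinMk, Fin.isValue, h0, h1, h2, h3]
    ring

/-- **Chunk MA7** (size M). Chern's transgression. -/
theorem chern {S : GA R} {P Q : Fin 3 → Fin 3 → R} (h : Fr S P Q) {n : Fin 3 → R} (hn : dotp n n = 1) (i j : Fin 3) :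
    dotp n (crs (fun a => S.D i (n a) + crs (vec (con S P Q i)) n a) (fun a => S.D j (n a) + crs (vec (con S P Q j)) n a))
        - dotp n (vec (cur S P Q i j))
      = dotp n (crs (fun a => S.D i (n a)) (fun a => S.D j (n a)))
        - (S.D i (dotp n (vec (con S P Q j))) - S.D j (dotp n (vec (con S P Q i)))) := by
  rw [ma7_vec n _ _ _ _ hn (ma7_nD hn i) (ma7_nD hn j)]
  have hc := ma7_cur h i j
  generalize vec (con S P Q i) = A at *
  generalize vec (con S P Q j) = B at *
  unfold dotp at *
  simp only [hc, map_add, Derivation.leibniz, smul_eq_mul]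
  ring

end Pool.Agent.H44G
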