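import Pool.Agent.Lib.H44G.MAlg

set_option autoImplicit false

namespace Pool.Agent.H44G

open UMB

variable {R : Type*} [CommRing R] [Algebra ℝ R]

/-- **Chunk MA7B** (size M). The flat Gauss curvature: if `∂_kθ = r n_k`, `|n| = 1`, then
`∑_cyc ∂_kθ n·(∂ᵢn × ∂ⱼn) = gauss`. -/
theorem flat_gauss (S : GA R) {θ r ri : R} {n : Fin 3 → R} (hr : r * ri = 1) (hn : dotp n n = 1)
    (hθ : ∀ k, S.D k θ = r * n k) :
    cyc (fun k => S.D k θ) (fun i j => dotp n (crs (fun a => S.D i (n a)) (fun a => S.D j (n a)))) = gauss S θ ri := by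
  have hDD : ∀ i k, S.D i (S.D k θ) = r * S.D i (n k) + n k * S.D i r := by
    intro i k
    rw [hθ k]
    simp only [Derivation.leibniz, smul_eq_mul]
  -- second derivatives `B i k = ∂ᵢ∂_kθ`, symmetric
  have hs : ∀ i k, S.D i (S.D k θ) = S.D k (S.D i θ) := fun i k => S.comm i k θ
  have hn' : ∀ k, n k = ri * S.D k θ := by
    intro k
    rw [hθ k]
    linear_combination -(n k) * hr
  have hD : ∀ i k, S.D i (n k) = ri * (S.D i (S.D k θ) - n k * S.D i r) := by
    intro i k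
    rw [hDD i k]
    linear_combination -(S.D i (n k)) * hr
  -- triple products: the terms with `n` twice vanish
  have ht : ∀ i j, dotp n (crs (fun a => S.D i (n a)) (fun a => S.D j (n a)))
      = ri ^ 3 * (S.D 0 θ * (S.D i (S.D 1 θ) * S.D j (S.D 2 θ) - S.D i (S.D 2 θ) * S.D j (S.D 1 θ))
        + S.D 1 θ * (S.D i (S.D 2 θ) * S.D j (S.D 0 θ) - S.D i (S.D 0 θ) * S.D j (S.D 2 θ))
        + S.D 2 θ * (S.D i (S.D 0 θ) * S.D j (S.D 1 θ) - S.D i (S.D 1 θ) * S.D j (S.D 0 θ))) := by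
    intro i j
    simp only [dotp, crs, hD, Matrix.cons_val_zero, Matrix.cons_val_one, Matrix.cons_val]
    rw [hn' 0, hn' 1, hn' 2]
    ring
  unfold cyc
  simp only [ht]
  unfold gauss
  simp only [hs 1 0, hs 2 0, hs 2 1]
  ring

end Pool.Agent.H44G
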