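import Pool.Agent.Lib.H44G.MA6
import Pool.Agent.Lib.H44G.MA7
import Pool.Agent.Lib.H44G.MA7b

set_option autoImplicit false

namespace Pool.Agent.H44G

open UMB

variable {R : Type*} [CommRing R] [Algebra ℝ R]

/-- **Chunk MA8** (size S). The pointwise identity in the ring. -/
theorem ring_identity {S : GA R} {P Q : Fin 3 → Fin 3 → R} (h : Fr S P Q) {θ y yi r ri : R} {n : Fin 3 → R}
    (hy : y * yi = 1) (hr : r * ri = 1) (hn : dotp n n = 1) (hθ : ∀ k, S.D k θ = r * n k)
    (hu : ∀ a, ∑ k, P k a * S.D k θ = y * n a) :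
    kap2 S θ y yi = 2 * det3 P * (gauss S θ ri - cyc (fun k => S.D k θ) (fun i j =>
      S.D i (dotp n (vec (con S P Q j))) - S.D j (dotp n (vec (con S P Q i))))) := by
  rw [gauss_frame h hy hn hu, ← flat_gauss S hr hn hθ]
  simp only [chern h hn]
  unfold cyc
  ring

end Pool.Agent.H44G
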