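import Pool.Agent.Lib.UMB.S1.Alg

set_option autoImplicit false

/-!
# H44G: moving frames in a ring with three commuting derivations (definitions)
-/

namespace Pool.Agent.H44G

open UMB

variable {R : Type*} [CommRing R] [Algebra ℝ R]

/-- `P i a` is the component `i` of the frame vector `a`, orthonormal; `Q` is the inverse matrix. -/
structure Fr (S : GA R) (P Q : Fin 3 → Fin 3 → R) : Prop where
  PP : ∀ i j, ∑ a, P i a * P j a = S.G i j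
  QP : ∀ a b, ∑ i, Q a i * P i b = if a = b then 1 else 0
  PQ : ∀ i j, ∑ a, P i a * Q a j = if i = j then 1 else 0

/-- The connection form of the frame: `∇_i e_b = ∑ a, con i a b e_a`. -/
noncomputable def con (S : GA R) (P Q : Fin 3 → Fin 3 → R) (i a b : Fin 3) : R :=
  ∑ k, Q a k * (S.D i (P k b) + ∑ l, S.Ga k i l * P l b)

/-- The curvature form of the frame. -/
noncomputable def cur (S : GA R) (P Q : Fin 3 → Fin 3 → R) (i j a b : Fin 3) : R :=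
  S.D i (con S P Q j a b) - S.D j (con S P Q i a b)
    + ∑ c, (con S P Q i a c * con S P Q j c b - con S P Q j a c * con S P Q i c b)

/-- The curvature tensor in coordinates. -/
noncomputable def rie (S : GA R) (i j k l : Fin 3) : R :=
  S.D i (S.Ga k j l) - S.D j (S.Ga k i l) + ∑ m, (S.Ga k i m * S.Ga m j l - S.Ga k j m * S.Ga m i l)

/-- Frame components of the gradient. -/
noncomputable def uu (S : GA R) (P : Fin 3 → Fin 3 → R) (θ : R) (a : Fin 3) : R := ∑ k, P k a * S.D k θ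

/-- Second index of the Hessian in the frame. -/
noncomputable def hf (S : GA R) (P : Fin 3 → Fin 3 → R) (θ : R) (i a : Fin 3) : R := ∑ k, P k a * S.hs θ i k

/-- Vector product. -/
def crs (v w : Fin 3 → R) : Fin 3 → R := ![v 1 * w 2 - v 2 * w 1, v 2 * w 0 - v 0 * w 2, v 0 * w 1 - v 1 * w 0]

/-- Scalar product. -/
def dotp (v w : Fin 3 → R) : R := v 0 * w 0 + v 1 * w 1 + v 2 * w 2

/-- The vector of an antisymmetric matrix `M` (`M v = vec M × v`). -/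
def vec (M : Fin 3 → Fin 3 → R) : Fin 3 → R := ![M 2 1, M 0 2, M 1 0]

/-- The cyclic sum `∑ p_k X i j` over `(i, j, k) = (0,1,2), (1,2,0), (2,0,1)`. -/
def cyc (p : Fin 3 → R) (X : Fin 3 → Fin 3 → R) : R := p 2 * X 0 1 + p 0 * X 1 2 + p 1 * X 2 0

/-- The determinant of a `3 × 3` matrix. -/
def det3 (P : Fin 3 → Fin 3 → R) : R :=
  P 0 0 * P 1 1 * P 2 2 - P 0 0 * P 1 2 * P 2 1 - P 0 1 * P 1 0 * P 2 2 + P 0 1 * P 1 2 * P 2 0
    + P 0 2 * P 1 0 * P 2 1 - P 0 2 * P 1 1 * P 2 0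

/-- `K |∇θ|`, with `y = |∇θ|` and `yi = 1/y`, multiplied by two. -/
noncomputable def kap2 (S : GA R) (θ y yi : R) : R :=
  y * S.scal - 2 * yi * S.ricg θ - yi * (S.hsq θ - S.lap θ ^ 2) + 2 * yi ^ 3 * (S.hgq θ - S.lap θ * S.hgg θ)

/-- `adj(D²θ)(∇θ, ∇θ) / |∇θ|³` for the flat metric (`ri = 1/|∇θ|`). -/
def gauss (S : GA R) (θ ri : R) : R :=
  (S.D 0 θ * S.D 0 θ * (S.D 1 (S.D 1 θ) * S.D 2 (S.D 2 θ) - S.D 1 (S.D 2 θ) ^ 2)
    + S.D 1 θ * S.D 1 θ * (S.D 0 (S.D 0 θ) * S.D 2 (S.D 2 θ) - S.D 0 (S.D 2 θ) ^ 2)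
    + S.D 2 θ * S.D 2 θ * (S.D 0 (S.D 0 θ) * S.D 1 (S.D 1 θ) - S.D 0 (S.D 1 θ) ^ 2)
    + 2 * (S.D 0 θ * S.D 1 θ * (S.D 0 (S.D 2 θ) * S.D 1 (S.D 2 θ) - S.D 0 (S.D 1 θ) * S.D 2 (S.D 2 θ))
      + S.D 0 θ * S.D 2 θ * (S.D 0 (S.D 1 θ) * S.D 1 (S.D 2 θ) - S.D 0 (S.D 2 θ) * S.D 1 (S.D 1 θ))
      + S.D 1 θ * S.D 2 θ * (S.D 0 (S.D 1 θ) * S.D 0 (S.D 2 θ) - S.D 1 (S.D 2 θ) * S.D 0 (S.D 0 θ)))) * ri ^ 3

end Pool.Agent.H44G
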