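import Mathlib

set_option autoImplicit false

open Filter Topology Set

namespace Pool.Agent.H44G

/-- The upper triangular Cholesky factor: `G = P Pᵀ`. -/
noncomputable def chol (G : Matrix (Fin 3) (Fin 3) ℝ) : Matrix (Fin 3) (Fin 3) ℝ :=
  let p22 := Real.sqrt (G 2 2)
  let p12 := G 1 2 / p22
  let p02 := G 0 2 / p22
  let p11 := Real.sqrt (G 1 1 - p12 ^ 2)
  let p01 := (G 0 1 - p02 * p12) / p11
  let p00 := Real.sqrt (G 0 0 - p01 ^ 2 - p02 ^ 2)
  !![p00, p01, p02; 0, p11, p12; 0, 0, p22]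

/-- The quadratic form of `G` is positive. -/
def QPos (G : Matrix (Fin 3) (Fin 3) ℝ) : Prop := ∀ v : Fin 3 → ℝ, v ≠ 0 → 0 < ∑ i, ∑ j, G i j * v i * v j

/-- **Chunk MCHOL1** (size M). The three radicands are positive.

Proof. `G 2 2 > 0`: test vector `e₂`. `G 1 1 - (G 1 2)²/G 2 2 > 0`: test vector `(0, G 2 2, - G 1 2)`, whose value (with
symmetry) is `G 2 2 (G 1 1 G 2 2 - (G 1 2)²)`. Third: let `M = G 1 1 G 2 2 - (G 1 2)² > 0`; the test vector
`(M, G 0 2 G 1 2 - G 0 1 G 2 2, G 0 1 G 1 2 - G 0 2 G 1 1)` (first column of the adjugate) has value `M det G`, so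
`det G > 0`, and the radicand is `det G / M` (with `p01 = (G 0 1 - G 0 2 G 1 2 / G 2 2) / p11`, `p11² = M / G 2 2`). -/
theorem chol_pos {G : Matrix (Fin 3) (Fin 3) ℝ} (hs : G.IsSymm) (hG : QPos G) :
    0 < G 2 2 ∧ 0 < G 1 1 - (G 1 2 / Real.sqrt (G 2 2)) ^ 2 ∧
    0 < G 0 0 - ((G 0 1 - G 0 2 / Real.sqrt (G 2 2) * (G 1 2 / Real.sqrt (G 2 2))) /
        Real.sqrt (G 1 1 - (G 1 2 / Real.sqrt (G 2 2)) ^ 2)) ^ 2 - (G 0 2 / Real.sqrt (G 2 2)) ^ 2 := by
  have s1 : G 1 0 = G 0 1 := hs.apply 0 1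
  have s2 : G 2 0 = G 0 2 := hs.apply 0 2
  have s3 : G 2 1 = G 1 2 := hs.apply 1 2
  have hc : 0 < G 2 2 := by
    have h := hG (![0, 0, 1]) (by
      intro h
      have := congrFun h 2
      simp at this)
    simp only [Fin.sum_univ_three] at h
    simpa using h
  have hM : 0 < G 1 1 * G 2 2 - G 1 2 ^ 2 := by
    have h := hG (![0, G 2 2, - G 1 2]) (by
      intro h
      have := congrFun h 1
      simp at this
      linarith)
    simp only [Fin.sum_univ_three] at h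
    simp [s3] at h
    have h2 : 0 < G 2 2 * (G 1 1 * G 2 2 - G 1 2 ^ 2) := by nlinarith
    exact (mul_pos_iff_of_pos_left hc).1 h2
  set M := G 1 1 * G 2 2 - G 1 2 ^ 2 with hMdef
  set dt := G 0 0 * M - G 0 1 ^ 2 * G 2 2 + 2 * G 0 1 * G 0 2 * G 1 2 - G 0 2 ^ 2 * G 1 1 with hdt
  have hdet : 0 < dt := by
    have h := hG (![M, G 0 2 * G 1 2 - G 0 1 * G 2 2, G 0 1 * G 1 2 - G 0 2 * G 1 1]) (by
      intro h
      have := congrFun h 0
      simp at this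
      linarith)
    simp only [Fin.sum_univ_three] at h
    simp [s1, s2, s3] at h
    have h2 : 0 < M * dt := by
      refine lt_of_lt_of_eq h ?_
      rw [hdt, hMdef]
      ring
    exact (mul_pos_iff_of_pos_left hM).1 h2
  have hsc := Real.sq_sqrt hc.le
  have e1 : (G 1 2 / Real.sqrt (G 2 2)) ^ 2 = G 1 2 ^ 2 / G 2 2 := by rw [div_pow, hsc]
  have e2 : G 0 2 / Real.sqrt (G 2 2) * (G 1 2 / Real.sqrt (G 2 2)) = G 0 2 * G 1 2 / G 2 2 := by
    rw [div_mul_div_comm, ← sq, hsc]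
  have e3 : (G 0 2 / Real.sqrt (G 2 2)) ^ 2 = G 0 2 ^ 2 / G 2 2 := by rw [div_pow, hsc]
  have e4 : G 1 1 - G 1 2 ^ 2 / G 2 2 = M / G 2 2 := by
    rw [hMdef]
    field_simp
  rw [e1, e2, e3, e4]
  refine ⟨hc, div_pos hM hc, ?_⟩
  rw [div_pow, Real.sq_sqrt (div_pos hM hc).le]
  have e5 : G 0 0 - (G 0 1 - G 0 2 * G 1 2 / G 2 2) ^ 2 / (M / G 2 2) - G 0 2 ^ 2 / G 2 2 = dt / M := by
    have hM' : M ≠ 0 := hM.ne'
    have hc' : G 2 2 ≠ 0 := hc.ne'
    rw [hdt]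
    field_simp
    rw [hMdef]
    ring
  rw [e5]
  exact div_pos hdet hM

/-- **Chunk MCHOL1** continued. `P Pᵀ = G`, and the diagonal is positive.

Proof. `Real.sqrt a ^ 2 = a` for the three radicands of `chol_pos`; entrywise (`Matrix.ext`, `fin_cases`), with `field_simp`. -/
theorem chol_mul {G : Matrix (Fin 3) (Fin 3) ℝ} (hs : G.IsSymm) (hG : QPos G) :
    (∀ i j, ∑ a, chol G i a * chol G j a = G i j) ∧ (∀ i, 0 < chol G i i) ∧
      chol G 1 0 = 0 ∧ chol G 2 0 = 0 ∧ chol G 2 1 = 0 := by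
  obtain ⟨h1, h2, h3⟩ := chol_pos hs hG
  have s1 : G 1 0 = G 0 1 := hs.apply 0 1
  have s2 : G 2 0 = G 0 2 := hs.apply 0 2
  have s3 : G 2 1 = G 1 2 := hs.apply 1 2
  set p22 := Real.sqrt (G 2 2) with hp22
  set p12 := G 1 2 / p22 with hp12
  set p02 := G 0 2 / p22 with hp02
  set p11 := Real.sqrt (G 1 1 - p12 ^ 2) with hp11
  set p01 := (G 0 1 - p02 * p12) / p11 with hp01
  set p00 := Real.sqrt (G 0 0 - p01 ^ 2 - p02 ^ 2) with hp00
  have hP : chol G = !![p00, p01, p02; 0, p11, p12; 0, 0, p22] := rfl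
  have q22 : p22 ^ 2 = G 2 2 := Real.sq_sqrt h1.le
  have q11 : p11 ^ 2 = G 1 1 - p12 ^ 2 := Real.sq_sqrt h2.le
  have q00 : p00 ^ 2 = G 0 0 - p01 ^ 2 - p02 ^ 2 := Real.sq_sqrt h3.le
  have k22 : 0 < p22 := Real.sqrt_pos.2 h1
  have k11 : 0 < p11 := Real.sqrt_pos.2 h2
  have k00 : 0 < p00 := Real.sqrt_pos.2 h3
  have r12 : p12 * p22 = G 1 2 := div_mul_cancel₀ _ k22.ne'
  have r02 : p02 * p22 = G 0 2 := div_mul_cancel₀ _ k22.ne'
  have r01 : p01 * p11 = G 0 1 - p02 * p12 := div_mul_cancel₀ _ k11.ne'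
  refine ⟨fun i j => ?_, fun i => ?_, ?_, ?_, ?_⟩
  · rw [hP, Fin.sum_univ_three]
    fin_cases i <;> fin_cases j
    · simp; linarith
    · simp; linarith
    · simp; linarith
    · simp [s1]; linarith
    · simp; linarith
    · simp; linarith
    · simp [s2]; linarith
    · simp [s3]; linarith
    · simp; linarith
  · rw [hP]
    fin_cases i
    · simpa using k00
    · simpa using k11
    · simpa using k22
  · rw [hP]; simp
  · rw [hP]; simp
  · rw [hP]; simp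

end Pool.Agent.H44G
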