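import Pool.Agent.Lib.H44G.MChol
import Pool.Agent.Lib.PenroseSph.Defs

set_option autoImplicit false

open Filter Topology Set
open scoped ContDiff

namespace Pool.Agent.H44G

open Pool.Agent.Lib.PenroseSph (E3 Tens)

/-- **Chunk MCHOL2** (size M). The Cholesky factor of a smooth field is smooth.

Proof. Entry by entry, in the order `p22, p12, p02, p11, p01, p00`: `ContDiffOn.sqrt` (radicands nonzero by `chol_pos`),
`ContDiffOn.div`, `ContDiffOn.sub`, `ContDiffOn.pow`. -/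
theorem chol_smooth {G : Tens} {U : Set E3} (hG : ∀ i j, ContDiffOn ℝ ∞ (fun x => G x i j) U)
    (hs : ∀ x ∈ U, (G x).IsSymm) (hp : ∀ x ∈ U, QPos (G x)) (i j : Fin 3) :
    ContDiffOn ℝ ∞ (fun x => chol (G x) i j) U := by
  have hpos := fun x hx => chol_pos (hs x hx) (hp x hx)
  have k22 : ContDiffOn ℝ ∞ (fun x => Real.sqrt (G x 2 2)) U :=
    (hG 2 2).sqrt fun x hx => (hpos x hx).1.ne'
  have n22 : ∀ x ∈ U, Real.sqrt (G x 2 2) ≠ 0 := fun x hx => (Real.sqrt_pos.2 (hpos x hx).1).ne'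
  have k12 : ContDiffOn ℝ ∞ (fun x => G x 1 2 / Real.sqrt (G x 2 2)) U := (hG 1 2).div k22 n22
  have k02 : ContDiffOn ℝ ∞ (fun x => G x 0 2 / Real.sqrt (G x 2 2)) U := (hG 0 2).div k22 n22
  have k11 : ContDiffOn ℝ ∞ (fun x => Real.sqrt (G x 1 1 - (G x 1 2 / Real.sqrt (G x 2 2)) ^ 2)) U :=
    ((hG 1 1).sub (k12.pow 2)).sqrt fun x hx => (hpos x hx).2.1.ne'
  have n11 : ∀ x ∈ U, Real.sqrt (G x 1 1 - (G x 1 2 / Real.sqrt (G x 2 2)) ^ 2) ≠ 0 :=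
    fun x hx => (Real.sqrt_pos.2 (hpos x hx).2.1).ne'
  have k01 : ContDiffOn ℝ ∞ (fun x => (G x 0 1 - G x 0 2 / Real.sqrt (G x 2 2) *
      (G x 1 2 / Real.sqrt (G x 2 2))) / Real.sqrt (G x 1 1 - (G x 1 2 / Real.sqrt (G x 2 2)) ^ 2)) U :=
    ((hG 0 1).sub (k02.mul k12)).div k11 n11
  have k00 : ContDiffOn ℝ ∞ (fun x => Real.sqrt (G x 0 0 - ((G x 0 1 - G x 0 2 / Real.sqrt (G x 2 2) *
      (G x 1 2 / Real.sqrt (G x 2 2))) / Real.sqrt (G x 1 1 - (G x 1 2 / Real.sqrt (G x 2 2)) ^ 2)) ^ 2 -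
      (G x 0 2 / Real.sqrt (G x 2 2)) ^ 2)) U :=
    (((hG 0 0).sub (k01.pow 2)).sub (k02.pow 2)).sqrt fun x hx => (hpos x hx).2.2.ne'
  have z : ContDiffOn ℝ ∞ (fun _ : E3 => (0 : ℝ)) U := contDiffOn_const
  unfold chol
  fin_cases i <;> fin_cases j
  · exact k00
  · exact k01
  · exact k02
  · exact z
  · exact k11
  · exact k12
  · exact z
  · exact z
  · exact k22

end Pool.Agent.H44G
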