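import Pool.Agent.Lib.H44G.MFrame

set_option autoImplicit false

open Filter Topology Set MeasureTheory
open scoped ContDiff

namespace Pool.Agent.H44G

open Pool.Agent.Lib.PenroseSph (E3 Tens pd)
open UMB (MetOn gsq yreg)

theorem mfr1_pd_ne {θ : E3 → ℝ} {x : E3} (h : fderiv ℝ θ x ≠ 0) : (fun i => pd i θ x) ≠ 0 := by
  intro h0
  apply h
  have h1 : ∀ i, fderiv ℝ θ x (EuclideanSpace.single i 1) = 0 := fun i => congrFun h0 i
  have h2 : (fderiv ℝ θ x : E3 →ₗ[ℝ] ℝ) = 0 := by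
    refine (EuclideanSpace.basisFun (Fin 3) ℝ).toBasis.ext fun i => ?_
    rw [OrthonormalBasis.coe_toBasis, EuclideanSpace.basisFun_apply]
    exact h1 i
  ext v
  exact LinearMap.congr_fun h2 v

/-- **Chunk MFR1** (size M). The quadratic form of the inverse metric is positive. (`(hg.posDef hx).inv`,
`Matrix.PosDef.dotProduct_mulVec_pos` or `Matrix.PosDef.2`; compare the proof of `MetOn.gsq_nonneg` in `UMB/S1/Eval.lean`.) -/
theorem qpos_inv {g : Tens} {U : Set E3} (hg : MetOn g U) {x : E3} (hx : x ∈ U) : QPos ((g x)⁻¹) := by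
  intro v hv
  have h1 := (hg.posDef hx).inv.dotProduct_mulVec_pos hv
  have e : star v ⬝ᵥ ((g x)⁻¹).mulVec v = ∑ i, ∑ j, (g x)⁻¹ i j * v i * v j := by
    simp only [dotProduct, Matrix.mulVec, Pi.star_apply, star_trivial, Finset.mul_sum]
    refine Finset.sum_congr rfl fun i _ => Finset.sum_congr rfl fun j _ => ?_
    ring
  rw [e] at h1
  exact h1

/-- **Chunk MFR1** continued. The two lengths of the differential are positive and smooth.

Proof. `∑ i, pd i θ x ^ 2 > 0` because `fderiv ℝ θ x ≠ 0` (if all `pd i θ x = 0`, the linear map vanishes on the standard basis;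
`(EuclideanSpace.basisFun _ _).toBasis.ext`, or write `v = ∑ v i • single i 1`). `yreg g θ 0 x = √(gsq g θ x + 0)`,
`gsq g θ x = ∑ a, pd a θ x * ∑ j, (g x)⁻¹ a j * pd j θ x > 0` by `qpos_inv`. Smoothness: `ContDiffOn.sqrt` (radicand `≠ 0`),
`UMB.smooth_pd`, `MetOn.gsq_smooth`. -/
theorem norms_pos {g : Tens} {θ : E3 → ℝ} {U : Set E3} (hg : MetOn g U)
    (hθ : ContDiffOn ℝ ∞ θ U) (hc : ∀ x ∈ U, fderiv ℝ θ x ≠ 0) :
    (∀ x ∈ U, 0 < eNorm θ x ∧ 0 < yreg g θ 0 x) ∧ ContDiffOn ℝ ∞ (eNorm θ) U ∧ ContDiffOn ℝ ∞ (yreg g θ 0) U := by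
  have hE : ∀ x ∈ U, 0 < ∑ i, pd i θ x ^ 2 := by
    intro x hx
    have h1 := mfr1_pd_ne (hc x hx)
    obtain ⟨i, hi⟩ := Function.ne_iff.1 h1
    have hi' : pd i θ x ≠ 0 := hi
    exact Finset.sum_pos' (fun j _ => sq_nonneg _) ⟨i, Finset.mem_univ i, by positivity⟩
  have hG : ∀ x ∈ U, 0 < gsq g θ x := by
    intro x hx
    have h1 := qpos_inv hg hx (fun i => pd i θ x) (mfr1_pd_ne (hc x hx))
    have e : gsq g θ x = ∑ i, ∑ j, (g x)⁻¹ i j * pd i θ x * pd j θ x := by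
      unfold gsq UMB.gradU
      simp only [Finset.mul_sum]
      refine Finset.sum_congr rfl fun i _ => Finset.sum_congr rfl fun j _ => ?_
      ring
    rw [e]
    exact h1
  refine ⟨fun x hx => ⟨Real.sqrt_pos.2 (hE x hx), ?_⟩, ?_, ?_⟩
  · unfold yreg
    rw [add_zero]
    exact Real.sqrt_pos.2 (hG x hx)
  · unfold eNorm
    refine ContDiffOn.sqrt ?_ fun x hx => (hE x hx).ne'
    exact ContDiffOn.sum fun i _ => (UMB.smooth_pd hg.isOpen hθ i).pow 2
  · unfold yreg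
    refine ContDiffOn.sqrt ((hg.gsq_smooth hθ).add contDiffOn_const) fun x hx => ?_
    rw [add_zero]
    exact (hG x hx).ne'

end Pool.Agent.H44G
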