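import Mathlib

set_option autoImplicit false

open Filter Topology Set

namespace Pool.Agent.H44G

/-- **Chunk MROT2** (size S/M). If `P` is upper triangular with positive diagonal then `Pᵀ p` is never a nonpositive multiple of
`p ≠ 0`; so the directions of `p` and `Pᵀ p` are not opposite.

Proof. `(Pᵀ p)₀ = P₀₀ p₀`, `(Pᵀ p)₁ = P₀₁ p₀ + P₁₁ p₁`, `(Pᵀ p)₂ = P₀₂ p₀ + P₁₂ p₁ + P₂₂ p₂`. Let `m = p/r`, `n = q/y`
with `q = Pᵀ p`. If `1 + m·n = 0` then `|m + n|² = 2 + 2 m·n = 0`, so `n = -m`, `q = -(y/r) p`. Case `p₀ ≠ 0`: then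
`P₀₀ = -y/r < 0`, impossible. Case `p₀ = 0`, `p₁ ≠ 0`: `P₁₁ = -y/r`. Case `p₀ = p₁ = 0`: `p₂ ≠ 0` and `P₂₂ = -y/r`. -/
theorem tri_not_opposite {P : Matrix (Fin 3) (Fin 3) ℝ} (hd : ∀ i, 0 < P i i) (h10 : P 1 0 = 0) (h20 : P 2 0 = 0)
    (h21 : P 2 1 = 0) {p : Fin 3 → ℝ} {r y : ℝ} (hr : 0 < r) (hy : 0 < y) (hpr : ∑ i, p i ^ 2 = r ^ 2)
    (hqy : ∑ a, (∑ k, P k a * p k) ^ 2 = y ^ 2) :
    1 + ∑ a, p a / r * ((∑ k, P k a * p k) / y) ≠ 0 := by
  intro hc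
  simp only [Fin.sum_univ_three] at hpr hqy hc
  rw [h10, h20, h21] at hqy hc
  set q0 := P 0 0 * p 0 + 0 * p 1 + 0 * p 2 with hq0
  set q1 := P 0 1 * p 0 + P 1 1 * p 1 + 0 * p 2 with hq1
  set q2 := P 0 2 * p 0 + P 1 2 * p 1 + P 2 2 * p 2 with hq2
  have h1 : p 0 * q0 + p 1 * q1 + p 2 * q2 = -(r * y) := by
    have h2 : (1 + (p 0 / r * (q0 / y) + p 1 / r * (q1 / y) + p 2 / r * (q2 / y))) * (r * y) = 0 := by
      rw [hc, zero_mul]
    field_simp at h2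
    linarith
  have h3 : (q0 * r + y * p 0) ^ 2 + (q1 * r + y * p 1) ^ 2 + (q2 * r + y * p 2) ^ 2 = 0 := by
    linear_combination r ^ 2 * hqy + y ^ 2 * hpr + 2 * r * y * h1
  have s0 := sq_nonneg (q0 * r + y * p 0)
  have s1 := sq_nonneg (q1 * r + y * p 1)
  have s2 := sq_nonneg (q2 * r + y * p 2)
  have e0 : q0 * r + y * p 0 = 0 := pow_eq_zero_iff two_ne_zero |>.1 (by linarith)
  have e1 : q1 * r + y * p 1 = 0 := pow_eq_zero_iff two_ne_zero |>.1 (by linarith)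
  have e2 : q2 * r + y * p 2 = 0 := pow_eq_zero_iff two_ne_zero |>.1 (by linarith)
  have hp0 : p 0 = 0 := by
    have h4 : p 0 * (P 0 0 * r + y) = 0 := by
      rw [hq0] at e0
      linear_combination e0
    have h5 : 0 < P 0 0 * r + y := by have := hd 0; positivity
    exact (mul_eq_zero.1 h4).resolve_right h5.ne'
  have hp1 : p 1 = 0 := by
    have h4 : p 1 * (P 1 1 * r + y) = 0 := by
      rw [hq1, hp0] at e1
      linear_combination e1
    have h5 : 0 < P 1 1 * r + y := by have := hd 1; positivity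
    exact (mul_eq_zero.1 h4).resolve_right h5.ne'
  have hp2 : p 2 = 0 := by
    have h4 : p 2 * (P 2 2 * r + y) = 0 := by
      rw [hq2, hp0, hp1] at e2
      linear_combination e2
    have h5 : 0 < P 2 2 * r + y := by have := hd 2; positivity
    exact (mul_eq_zero.1 h4).resolve_right h5.ne'
  rw [hp0, hp1, hp2] at hpr
  have := pow_pos hr 2
  linarith

end Pool.Agent.H44G
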