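import Pool.Agent.Lib.H44G.MFR1
import Pool.Agent.Lib.H44G.MRot2

set_option autoImplicit false

open Filter Topology Set MeasureTheory
open scoped ContDiff

namespace Pool.Agent.H44G

open Pool.Agent.Lib.PenroseSph (E3 Tens pd)
open UMB (MetOn gsq yreg)

theorem mfr2_norms {g : Tens} {θ : E3 → ℝ} {U : Set E3} (hg : MetOn g U) {x : E3} (hx : x ∈ U) :
    ∑ i, pd i θ x ^ 2 = eNorm θ x ^ 2 ∧
      ∑ a, (∑ k, chol ((g x)⁻¹) k a * pd k θ x) ^ 2 = yreg g θ 0 x ^ 2 := by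
  constructor
  · unfold eNorm
    rw [Real.sq_sqrt (Finset.sum_nonneg fun _ _ => sq_nonneg _)]
  · have hsym : ((g x)⁻¹).IsSymm := by
      ext i j
      exact hg.inv_symm hx j i
    have hC := (chol_mul hsym (qpos_inv hg hx)).1
    unfold yreg
    have hg0 := hg.gsq_nonneg (u := θ) hx
    rw [add_zero, Real.sq_sqrt hg0]
    unfold gsq UMB.gradU
    have e1 : ∀ a, (∑ k, chol ((g x)⁻¹) k a * pd k θ x) ^ 2 =
        ∑ i, ∑ j, (chol ((g x)⁻¹) i a * chol ((g x)⁻¹) j a) * (pd i θ x * pd j θ x) := by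
      intro a
      rw [sq, Finset.sum_mul]
      refine Finset.sum_congr rfl fun i _ => ?_
      rw [Finset.mul_sum]
      refine Finset.sum_congr rfl fun j _ => ?_
      ring
    simp only [e1]
    rw [Finset.sum_comm]
    refine Finset.sum_congr rfl fun i _ => ?_
    rw [Finset.sum_comm, Finset.mul_sum]
    refine Finset.sum_congr rfl fun j _ => ?_
    rw [← Finset.sum_mul, hC i j]
    ring

/-- **Chunk MFR2** (size M). Properties of `nu` and `nv`.

Proof. `∑ nu² = 1` by definition (`Real.sq_sqrt`). `∑ a (∑ k, P k a p k)² = ∑ i j (P Pᵀ) i j p i p j = gsq = yreg²` (`chol_mul` for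
`G = (g x)⁻¹`, with `qpos_inv` and `MetOn.inv_symm`). `1 + nu · nv ≠ 0`: `tri_not_opposite` with `P = chol (g x)⁻¹`,
`p = fun i => pd i θ x`, `r = eNorm θ x`, `y = yreg g θ 0 x`. -/
theorem nu_nv {g : Tens} {θ : E3 → ℝ} {U : Set E3} (hg : MetOn g U)
    (hθ : ContDiffOn ℝ ∞ θ U) (hc : ∀ x ∈ U, fderiv ℝ θ x ≠ 0) {x : E3} (hx : x ∈ U) :
    ∑ i, nu θ x i ^ 2 = 1 ∧ ∑ i, nv g θ x i ^ 2 = 1 ∧ 1 + ∑ k, nu θ x k * nv g θ x k ≠ 0 := by
  obtain ⟨hr, hy⟩ := (norms_pos hg hθ hc).1 x hx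
  obtain ⟨h1, h2⟩ := mfr2_norms (θ := θ) hg hx
  have hsym : ((g x)⁻¹).IsSymm := by
    ext i j
    exact hg.inv_symm hx j i
  obtain ⟨-, hd, h10, h20, h21⟩ := chol_mul hsym (qpos_inv hg hx)
  refine ⟨?_, ?_, ?_⟩
  · unfold nu
    simp only [div_pow]
    rw [← Finset.sum_div, h1, div_self (pow_pos hr 2).ne']
  · unfold nv
    simp only [div_pow]
    rw [← Finset.sum_div, h2, div_self (pow_pos hy 2).ne']
  · exact tri_not_opposite hd h10 h20 h21 (p := fun i => pd i θ x) hr hy h1 h2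

end Pool.Agent.H44G
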