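import Pool.Agent.Lib.H44G.MFR2

set_option autoImplicit false

open Filter Topology Set MeasureTheory
open scoped ContDiff

namespace Pool.Agent.H44G

open Pool.Agent.Lib.PenroseSph (E3 Tens pd)
open UMB (MetOn gsq yreg)

theorem mfr3_smooth {g : Tens} {θ : E3 → ℝ} {U : Set E3} (hg : MetOn g U)
    (hθ : ContDiffOn ℝ ∞ θ U) (hc : ∀ x ∈ U, fderiv ℝ θ x ≠ 0) (i a : Fin 3) :
    ContDiffOn ℝ ∞ (fun x => frame g θ x i a) U := by
  obtain ⟨hpos, hr, hy⟩ := norms_pos hg hθ hc
  have hC : ∀ i a, ContDiffOn ℝ ∞ (fun x => chol ((g x)⁻¹) i a) U := fun i a =>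
    chol_smooth (G := fun x => (g x)⁻¹) (fun i j => hg.inv_smooth i j) (fun x hx => by
      ext i j
      exact hg.inv_symm hx j i) (fun x hx => qpos_inv hg hx) i a
  have hp : ∀ i, ContDiffOn ℝ ∞ (pd i θ) U := fun i => UMB.smooth_pd hg.isOpen hθ i
  have hnu : ∀ i, ContDiffOn ℝ ∞ (fun x => nu θ x i) U := fun i =>
    (hp i).div hr fun x hx => (hpos x hx).1.ne'
  have hnv : ∀ i, ContDiffOn ℝ ∞ (fun x => nv g θ x i) U := fun i => by
    unfold nv
    refine ContDiffOn.div ?_ hy fun x hx => (hpos x hx).2.ne'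
    exact ContDiffOn.sum fun k _ => (hC k i).mul (hp k)
  have hrot : ∀ b a, ContDiffOn ℝ ∞ (fun x => rot (nu θ x) (nv g θ x) b a) U := fun b a => by
    unfold rot
    refine (contDiffOn_const.sub ?_).add ?_
    · refine ContDiffOn.div (((hnu b).add (hnv b)).mul ((hnu a).add (hnv a))) ?_
        fun x hx => (nu_nv hg hθ hc hx).2.2
      exact contDiffOn_const.add (ContDiffOn.sum fun k _ => (hnu k).mul (hnv k))
    · exact (contDiffOn_const.mul (hnv b)).mul (hnu a)
  unfold frame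
  exact ContDiffOn.sum fun b _ => (hC i b).mul (hrot b a)

/-- **Chunk MFR3** (size M). The rotated frame is smooth, orthonormal, and `frameᵀ ∇θ = |∇θ|_g nu`.

Proof. Smooth: `chol_smooth` for `G = fun x => (g x)⁻¹` (`MetOn.inv_smooth`, `MetOn.inv_symm`, `qpos_inv`), `nu`, `nv` smooth
(`norms_pos`, `UMB.smooth_pd`), `rot` is a rational expression with denominator `1 + nu · nv ≠ 0` (`nu_nv`).
`frame frameᵀ = chol rot rotᵀ cholᵀ = chol cholᵀ = g⁻¹` (`rot_spec`, `chol_mul`). `∑ k, frame k a p k = ∑ b (∑ k, chol k b p k) rot b a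
= yreg ∑ b, nv b rot b a = yreg nu a` (`rot_spec`). Determinant: `det frame = det chol · det rot = chol 0 0 · chol 1 1 · chol 2 2 > 0`
(`Matrix.det_mul`, `Matrix.det_fin_three`). -/
theorem frame_spec {g : Tens} {θ : E3 → ℝ} {U : Set E3} (hg : MetOn g U)
    (hθ : ContDiffOn ℝ ∞ θ U) (hc : ∀ x ∈ U, fderiv ℝ θ x ≠ 0) :
    (∀ i a, ContDiffOn ℝ ∞ (fun x => frame g θ x i a) U) ∧ ∀ x ∈ U,
      (∀ i j, ∑ a, frame g θ x i a * frame g θ x j a = (g x)⁻¹ i j) ∧
      (∀ a, ∑ k, frame g θ x k a * pd k θ x = yreg g θ 0 x * nu θ x a) ∧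
      0 < (Matrix.of (frame g θ x)).det := by
  refine ⟨mfr3_smooth hg hθ hc, fun x hx => ?_⟩
  obtain ⟨hr, hy⟩ := (norms_pos hg hθ hc).1 x hx
  obtain ⟨n1, n2, n3⟩ := nu_nv hg hθ hc hx
  obtain ⟨r1, r2, r3⟩ := rot_spec n1 n2 n3
  have hsym : ((g x)⁻¹).IsSymm := by
    ext i j
    exact hg.inv_symm hx j i
  obtain ⟨hC, hd, h10, h20, h21⟩ := chol_mul hsym (qpos_inv hg hx)
  set C := chol ((g x)⁻¹) with hCdef
  set r := rot (nu θ x) (nv g θ x) with hrdef
  have hF : ∀ i a, frame g θ x i a = ∑ b, C i b * r b a := fun i a => rfl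
  refine ⟨fun i j => ?_, fun a => ?_, ?_⟩
  · calc ∑ a, frame g θ x i a * frame g θ x j a
        = ∑ a, (∑ b, C i b * r b a) * (∑ c, C j c * r c a) := rfl
      _ = ∑ b, ∑ c, C i b * C j c * ∑ a, r b a * r c a := by
          simp only [Fin.sum_univ_three]
          ring
      _ = ∑ b, ∑ c, C i b * C j c * (if b = c then 1 else 0) := by
          simp only [r1]
      _ = ∑ b, C i b * C j b := by
          simp [Fin.sum_univ_three]
      _ = (g x)⁻¹ i j := hC i j
  · have e1 : ∑ k, frame g θ x k a * pd k θ x = ∑ b, r b a * ∑ k, C k b * pd k θ x := by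
      simp only [hF, Finset.sum_mul, Finset.mul_sum]
      rw [Finset.sum_comm]
      refine Finset.sum_congr rfl fun b _ => Finset.sum_congr rfl fun k _ => ?_
      ring
    have e2 : ∀ b, ∑ k, C k b * pd k θ x = yreg g θ 0 x * nv g θ x b := by
      intro b
      unfold nv
      rw [mul_div_cancel₀ _ hy.ne']
    rw [e1]
    simp only [e2]
    rw [← r2 a, Finset.mul_sum]
    refine Finset.sum_congr rfl fun b _ => ?_
    ring
  · have e1 : Matrix.of (frame g θ x) = C * Matrix.of r := by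
      ext i a
      rw [Matrix.mul_apply]
      rfl
    rw [e1, Matrix.det_mul, r3, mul_one, Matrix.det_fin_three, h10, h20, h21]
    have := mul_pos (mul_pos (hd 0) (hd 1)) (hd 2)
    linarith

end Pool.Agent.H44G
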