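import Mathlib

set_option autoImplicit false

open Filter Topology Set

namespace Pool.Agent.H44G

/-- The rotation which takes the unit vector `m` to the unit vector `n` (`n ≠ -m`) and fixes the vectors orthogonal to both. -/
noncomputable def rot (m n : Fin 3 → ℝ) (i j : Fin 3) : ℝ :=
  (if i = j then 1 else 0) - (m i + n i) * (m j + n j) / (1 + ∑ k, m k * n k) + 2 * n i * m j

theorem mrot_sum (i j : Fin 3) (X Y : Fin 3 → ℝ) :
    ∑ a, ((if i = a then 1 else 0) + X a) * ((if j = a then 1 else 0) + Y a) =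
      (if i = j then 1 else 0) + Y i + X j + ∑ a, X a * Y a := by
  have e : ∀ a, ((if i = a then (1 : ℝ) else 0) + X a) * ((if j = a then 1 else 0) + Y a) =
      (if i = a then (if j = a then 1 else 0) else 0) + (if i = a then Y a else 0) +
        (if j = a then X a else 0) + X a * Y a := by
    intro a
    split_ifs <;> ring
  simp only [e, Finset.sum_add_distrib, Finset.sum_ite_eq, Finset.mem_univ, if_true]
  simp [eq_comm]

theorem mrot_det (c : ℝ) (w : Fin 3 → ℝ) :
    (Matrix.of fun i j : Fin 3 => (if i = j then (1 : ℝ) else 0) - c * w i * w j).det =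
      1 - c * (w 0 ^ 2 + w 1 ^ 2 + w 2 ^ 2) := by
  rw [Matrix.det_fin_three]
  simp
  ring

/-- **Chunk MROT** (size M). `rot m n` is orthogonal, `(rot m n)ᵀ n = m`, and it has determinant one.

Proof. Write `s = ∑ k, m k * n k`, `1 + s ≠ 0`; all sums over `Fin 3` expanded (`Fin.sum_univ_three`), use `∑ m² = ∑ n² = 1`.
(i) `∑ a, rot i a * rot j a = δ i j`: with `w = m + n`, `|w|² = 2(1+s)`:
`δ - 2 w w/(1+s) + 2 (n m + m n) + |w|² w w/(1+s)² - 2 (w·m)(w n + n w)/(1+s) + 4 n n`, `w·m = 1 + s`, sums to `δ`.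
(ii) `∑ i, rot i j * n i = n j - w j (w·n)/(1+s) + 2 m j = n j - w j + 2 m j = m j`.
(iii) the determinant: by `field_simp` and a polynomial identity modulo the two relations (`linear_combination`), or:
`rot m n = (1 - w wᵀ/(1+s)) (1 - 2 m mᵀ)` (because `(1 - w wᵀ/(1+s)) m = -n`), and both reflections have determinant `-1`
(`Matrix.det_fin_three` for each, or `Matrix.det_one_add_mul_comm`-type lemma). -/
theorem rot_spec {m n : Fin 3 → ℝ} (hm : ∑ i, m i ^ 2 = 1) (hn : ∑ i, n i ^ 2 = 1) (h : 1 + ∑ k, m k * n k ≠ 0) :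
    (∀ i j, ∑ a, rot m n i a * rot m n j a = if i = j then 1 else 0) ∧ (∀ j, ∑ i, rot m n i j * n i = m j) ∧
      (Matrix.of (rot m n)).det = 1 := by
  set s := ∑ k, m k * n k with hs
  obtain ⟨t, ht⟩ : ∃ t : ℝ, t * (1 + s) = 1 := ⟨(1 + s)⁻¹, inv_mul_cancel₀ h⟩
  have ht' : (1 + s)⁻¹ = t := by
    field_simp
    linarith
  have hr : ∀ i j, rot m n i j = (if i = j then 1 else 0) +
      (2 * n i * m j - t * (m i + n i) * (m j + n j)) := by
    intro i j
    unfold rot
    rw [← hs, div_eq_mul_inv, ht']
    ring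
  rw [Fin.sum_univ_three] at hm hn hs
  refine ⟨fun i j => ?_, fun j => ?_, ?_⟩
  · simp only [hr]
    rw [mrot_sum i j (fun a => 2 * n i * m a - t * (m i + n i) * (m a + n a))
      (fun a => 2 * n j * m a - t * (m j + n j) * (m a + n a))]
    rw [Fin.sum_univ_three]
    rw [hs] at ht
    linear_combination (t ^ 2 * (m i + n i) * (m j + n j) - 2 * t * ((m i + n i) * n j + n i * (m j + n j))
      + 4 * n i * n j) * hm + (t ^ 2 * (m i + n i) * (m j + n j)) * hn +
      (2 * t * (m i + n i) * (m j + n j) - 2 * ((m i + n i) * n j + n i * (m j + n j))) * ht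
  · have e : ∑ i, rot m n i j * n i =
        n j + ∑ i, (2 * n i * m j - t * (m i + n i) * (m j + n j)) * n i := by
      have e1 : ∀ i, rot m n i j * n i = (if i = j then n i else 0) +
          (2 * n i * m j - t * (m i + n i) * (m j + n j)) * n i := by
        intro i
        rw [hr]
        split_ifs <;> ring
      simp only [e1, Finset.sum_add_distrib]
      simp
    rw [e, Fin.sum_univ_three]
    rw [hs] at ht
    linear_combination (2 * m j - t * (m j + n j)) * hn - (m j + n j) * ht
  · have e1 : Matrix.of (rot m n) =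
        (Matrix.of fun i j : Fin 3 => (if i = j then (1 : ℝ) else 0) - t * (m i + n i) * (m j + n j)) *
        (Matrix.of fun i j : Fin 3 => (if i = j then (1 : ℝ) else 0) - 2 * m i * m j) := by
      ext i j
      rw [Matrix.mul_apply]
      simp only [Matrix.of_apply, hr]
      have e2 : ∑ a, ((if i = a then (1 : ℝ) else 0) - t * (m i + n i) * (m a + n a)) *
          ((if a = j then 1 else 0) - 2 * m a * m j) =
          ∑ a, ((if i = a then (1 : ℝ) else 0) + (- (t * (m i + n i) * (m a + n a)))) *
          ((if j = a then 1 else 0) + (- (2 * m a * m j))) := by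
        refine Finset.sum_congr rfl fun a _ => ?_
        simp only [eq_comm (a := a) (b := j)]
        ring
      rw [e2, mrot_sum i j (fun a => - (t * (m i + n i) * (m a + n a))) (fun a => - (2 * m a * m j)),
        Fin.sum_univ_three]
      rw [hs] at ht
      linear_combination (- (2 * t * (m i + n i) * m j)) * hm - (2 * (m i + n i) * m j) * ht
    have hs' := ht
    rw [hs] at hs'
    rw [e1, Matrix.det_mul, mrot_det t (fun i => m i + n i), mrot_det 2 m]
    have e3 : 1 - t * ((m 0 + n 0) ^ 2 + (m 1 + n 1) ^ 2 + (m 2 + n 2) ^ 2) = -1 := by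
      linear_combination (-t) * hm + (-t) * hn - 2 * hs'
    have e4 : 1 - 2 * (m 0 ^ 2 + m 1 ^ 2 + m 2 ^ 2) = -1 := by
      linear_combination (-2) * hm
    rw [e3, e4]
    norm_num

end Pool.Agent.H44G
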