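import Pool.Agent.Lib.H44G.MCholS
import Pool.Agent.Lib.UMB.S1.Dens
import Pool.Agent.Lib.H44G.MRot

set_option autoImplicit false

open Filter Topology Set MeasureTheory
open scoped ContDiff

namespace Pool.Agent.H44G

open Pool.Agent.Lib.PenroseSph (E3 Tens pd)
open UMB (MetOn gsq yreg)

/-- Euclidean length of the differential. -/
noncomputable def eNorm (θ : E3 → ℝ) (x : E3) : ℝ := Real.sqrt (∑ i, pd i θ x ^ 2)

/-- Euclidean unit normal of the level set. -/
noncomputable def nu (θ : E3 → ℝ) (x : E3) (i : Fin 3) : ℝ := pd i θ x / eNorm θ x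

/-- The unit normal in the Cholesky frame. -/
noncomputable def nv (g : Tens) (θ : E3 → ℝ) (x : E3) (a : Fin 3) : ℝ :=
  (∑ k, chol ((g x)⁻¹) k a * pd k θ x) / yreg g θ 0 x

/-- The rotated frame. -/
noncomputable def frame (g : Tens) (θ : E3 → ℝ) (x : E3) (i a : Fin 3) : ℝ :=
  ∑ b, chol ((g x)⁻¹) i b * rot (nu θ x) (nv g θ x) b a

end Pool.Agent.H44G
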