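import Pool.Agent.Lib.H44G.Defs

set_option autoImplicit false

open Filter Topology Set MeasureTheory
open scoped ContDiff

namespace Pool.Agent.H44G

open Pool.Agent.Lib.PenroseSph (E3 Tens pd)

/-- The regular values between `c` and `d`. -/
def reg (θ : E3 → ℝ) (c d R : ℝ) : Set ℝ := Ioo c d \ critVals θ R

/-- The points of the shell at which `θ` has a regular value. -/
def regSet (θ : E3 → ℝ) (c d R : ℝ) : Set E3 := {x | x ∈ shell R ∧ θ x ∈ reg θ c d R}

/-- `∇θ · curl z`. -/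
noncomputable def curlT (θ : E3 → ℝ) (z : Fin 3 → E3 → ℝ) (x : E3) : ℝ :=
  pd 2 θ x * (pd 0 (z 1) x - pd 1 (z 0) x) + pd 0 θ x * (pd 1 (z 2) x - pd 2 (z 1) x)
    + pd 1 θ x * (pd 2 (z 0) x - pd 0 (z 2) x)

end Pool.Agent.H44G
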