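import Pool.Agent.Lib.H44G.MAlg
import Pool.Agent.Lib.H44G.MFrame
import Pool.Agent.Lib.H44G.ZDefs
import Pool.Agent.Lib.UMB.S1.Dens

set_option autoImplicit false

open Filter Topology Set MeasureTheory
open scoped ContDiff

namespace Pool.Agent.H44G

open Pool.Agent.Lib.PenroseSph (E3 Tens pd)
open UMB (MetOn gsq yreg GA SmR rest extU)

/-- **Chunk MVAL2** (size M). The curl term and the determinant (`UMB.val_D`, `UMB.val_Du`; `Matrix.det_fin_three`). -/
theorem val_cyc {g : Tens} {U : Set E3} (h : MetOn g U) {θ : E3 → ℝ} (hθ : ContDiffOn ℝ ∞ θ U) (z : Fin 3 → SmR U)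
    (x : U) :
    (cyc (fun k => h.ga.D k (rest θ hθ)) (fun i j => h.ga.D i (z j) - h.ga.D j (z i))).1 x
      = curlT θ (fun i => extU U (z i).1) x := by
  have hz : ∀ i j, (h.ga.D i (z j)).1 x = pd i (extU U (z j).1) x := fun i j =>
    UMB.val_D h i (z j) _ (fun y => (UMB.extU_of _ y.2).symm) x
  unfold cyc curlT
  simp only [UMB.val_add, UMB.val_sub, UMB.val_mul, UMB.val_Du, hz]

theorem val_det3 {U : Set E3} (P : Fin 3 → Fin 3 → SmR U) (F : Matrix (Fin 3) (Fin 3) ℝ) (x : U)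
    (hF : ∀ i a, (P i a).1 x = F i a) : (det3 P).1 x = F.det := by
  unfold det3
  rw [Matrix.det_fin_three]
  simp only [UMB.val_add, UMB.val_sub, UMB.val_mul, hF]

/-- **Chunk MVAL2** (size M). `det F · √(det g) = 1` if `F Fᵀ = g⁻¹`, `det F > 0` (`det (g⁻¹) = (det g)⁻¹`, `MetOn.det_pos`). -/
theorem det_vol {g : Tens} {U : Set E3} (h : MetOn g U) {x : E3} (hx : x ∈ U) (F : Fin 3 → Fin 3 → ℝ)
    (hF : ∀ i j, ∑ a, F i a * F j a = (g x)⁻¹ i j) (hd : 0 < (Matrix.of F).det) :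
    (Matrix.of F).det * UMB.vol g x = 1 := by
  have hg : 0 < (g x).det := (h.posDef hx).det_pos
  have h1 : Matrix.of F * (Matrix.of F).transpose = (g x)⁻¹ := by
    ext i j
    rw [Matrix.mul_apply, ← hF i j]
    rfl
  have h2 := congrArg Matrix.det h1
  rw [Matrix.det_mul, Matrix.det_transpose, Matrix.det_nonsing_inv, Ring.inverse_eq_inv'] at h2
  have h3 : (Matrix.of F).det = Real.sqrt ((g x).det)⁻¹ := by
    rw [← h2, Real.sqrt_mul_self hd.le]
  unfold UMB.vol
  rw [h3, ← Real.sqrt_mul (by positivity), inv_mul_cancel₀ hg.ne', Real.sqrt_one]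

end Pool.Agent.H44G
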