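import Pool.Agent.Lib.H44G.MVal
import Pool.Agent.Lib.H44G.MVal2
import Pool.Agent.Lib.H44G.MA0
import Pool.Agent.Lib.H44G.MA8
import Pool.Agent.Lib.H44G.MFR3

set_option autoImplicit false

open Filter Topology Set MeasureTheory
open scoped ContDiff

namespace Pool.Agent.H44G

open Pool.Agent.Lib.PenroseSph (E3 Tens pd)
open UMB (MetOn gsq yreg GA SmR rest extU)

/-- **Chunk MPOINT** (size M). The pointwise identity: `K |∇θ| √(det g)` is the flat density minus `∇θ · curl z`.

Proof. In the ring `SmR U` of the structure `hg.ga`: `P i a = rest (fun x => frame g θ x i a) _` (`frame_spec`), `fr_of` gives `Fr` (the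
hypothesis `∑ a, P i a * P j a = hg.ga.G i j` is `frame_spec` evaluated at the points: `Subtype.ext`, `funext`, `UMB.val_sum`,
`UMB.val_mul`), `Q` as in `fr_of`; `y, yi, r, ri` the restrictions of `yreg g θ 0`, its inverse, `eNorm θ`, its inverse
(`norms_pos`); `n a = rest (fun x => nu θ x a) _`. Hypotheses of `ring_identity`: evaluate at points (`nu_nv`, `frame_spec`,
`UMB.val_Du`; `pd k θ = eNorm · nu k`). Let `Z i = dotp n (vec (con hg.ga P Q i)) : SmR U` and `z i = extU U (Z i).1` (smooth: `(Z i).2`).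
Evaluate `ring_identity` at `x` (`congrArg (fun f : SmR U => f.1 ⟨x, hx⟩)`) with `val_kap2`, `val_gauss`, `val_cyc`, `val_det3`:
`2 kap = 2 det F (gaussDens - curlT)`; multiply by `vol g x` and use `det_vol`. -/
theorem point_identity {g : Tens} {θ : E3 → ℝ} {U : Set E3} (hg : MetOn g U)
    (hθ : ContDiffOn ℝ ∞ θ U) (hc : ∀ x ∈ U, fderiv ℝ θ x ≠ 0) :
    ∃ z : Fin 3 → E3 → ℝ, (∀ i, ContDiffOn ℝ ∞ (z i) U) ∧
      ∀ x ∈ U, UMB.vol g x * UMB.kap g θ x = gaussDens θ x - curlT θ z x := by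
  obtain ⟨hpos, hes, hys⟩ := norms_pos hg hθ hc
  obtain ⟨hfs, hf⟩ := frame_spec hg hθ hc
  have hnn := fun (x : E3) (hx : x ∈ U) => nu_nv hg hθ hc hx
  have heis : ContDiffOn ℝ ∞ (fun x => (eNorm θ x)⁻¹) U := hes.inv fun x hx => (hpos x hx).1.ne'
  have hyis : ContDiffOn ℝ ∞ (fun x => (yreg g θ 0 x)⁻¹) U := hys.inv fun x hx => (hpos x hx).2.ne'
  have hnus : ∀ i, ContDiffOn ℝ ∞ (fun x => nu θ x i) U := by
    intro i
    unfold nu
    exact (UMB.smooth_pd hg.isOpen hθ i).div hes fun x hx => (hpos x hx).1.ne'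
  set P : Fin 3 → Fin 3 → SmR U := fun i a => rest (fun x => frame g θ x i a) (hfs i a) with hP
  have hPP : ∀ i j, ∑ a, P i a * P j a = hg.ga.G i j := by
    intro i j
    apply Subtype.ext
    funext x
    rw [UMB.val_sum]
    simp only [UMB.val_mul]
    exact (hf x x.2).1 i j
  have hFr := fr_of hPP
  set Q : Fin 3 → Fin 3 → SmR U := fun a j => ∑ k, P k a * hg.ga.g k j with hQ
  set n : Fin 3 → SmR U := fun a => rest (fun x => nu θ x a) (hnus a) with hn
  set y : SmR U := rest (yreg g θ 0) hys with hy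
  set yi : SmR U := rest (fun x => (yreg g θ 0 x)⁻¹) hyis with hyi
  set r : SmR U := rest (eNorm θ) hes with hr
  set ri : SmR U := rest (fun x => (eNorm θ x)⁻¹) heis with hri
  have key := ring_identity hFr (θ := rest θ hθ) (y := y) (yi := yi) (r := r) (ri := ri) (n := n)
    (by
      apply Subtype.ext
      funext x
      exact mul_inv_cancel₀ (hpos x x.2).2.ne')
    (by
      apply Subtype.ext
      funext x
      exact mul_inv_cancel₀ (hpos x x.2).1.ne')
    (by
      apply Subtype.ext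
      funext x
      have h1 := (hnn x x.2).1
      rw [Fin.sum_univ_three] at h1
      show nu θ x 0 * nu θ x 0 + nu θ x 1 * nu θ x 1 + nu θ x 2 * nu θ x 2 = 1
      linarith)
    (by
      intro k
      apply Subtype.ext
      funext x
      rw [UMB.val_Du, UMB.val_mul]
      show pd k θ x = eNorm θ x * (pd k θ x / eNorm θ x)
      rw [mul_div_cancel₀ _ (hpos x x.2).1.ne'])
    (by
      intro a
      apply Subtype.ext
      funext x
      rw [UMB.val_sum, UMB.val_mul]
      simp only [UMB.val_mul, UMB.val_Du]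
      exact (hf x x.2).2.1 a)
  set Z : Fin 3 → SmR U := fun i => dotp n (vec (con hg.ga P Q i)) with hZ
  refine ⟨fun i => extU U (Z i).1, fun i => (Z i).2, ?_⟩
  intro x hx
  have h1 := congrArg (fun f : SmR U => f.1 ⟨x, hx⟩) key
  simp only [UMB.val_mul, UMB.val_sub] at h1
  have h2 : (2 : SmR U).1 ⟨x, hx⟩ = 2 := rfl
  rw [val_kap2 hg hθ y yi (fun _ => rfl) (fun _ => rfl), val_gauss hg hθ ri (fun _ => rfl), h2,
    val_det3 P (Matrix.of (frame g θ x)) ⟨x, hx⟩ (fun i a => rfl)] at h1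
  have h3 := val_cyc hg hθ Z ⟨x, hx⟩
  have h4 := det_vol hg hx (frame g θ x) (hf x hx).1 (hf x hx).2.2
  rw [← h3]
  have h5 : UMB.kap g θ x = (Matrix.of (frame g θ x)).det * (gaussDens θ x -
      (cyc (fun k => hg.ga.D k (rest θ hθ)) (fun i j => hg.ga.D i (Z j) - hg.ga.D j (Z i))).1 ⟨x, hx⟩) := by
    linarith
  rw [h5, ← mul_assoc, mul_comm (UMB.vol g x), h4, one_mul]

end Pool.Agent.H44G
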