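import Pool.Agent.Lib.H44G.MAlg
import Pool.Agent.Lib.H44G.MFrame
import Pool.Agent.Lib.H44G.ZDefs
import Pool.Agent.Lib.UMB.S1.Dens

set_option autoImplicit false

open Filter Topology Set MeasureTheory
open scoped ContDiff

namespace Pool.Agent.H44G

open Pool.Agent.Lib.PenroseSph (E3 Tens pd)
open UMB (MetOn gsq yreg GA SmR rest extU)

/-- **Chunk MVAL** (size M). Evaluation of the ring expressions at a point: `K |∇θ|`.

Proof. Unfold `kap2` and use `UMB.val_mul`, `val_add`, `val_sub`, `val_pow`, `val_scal`, `val_ricg`, `val_hsq`, `val_lap`, `val_hgq`,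
`val_hgg` (`UMB/S1/Eval.lean`; numerals: `(2 : SmR U).1 x = 2` by `rfl`), unfold `UMB.kap`, `ring` (with `div_eq_mul_inv`; `a / (2 y)`,
`a / y ^ 3`: `field_simp`-free, `mul_inv`, `inv_pow`). -/
theorem val_kap2 {g : Tens} {U : Set E3} (h : MetOn g U) {θ : E3 → ℝ} (hθ : ContDiffOn ℝ ∞ θ U) (y yi : SmR U)
    (hy : ∀ x : U, y.1 x = yreg g θ 0 x) (hyi : ∀ x : U, yi.1 x = (yreg g θ 0 x)⁻¹) (x : U) :
    (kap2 h.ga (rest θ hθ) y yi).1 x = 2 * UMB.kap g θ x := by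
  have h2 : (2 : SmR U).1 x = 2 := rfl
  unfold kap2
  rw [UMB.val_add, UMB.val_sub, UMB.val_sub, UMB.val_mul, UMB.val_mul, UMB.val_mul, UMB.val_mul, UMB.val_mul, UMB.val_mul,
    UMB.val_pow, UMB.val_sub, UMB.val_sub, UMB.val_pow, UMB.val_mul, UMB.val_scal, UMB.val_ricg, UMB.val_hsq, UMB.val_lap,
    UMB.val_hgq, UMB.val_hgg, h2, hy, hyi]
  unfold UMB.kap
  rw [div_eq_mul_inv, div_eq_mul_inv, div_eq_mul_inv, div_eq_mul_inv, mul_inv, inv_pow]
  ring

theorem mval_DD {g : Tens} {U : Set E3} (h : MetOn g U) {θ : E3 → ℝ} (hθ : ContDiffOn ℝ ∞ θ U) (i j : Fin 3) (x : U) :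
    (h.ga.D i (h.ga.D j (rest θ hθ))).1 x = pd i (pd j θ) x :=
  UMB.val_D h i _ _ (fun y => UMB.val_Du h hθ j y) x

/-- **Chunk MVAL** continued. The flat density. `(h.ga.D i (h.ga.D j θ)).1 x = pd i (pd j θ) x` (`UMB.val_D` with
`UMB.val_Du`); the matrix `flatHess θ x` is symmetric (`h.ga.comm`, or `UMB.Dk_comm`); `Matrix.adjugate_fin_three`; `eNorm` is the
square root in `gaussDens`. -/
theorem val_gauss {g : Tens} {U : Set E3} (h : MetOn g U) {θ : E3 → ℝ} (hθ : ContDiffOn ℝ ∞ θ U) (ri : SmR U)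
    (hri : ∀ x : U, ri.1 x = (eNorm θ x)⁻¹) (x : U) :
    (gauss h.ga (rest θ hθ) ri).1 x = gaussDens θ x := by
  have h2 : (2 : SmR U).1 x = 2 := rfl
  have hc : ∀ i j, pd i (pd j θ) (x : E3) = pd j (pd i θ) (x : E3) := by
    intro i j
    rw [← mval_DD h hθ i j x, ← mval_DD h hθ j i x, h.ga.comm]
  unfold gauss gaussDens
  simp only [UMB.val_add, UMB.val_sub, UMB.val_mul, UMB.val_pow, mval_DD, UMB.val_Du, hri, h2]
  rw [Matrix.adjugate_fin_three]
  simp only [Fin.sum_univ_three, flatHess, Matrix.of_apply, Matrix.cons_val', Matrix.cons_val_zero, Matrix.cons_val_one,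
    Matrix.cons_val, Matrix.cons_val_fin_one]
  have e1 : Real.sqrt (pd 0 θ (x : E3) ^ 2 + pd 1 θ (x : E3) ^ 2 + pd 2 θ (x : E3) ^ 2) = eNorm θ x := by
    unfold eNorm
    rw [Fin.sum_univ_three]
  rw [e1, div_eq_mul_inv, inv_pow, hc 1 0, hc 2 0, hc 2 1]
  ring

end Pool.Agent.H44G
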