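import Mathlib

set_option autoImplicit false

open Filter Topology Set MeasureTheory

namespace Pool.Agent.H44G

/-- **Chunk SCOVER** (size S). A set with locally null image has null image.

Proof. Choose `N x ∈ 𝓝 x` for `x ∈ A` (and `univ` otherwise); `TopologicalSpace.countable_cover_nhdsWithin` (with
`N x ∈ 𝓝[A] x`) gives a countable `t ⊆ A` with `A ⊆ ⋃ x ∈ t, N x`. So `f '' A ⊆ ⋃ x ∈ t, f '' (A ∩ N x)`, a countable union of
null sets (`measure_biUnion_null_iff`). -/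
theorem null_image_of_locally {E : Type} [TopologicalSpace E] [SecondCountableTopology E] {A : Set E} {f : E → ℝ}
    (h : ∀ x ∈ A, ∃ N ∈ 𝓝 x, volume (f '' (A ∩ N)) = 0) : volume (f '' A) = 0 := by
  have h1 : ∀ x, ∃ N : Set E, x ∈ A → N ∈ 𝓝[A] x ∧ volume (f '' (A ∩ N)) = 0 := by
    intro x
    by_cases hx : x ∈ A
    · obtain ⟨N, hN, h2⟩ := h x hx
      exact ⟨N, fun _ => ⟨mem_nhdsWithin_of_mem_nhds hN, h2⟩⟩
    · exact ⟨univ, fun hx' => absurd hx' hx⟩
  choose N hN using h1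
  obtain ⟨t, htA, htc, htu⟩ := TopologicalSpace.countable_cover_nhdsWithin (fun x hx => (hN x hx).1)
  refine measure_mono_null (t := ⋃ x ∈ t, f '' (A ∩ N x)) ?_ ?_
  · rintro _ ⟨y, hy, rfl⟩
    obtain ⟨x, hx, hyN⟩ := mem_iUnion₂.mp (htu hy)
    exact mem_iUnion₂.mpr ⟨x, hx, y, ⟨hy, hyN⟩, rfl⟩
  · rw [measure_biUnion_null_iff htc]
    intro x hx
    exact (hN x (htA hx)).2

end Pool.Agent.H44G
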