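import Mathlib

set_option autoImplicit false

open Filter Topology Set MeasureTheory
open scoped ContDiff

namespace Pool.Agent.H44G

/-- **Chunk SDIR** (size M). If the derivative of order `k+1` of `f` does not vanish at `x`, there is a smooth function `w` with
`dw(x) ≠ 0` which vanishes wherever the derivative of order `k` vanishes.

Proof. Let `Ψ = iteratedFDeriv ℝ k f`. On the open set `U` it is smooth (`ContDiffOn.iteratedFDerivWithin`-type lemma plus
`iteratedFDerivWithin_of_isOpen`, or prove `ContDiffAt ℝ ∞ (iteratedFDeriv ℝ k f) y` for `y ∈ U` with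
`ContDiffAt.iteratedFDeriv_right`). By `norm_fderiv_iteratedFDeriv`, `‖fderiv ℝ Ψ x‖ = ‖iteratedFDeriv ℝ (k+1) f x‖ ≠ 0`,
so there is `e` with `fderiv ℝ Ψ x e ≠ 0` (a continuous multilinear map), and then `v : Fin k → E` with
`(fderiv ℝ Ψ x e) v ≠ 0`. Put `w y = Ψ y v`, the composition of `Ψ` with the continuous linear evaluation at `v`
(`ContinuousMultilinearMap.apply ℝ _ _ v`); smooth on `U`, and `fderiv ℝ w x e = (fderiv ℝ Ψ x e) v ≠ 0`. If `Ψ y = 0` then
`w y = 0`. -/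
theorem exists_dir {E : Type} [NormedAddCommGroup E] [NormedSpace ℝ E] [FiniteDimensional ℝ E] {U : Set E}
    (hU : IsOpen U) {f : E → ℝ} (hf : ContDiffOn ℝ ∞ f U) {x : E} (hx : x ∈ U) {k : ℕ}
    (h1 : iteratedFDeriv ℝ (k + 1) f x ≠ 0) :
    ∃ w : E → ℝ, ContDiffOn ℝ ∞ w U ∧ fderiv ℝ w x ≠ 0 ∧ ∀ y ∈ U, iteratedFDeriv ℝ k f y = 0 → w y = 0 := by
  have hΨ : ∀ y ∈ U, ContDiffAt ℝ ∞ (iteratedFDeriv ℝ k f) y := by
    intro y hy
    exact (hf.contDiffAt (hU.mem_nhds hy)).iteratedFDeriv_right (m := ∞) (i := k)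
      (by exact_mod_cast (le_top : (⊤ : ℕ∞) + (k : ℕ∞) ≤ ⊤))
  have h2 : fderiv ℝ (iteratedFDeriv ℝ k f) x ≠ 0 := by
    intro h3
    have h4 := norm_fderiv_iteratedFDeriv (𝕜 := ℝ) (f := f) (x := x) (n := k)
    have h6 : ‖(0 : E →L[ℝ] ContinuousMultilinearMap ℝ (fun _ : Fin k => E) ℝ)‖ = 0 :=
      ContinuousLinearMap.opNorm_zero
    rw [h3] at h4
    have h5 : ‖iteratedFDeriv ℝ (k + 1) f x‖ = 0 := h4.symm.trans h6
    exact h1 (norm_eq_zero.mp h5)
  obtain ⟨e, he⟩ : ∃ e, fderiv ℝ (iteratedFDeriv ℝ k f) x e ≠ 0 := by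
    by_contra hcon
    push Not at hcon
    exact h2 (ContinuousLinearMap.ext hcon)
  obtain ⟨v, hv⟩ : ∃ v, fderiv ℝ (iteratedFDeriv ℝ k f) x e v ≠ 0 := by
    by_contra hcon
    push Not at hcon
    exact he (ContinuousMultilinearMap.ext hcon)
  let L : ContinuousMultilinearMap ℝ (fun _ : Fin k => E) ℝ →L[ℝ] ℝ :=
    ContinuousMultilinearMap.apply ℝ (fun _ : Fin k => E) ℝ v
  refine ⟨fun y => L (iteratedFDeriv ℝ k f y), ?_, ?_, ?_⟩
  · intro y hy
    exact (L.contDiff.contDiffAt.comp y (hΨ y hy)).contDiffWithinAt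
  · have h5 : HasFDerivAt (fun y => L (iteratedFDeriv ℝ k f y))
        (L.comp (fderiv ℝ (iteratedFDeriv ℝ k f) x)) x :=
      L.hasFDerivAt.comp x ((hΨ x hx).differentiableAt (by simp)).hasFDerivAt
    rw [h5.fderiv]
    intro h6
    have h7 := DFunLike.congr_fun h6 e
    exact hv h7
  · intro y _ hy
    change L (iteratedFDeriv ℝ k f y) = 0
    rw [hy, map_zero]

end Pool.Agent.H44G
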