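import Mathlib

set_option autoImplicit false

open Filter Topology Set MeasureTheory
open scoped ContDiff

namespace Pool.Agent.H44G

/-- **Chunk SHOLD** (size S/M). If `|f y - f x| ≤ M ‖y - x‖^(n+1)` on `A`, `n = dim E`, then `f '' A` is a null set.

Proof. Put `r = n + 1` (as `NNReal`) and `C = Real.toNNReal M`. Then `HolderOnWith C r f A` (pass from `edist` to `dist`:
`edist_dist`, `ENNReal.ofReal_mul`, `ENNReal.ofReal_rpow_of_nonneg`, or `HolderOnWith` from `dist`/`nndist` bounds).
By `HolderOnWith.dimH_image_le`, `dimH (f '' A) ≤ dimH A / r ≤ n / (n+1) < 1`, because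
`dimH A ≤ dimH univ = n` (`Real.dimH_univ_eq_finrank`). So `μH[1] (f '' A) = 0`
(`hausdorffMeasure_of_dimH_lt`), and `μH[1] = volume` on `ℝ` (`MeasureTheory.hausdorffMeasure_real`). The Borel
structure on `E`: `borelize E` if it is needed. -/
theorem null_of_flat {E : Type} [NormedAddCommGroup E] [NormedSpace ℝ E] [FiniteDimensional ℝ E] {A : Set E}
    {f : E → ℝ} {M : ℝ}
    (h : ∀ x ∈ A, ∀ y ∈ A, |f y - f x| ≤ M * ‖y - x‖ ^ (Module.finrank ℝ E + 1)) : volume (f '' A) = 0 := by
  set n := Module.finrank ℝ E with hn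
  have hH : HolderOnWith (Real.toNNReal M) ((n + 1 : ℕ) : NNReal) f A := by
    intro x hx y hy
    have h1 := h y hy x hx
    have h2 : |f x - f y| ≤ max M 0 * ‖x - y‖ ^ (n + 1) :=
      h1.trans (mul_le_mul_of_nonneg_right (le_max_left _ _) (by positivity))
    have h3 : edist (f x) (f y) ≤ ENNReal.ofReal (max M 0 * ‖x - y‖ ^ (n + 1)) := by
      rw [edist_dist, Real.dist_eq]
      exact ENNReal.ofReal_le_ofReal h2
    refine h3.trans (le_of_eq ?_)
    rw [ENNReal.ofReal_mul (le_max_right _ _), ENNReal.ofReal_pow (norm_nonneg _), edist_dist, dist_eq_norm,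
      NNReal.coe_natCast, ENNReal.rpow_natCast]
    congr 1
    rw [ENNReal.ofReal, Real.toNNReal]
    congr 1
    refine NNReal.eq ?_
    simp [Real.toNNReal]
  have h0 : (0 : NNReal) < ((n + 1 : ℕ) : NNReal) := by exact_mod_cast Nat.succ_pos n
  have h4 := hH.dimH_image_le h0
  have h5 : dimH A ≤ n := (dimH_mono (subset_univ A)).trans (Real.dimH_univ_eq_finrank E).le
  have h6 : dimH (f '' A) < ((1 : NNReal) : ENNReal) := by
    refine h4.trans_lt ?_
    have h7 : dimH A / ((((n + 1 : ℕ) : NNReal)) : ENNReal) ≤ (n : ENNReal) / ((n + 1 : ℕ) : ENNReal) := by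
      rw [ENNReal.coe_natCast]
      exact ENNReal.div_le_div_right h5 _
    refine h7.trans_lt ?_
    rw [ENNReal.coe_one, ENNReal.div_lt_iff (Or.inl (by exact_mod_cast Nat.succ_ne_zero n)) (Or.inl (ENNReal.natCast_ne_top _)), one_mul]
    exact_mod_cast Nat.lt_succ_self n
  have h8 := hausdorffMeasure_of_dimH_lt h6
  rw [NNReal.coe_one, MeasureTheory.hausdorffMeasure_real] at h8
  exact h8

end Pool.Agent.H44G
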