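import Pool.Agent.Lib.H44G.SChart

set_option autoImplicit false

open Filter Topology Set MeasureTheory
open scoped ContDiff

namespace Pool.Agent.H44G

/-- **Chunk SSLICE** (size S/M). Sard in dimension `dim E - 1` gives: the critical points of `f` on `{w = 0}`, `dw ≠ 0`,
have a null image, locally.

Proof. Take `H, N, V, σ` of `slice_chart hU hw hx hd`; `N ∈ 𝓝 x`. Let `g = f ∘ σ`, smooth on `V` (`σ` maps `V` to
`N ⊆ U`). If `y ∈ N ∩ U`, `w y = 0`, `fderiv ℝ f y = 0`, take `h ∈ V` with `σ h = y`; chain rule (`fderiv_comp`):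
`fderiv ℝ g h = (fderiv ℝ f y).comp (fderiv ℝ σ h) = 0` and `g h = f y`. So the image is contained in
`g '' {h ∈ V | fderiv ℝ g h = 0}`, which is null by `IH`. -/
theorem slice_null {E : Type} [NormedAddCommGroup E] [NormedSpace ℝ E] [FiniteDimensional ℝ E]
    (IH : ∀ (H : Submodule ℝ E), Module.finrank ℝ H + 1 = Module.finrank ℝ E → ∀ (V : Set H) (g : H → ℝ), IsOpen V →
      ContDiffOn ℝ ∞ g V → volume (g '' {h | h ∈ V ∧ fderiv ℝ g h = 0}) = 0)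
    {U : Set E} (hU : IsOpen U) {f w : E → ℝ} (hf : ContDiffOn ℝ ∞ f U) (hw : ContDiffOn ℝ ∞ w U) {x : E}
    (hx : x ∈ U) (hd : fderiv ℝ w x ≠ 0) :
    ∃ N ∈ 𝓝 x, volume (f '' {y | y ∈ N ∧ w y = 0 ∧ fderiv ℝ f y = 0}) = 0 := by
  obtain ⟨H, N, V, σ, hfr, hNo, hxN, hNU, hVo, hσ, hσN, hsurj⟩ := slice_chart hU hw hx hd
  refine ⟨N, hNo.mem_nhds hxN, ?_⟩
  have hg : ContDiffOn ℝ ∞ (f ∘ σ) V := hf.comp hσ (fun h hh => hNU (hσN h hh))
  refine measure_mono_null ?_ (IH H hfr V (f ∘ σ) hVo hg)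
  rintro _ ⟨y, ⟨hyN, hyw, hyf⟩, rfl⟩
  obtain ⟨h, hh, rfl⟩ := hsurj y hyN hyw
  refine ⟨h, ⟨hh, ?_⟩, rfl⟩
  have h1 : DifferentiableAt ℝ σ h := (hσ.contDiffAt (hVo.mem_nhds hh)).differentiableAt (by simp)
  have h2 : DifferentiableAt ℝ f (σ h) :=
    (hf.contDiffAt (hU.mem_nhds (hNU hyN))).differentiableAt (by simp)
  rw [fderiv_comp h h2 h1, hyf, ContinuousLinearMap.zero_comp]

end Pool.Agent.H44G
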