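import Pool.Agent.Lib.H44G.SFlat
import Pool.Agent.Lib.H44G.SHold
import Pool.Agent.Lib.H44G.SSlice
import Pool.Agent.Lib.H44G.SDir
import Pool.Agent.Lib.H44G.SCover

set_option autoImplicit false

open Filter Topology Set MeasureTheory
open scoped ContDiff

namespace Pool.Agent.H44G

theorem sard_aux (n : ℕ) : ∀ (E : Type) [NormedAddCommGroup E] [NormedSpace ℝ E] [FiniteDimensional ℝ E],
    Module.finrank ℝ E = n → ∀ (U : Set E), IsOpen U → ∀ f : E → ℝ, ContDiffOn ℝ ∞ f U →
      volume (f '' {x | x ∈ U ∧ fderiv ℝ f x = 0}) = 0 := by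
  induction n using Nat.strong_induction_on with
  | _ n ih =>
    intro E _ _ _ hn U hU f hf
    set A : Set E := {x | x ∈ U ∧ ∀ j : ℕ, 1 ≤ j → j ≤ n → iteratedFDeriv ℝ j f x = 0} with hA
    let B : ℕ → Set E := fun k => {x | x ∈ U ∧ fderiv ℝ f x = 0 ∧ iteratedFDeriv ℝ k f x = 0 ∧
      iteratedFDeriv ℝ (k + 1) f x ≠ 0}
    have hcov : {x | x ∈ U ∧ fderiv ℝ f x = 0} ⊆ A ∪ ⋃ k ∈ Finset.range n, B k := by
      intro x hx
      by_cases hxA : ∀ j : ℕ, 1 ≤ j → j ≤ n → iteratedFDeriv ℝ j f x = 0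
      · exact Or.inl ⟨hx.1, hxA⟩
      · right
        push Not at hxA
        classical
        have hex : ∃ j : ℕ, 1 ≤ j ∧ j ≤ n ∧ iteratedFDeriv ℝ j f x ≠ 0 := hxA
        obtain ⟨h1, h2, h3⟩ := Nat.find_spec hex
        have hmin : ∀ j < Nat.find hex, 1 ≤ j → iteratedFDeriv ℝ j f x = 0 := by
          intro j hj hj1
          by_contra hne
          exact Nat.find_min hex hj ⟨hj1, by omega, hne⟩
        set j := Nat.find hex with hj
        have hj1 : j ≠ 1 := by
          intro hj1
          rw [hj1] at h3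
          apply h3
          rw [← norm_eq_zero, norm_iteratedFDeriv_one, hx.2, norm_zero]
        obtain ⟨k, hk⟩ : ∃ k, j = k + 1 := ⟨j - 1, by omega⟩
        simp only [mem_iUnion, Finset.mem_range]
        refine ⟨k, by omega, hx.1, hx.2, ?_, ?_⟩
        · exact hmin k (by omega) (by omega)
        · rw [← hk]; exact h3
    have hnA : volume (f '' A) = 0 := by
      refine null_image_of_locally ?_
      intro x hx
      obtain ⟨r, hr, hrU⟩ := Metric.nhds_basis_closedBall.mem_iff.1 (hU.mem_nhds hx.1)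
      obtain ⟨M, hM0, hM⟩ := flat_taylor hU (isCompact_closedBall x r) (convex_closedBall x r) hrU n hf
      refine ⟨Metric.closedBall x r, Metric.closedBall_mem_nhds x hr, ?_⟩
      refine null_of_flat (M := M) ?_
      intro y hy z hz
      rw [hn]
      exact hM y hy.2 hy.1.2 z hz.2
    have hnB : ∀ k ∈ Finset.range n, volume (f '' (B k)) = 0 := by
      intro k hk
      have hk' := Finset.mem_range.1 hk
      refine null_image_of_locally ?_
      intro x hx
      obtain ⟨w, hw, hwd, hwz⟩ := exists_dir hU hf hx.1 hx.2.2.2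
      have IH : ∀ (H : Submodule ℝ E), Module.finrank ℝ H + 1 = Module.finrank ℝ E → ∀ (V : Set H) (g : H → ℝ),
          IsOpen V → ContDiffOn ℝ ∞ g V → volume (g '' {h | h ∈ V ∧ fderiv ℝ g h = 0}) = 0 := by
        intro H hH V g hV hg
        exact ih (Module.finrank ℝ H) (by omega) H rfl V hV g hg
      obtain ⟨N, hN, hNv⟩ := slice_null IH hU hf hw hx.1 hwd
      refine ⟨N, hN, measure_mono_null (image_mono ?_) hNv⟩
      intro y hy
      exact ⟨hy.2, hwz y hy.1.1 hy.1.2.2.1, hy.1.2.1⟩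
    refine measure_mono_null (image_mono hcov) ?_
    rw [image_union, image_iUnion₂]
    refine measure_union_null hnA ?_
    exact (measure_biUnion_null_iff (Finset.range n).countable_toSet).2 hnB

/-- **Chunk SARD** (size M). Sard's theorem for real valued smooth functions on an open subset of a finite dimensional space.

Proof. Induction on `n = finrank ℝ E`, for all `E : Type` (state it as
`∀ n, ∀ (E : Type) [NormedAddCommGroup E] [NormedSpace ℝ E] [FiniteDimensional ℝ E], Module.finrank ℝ E = n → ∀ U f, …`).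
Let `C = {x ∈ U | fderiv ℝ f x = 0}`, `A = {x ∈ U | ∀ j, 1 ≤ j → j ≤ n → iteratedFDeriv ℝ j f x = 0}` and, for `k ≥ 1`,
`B k = {x ∈ U | fderiv ℝ f x = 0, iteratedFDeriv ℝ k f x = 0, iteratedFDeriv ℝ (k+1) f x ≠ 0}`.
(i) `C ⊆ A ∪ ⋃ k ∈ [1, n), B k`: if `x ∈ C` is not in `A`, take the least `j ≥ 1` with `iteratedFDeriv ℝ j f x ≠ 0`; `j ≤ n`, and
`j ≠ 1` since `‖iteratedFDeriv ℝ 1 f x‖ = ‖fderiv ℝ f x‖` (`norm_iteratedFDeriv_one` or `norm_iteratedFDeriv_fderiv`); so
`x ∈ B (j-1)`.
(ii) `f '' A` is null: by `null_image_of_locally` with `N` a closed ball around `x` contained in `U` (compact, convex):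
`flat_taylor` with `k = n` gives `M`, and `null_of_flat` applies to `A ∩ N` (no induction hypothesis; also for `n = 0`).
(iii) `f '' (B k)` is null for `1 ≤ k < n`: by `null_image_of_locally`: for `x ∈ B k` take `w` of `exists_dir hU hf hx h1`
and `N` of `slice_null` (its hypothesis `IH`: submodules `H` with `finrank H + 1 = n` are covered by the induction
hypothesis for `n - 1`; here `n ≥ 1`); `B k ∩ N ⊆ {y ∈ N | w y = 0 ∧ fderiv ℝ f y = 0}`. -/
theorem sard {E : Type} [NormedAddCommGroup E] [NormedSpace ℝ E] [FiniteDimensional ℝ E] {U : Set E}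
    (hU : IsOpen U) {f : E → ℝ} (hf : ContDiffOn ℝ ∞ f U) :
    volume (f '' {x | x ∈ U ∧ fderiv ℝ f x = 0}) = 0 := by
  exact sard_aux _ E rfl U hU f hf

end Pool.Agent.H44G
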