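import Pool.Agent.Lib.H44G.ZTop
import Pool.Agent.Lib.H44G.Sard

set_option autoImplicit false

open Filter Topology Set MeasureTheory
open scoped ContDiff

namespace Pool.Agent.H44G

open Pool.Agent.Lib.PenroseSph (E3 Tens pd)

/-- **Chunk ZCRIT** (size S). The critical values form a null set (`sard` on the open shell) and the regular values an open
set (`isOpen_reg`). -/
theorem critVals_null {θ : E3 → ℝ} {c d R : ℝ} (h : IsLevel θ c d R) :
    volume (critVals θ R) = 0 ∧ IsOpen (Ioo c d \ critVals θ R) := by
  refine ⟨?_, isOpen_reg h⟩
  have hU : IsOpen (shell R) :=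
    (isOpen_lt continuous_const continuous_norm).inter (isOpen_lt continuous_norm continuous_const)
  exact sard hU h.smooth

end Pool.Agent.H44G
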