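import Pool.Agent.Lib.H44G.ZTop
import Pool.Agent.Lib.H44G.CConn
import Pool.Agent.Lib.H48U.Main

set_option autoImplicit false

open Filter Topology Set MeasureTheory
open scoped ContDiff

namespace Pool.Agent.H44G

open Pool.Agent.Lib.PenroseSph (E3 Tens pd)

/-- **Chunk ZDEG** (size M). The degree inequality in the shell.

Proof. Apply `H48U.degree_le` to `u = hull θ c d R` with the same `c d R η`. `hull_continuous`; `hin`, `hout`: definition of `hull` (for
`R ≤ ‖x‖`: `1 < R` so the first case is excluded); `hsm`: `{c < u < d} = shell R` (`hull_mem_iff`), `h.smooth`, and `u = θ` on the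
open shell (`ContDiffOn.congr`); `hconn`: `hull_preconn`; `hreg`: if `u x ∈ tsupport η ⊆ reg ⊆ Ioo c d` then `x ∈ shell R`,
`u = θ` near `x` (`hull_eventuallyEq`), `fderiv` agree, and `θ x ∈ reg` is not a critical value. Finally
`∫ x, η (u x) * gaussDens u x = ∫ x in shell R, η (θ x) * gaussDens θ x`: off the shell `u x` is not strictly between `c` and `d`,
so `η (u x) = 0`; on the shell `gaussDens u x = gaussDens θ x` because `u = θ` near `x` (first and second derivatives agree:
`Filter.EventuallyEq.fderiv`, twice). -/
theorem degree_shell {θ : E3 → ℝ} {c d R : ℝ} (h : IsLevel θ c d R) {η : ℝ → ℝ} (hη : Continuous η) (h0 : ∀ t, 0 ≤ η t)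
    (hs : HasCompactSupport η) (hs' : tsupport η ⊆ reg θ c d R) :
    ∫ x in shell R, η (θ x) * gaussDens θ x ≤ 4 * Real.pi * ∫ t, η t := by
  have hso : IsOpen (shell R) :=
    (isOpen_lt continuous_const continuous_norm).inter (isOpen_lt continuous_norm continuous_const)
  have hreg' : tsupport η ⊆ Ioo c d := fun t ht => (hs' ht).1
  have hsh : {x : E3 | c < hull θ c d R x ∧ hull θ c d R x < d} = shell R := by
    ext x
    exact hull_mem_iff h
  have hmain := H48U.degree_le (hull θ c d R) c d R (hull_continuous h)
    (fun x hx => by simp [hull, hx])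
    (fun x hx => by
      have h1 : ¬ ‖x‖ ≤ 1 := not_le.2 (lt_of_lt_of_le h.one_lt hx)
      simp [hull, h1, hx])
    (by
      rw [hsh]
      exact h.smooth.congr (fun x hx => by simp [hull, not_le.2 hx.1, not_le.2 hx.2]))
    (fun t ht _ => hull_preconn h ht)
    η hη h0 hs hreg'
    (by
      intro x hx
      have hx1 : x ∈ shell R := (hull_mem_iff h).1 ⟨(hreg' hx).1, (hreg' hx).2⟩
      have he := hull_eventuallyEq (θ := θ) (c := c) (d := d) hx1
      rw [he.fderiv_eq]
      intro h0'
      rw [he.eq_of_nhds] at hx
      exact (hs' hx).2 ⟨x, ⟨hx1, h0'⟩, rfl⟩)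
  have heq : ∫ x, η (hull θ c d R x) * gaussDens (hull θ c d R) x
      = ∫ x in shell R, η (θ x) * gaussDens θ x := by
    rw [← setIntegral_eq_integral_of_forall_compl_eq_zero (s := shell R)]
    · apply setIntegral_congr_fun hso.measurableSet
      intro x hx
      have he := hull_eventuallyEq (θ := θ) (c := c) (d := d) hx
      have h1 : ∀ j, pd j (hull θ c d R) =ᶠ[𝓝 x] pd j θ := by
        intro j
        filter_upwards [he.fderiv (𝕜 := ℝ)] with y hy
        simp only [pd, hy]
      have h2 : ∀ j, pd j (hull θ c d R) x = pd j θ x := fun j => (h1 j).eq_of_nhds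
      have h3 : ∀ i j, pd i (pd j (hull θ c d R)) x = pd i (pd j θ) x := by
        intro i j
        have h4 := (h1 j).fderiv_eq (𝕜 := ℝ)
        change fderiv ℝ (pd j (hull θ c d R)) x _ = fderiv ℝ (pd j θ) x _
        rw [h4]
      have h4 : flatHess (hull θ c d R) x = flatHess θ x := by
        ext i j
        exact h3 i j
      have hg : gaussDens (hull θ c d R) x = gaussDens θ x := by
        simp only [gaussDens, h4, h2]
      simp only [he.eq_of_nhds, hg]
    · intro x hx
      have h1 : η (hull θ c d R x) = 0 := by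
        by_contra hne
        exact hx ((hull_mem_iff h).1 (hreg' (subset_tsupport η (Function.mem_support.2 hne))))
      rw [h1, zero_mul]
  rw [heq] at hmain
  exact hmain

end Pool.Agent.H44G
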