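import Pool.Agent.Lib.H44G.ZDefs

set_option autoImplicit false

open Filter Topology Set MeasureTheory
open scoped ContDiff

namespace Pool.Agent.H44G

open Pool.Agent.Lib.PenroseSph (E3 Tens pd)

theorem zsmk_pd {f : E3 → ℝ} {U : Set E3} (hU : IsOpen U) (hf : ContDiffOn ℝ ∞ f U) (i : Fin 3) :
    ContDiffOn ℝ ∞ (pd i f) U := by
  have h1 : ContDiffOn ℝ ∞ (fderiv ℝ f) U := hf.fderiv_of_isOpen hU (by simp)
  exact h1.clm_apply contDiffOn_const

/-- **Chunk ZSMK** (size M). The two densities are continuous on an open set where everything is smooth and `dθ ≠ 0`.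

Proof. `pd i` of a function smooth on the open set `U` is smooth on `U` (`ContDiffOn.fderiv_of_isOpen`, `clm_apply`), so
`gaussDens θ` is a rational expression of continuous functions; the denominator is nonzero: `∑ i, pd i θ x ^ 2 = 0` would give
`fderiv ℝ θ x = 0` (all `pd i θ x = 0` and the basis `EuclideanSpace.single i 1` spans). `curlT` is a polynomial in smooth
functions. (Adjugate entries: `Matrix.adjugate_fin_three`.) -/
theorem dens_continuousOn {θ : E3 → ℝ} {z : Fin 3 → E3 → ℝ} {U : Set E3} (hU : IsOpen U) (hθ : ContDiffOn ℝ ∞ θ U)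
    (hc : ∀ x ∈ U, fderiv ℝ θ x ≠ 0) (hz : ∀ i, ContDiffOn ℝ ∞ (z i) U) :
    ContinuousOn (gaussDens θ) U ∧ ContinuousOn (curlT θ z) U := by
  have hpd : ∀ i, ContinuousOn (pd i θ) U := fun i => (zsmk_pd hU hθ i).continuousOn
  have hpd2 : ∀ i j, ContinuousOn (pd i (pd j θ)) U := fun i j =>
    (zsmk_pd hU (zsmk_pd hU hθ j) i).continuousOn
  have hpz : ∀ i j, ContinuousOn (pd i (z j)) U := fun i j => (zsmk_pd hU (hz j) i).continuousOn
  constructor
  · have hM : ContinuousOn (flatHess θ) U := by
      apply continuousOn_pi.mpr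
      intro i
      apply continuousOn_pi.mpr
      intro j
      exact hpd2 i j
    have hadj : ContinuousOn (fun x => (flatHess θ x).adjugate) U := by
      have h1 : Continuous (fun A : Matrix (Fin 3) (Fin 3) ℝ => A.adjugate) :=
        Continuous.matrix_adjugate continuous_id
      exact h1.comp_continuousOn hM
    have hadj2 : ∀ i j, ContinuousOn (fun x => (flatHess θ x).adjugate i j) U := fun i j =>
      (continuous_apply_apply (ρ := fun _ _ => ℝ) i j).comp_continuousOn hadj
    unfold gaussDens
    apply ContinuousOn.div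
    · apply continuousOn_finsetSum
      intro i _
      apply continuousOn_finsetSum
      intro j _
      exact ((hadj2 i j).mul (hpd i)).mul (hpd j)
    · apply ContinuousOn.pow
      apply Real.continuous_sqrt.comp_continuousOn
      apply continuousOn_finsetSum
      intro i _
      exact (hpd i).pow 2
    · intro x hx
      apply pow_ne_zero
      have h1 : 0 ≤ ∑ i, pd i θ x ^ 2 := Finset.sum_nonneg fun i _ => sq_nonneg _
      intro h2
      rw [Real.sqrt_eq_zero h1] at h2
      rw [Finset.sum_eq_zero_iff_of_nonneg (fun i _ => sq_nonneg _)] at h2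
      apply hc x hx
      have h3 : ∀ i, fderiv ℝ θ x (EuclideanSpace.single i 1) = 0 := by
        intro i
        have h4 := h2 i (Finset.mem_univ i)
        exact pow_eq_zero_iff (n := 2) (by norm_num) |>.mp h4
      ext v
      have h5 : v = ∑ i, v i • EuclideanSpace.single i (1 : ℝ) := by
        ext j
        simp [Finset.sum_apply, Pi.single_apply]
      rw [h5, map_sum]
      simp [h3]
  · unfold curlT
    exact (((hpd 2).mul ((hpz 0 1).sub (hpz 1 0))).add ((hpd 0).mul ((hpz 1 2).sub (hpz 2 1)))).add
      ((hpd 1).mul ((hpz 2 0).sub (hpz 0 2)))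

end Pool.Agent.H44G
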