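import Pool.Agent.Lib.H44G.ZDefs
import Pool.Agent.Lib.UMB.S1.Inst

set_option autoImplicit false

open Filter Topology Set MeasureTheory
open scoped ContDiff

namespace Pool.Agent.H44G

open Pool.Agent.Lib.PenroseSph (E3 Tens pd)

/-- The components of `η(θ) (z × ∇θ)`. -/
noncomputable def curlF (η : ℝ → ℝ) (θ : E3 → ℝ) (z : Fin 3 → E3 → ℝ) (k : Fin 3) (x : E3) : ℝ :=
  η (θ x) * (![z 1 x * pd 2 θ x - z 2 x * pd 1 θ x, z 2 x * pd 0 θ x - z 0 x * pd 2 θ x,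
    z 0 x * pd 1 θ x - z 1 x * pd 0 θ x] k)

theorem zdiv2_ring {R : Type*} [CommRing R] [Algebra ℝ R] (D : Fin 3 → Derivation ℝ R R)
    (hc : ∀ i j (f : R), D i (D j f) = D j (D i f)) (θ E E' : R) (z : Fin 3 → R) (hE : ∀ k, D k E = E' * D k θ) :
    D 0 (E * (z 1 * D 2 θ - z 2 * D 1 θ)) + D 1 (E * (z 2 * D 0 θ - z 0 * D 2 θ)) + D 2 (E * (z 0 * D 1 θ - z 1 * D 0 θ))
      = E * (D 2 θ * (D 0 (z 1) - D 1 (z 0)) + D 0 θ * (D 1 (z 2) - D 2 (z 1)) + D 1 θ * (D 2 (z 0) - D 0 (z 2))) := by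
  simp only [Derivation.leibniz, smul_eq_mul, map_sub, hE, hc 1 0, hc 2 0, hc 2 1]
  ring

/-- **Chunk ZDIV2** (size M). `div(η(θ) z × ∇θ) = η(θ) ∇θ · curl z`. -/
theorem div_curlF {V : Set E3} (hV : IsOpen V) {θ : E3 → ℝ} {z : Fin 3 → E3 → ℝ} (hθ : ContDiffOn ℝ ∞ θ V)
    (hz : ∀ i, ContDiffOn ℝ ∞ (z i) V) {η : ℝ → ℝ} (hη : ContDiff ℝ ∞ η) {x : E3} (hx : x ∈ V) :
    ∑ k, pd k (curlF η θ z k) x = η (θ x) * curlT θ z x := by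
  have hE : ContDiffOn ℝ ∞ (fun y => η (θ y)) V := hη.comp_contDiffOn hθ
  have hE' : ContDiffOn ℝ ∞ (fun y => deriv η (θ y)) V := by
    have : ContDiff ℝ ∞ (deriv η) := (contDiff_infty_iff_deriv.1 hη).2
    exact this.comp_contDiffOn hθ
  let Θ : UMB.SmR V := UMB.rest θ hθ
  let Z : Fin 3 → UMB.SmR V := fun i => UMB.rest (z i) (hz i)
  have hD : ∀ (k : Fin 3) (f : UMB.SmR V) (F : E3 → ℝ) (_ : ∀ y : V, f.1 y = F y) (y : V),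
      (UMB.Dk hV k f).1 y = pd k F y := fun k f F h y => UMB.Dk_apply hV k f F h y
  have key := zdiv2_ring (UMB.Dk hV) (UMB.Dk_comm hV) Θ (UMB.rest _ hE) (UMB.rest _ hE') Z (by
    intro k
    apply Subtype.ext
    funext y
    rw [hD k (UMB.rest _ hE) (fun y => η (θ y)) (fun _ => rfl) y]
    have h1 : (UMB.rest _ hE' * UMB.Dk hV k Θ).1 y = deriv η (θ y) * pd k θ y := by
      show (UMB.rest _ hE').1 y * (UMB.Dk hV k Θ).1 y = _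
      rw [hD k Θ θ (fun _ => rfl) y]
      rfl
    rw [h1]
    have hdθ : DifferentiableAt ℝ θ (y : E3) := (hθ.contDiffAt (hV.mem_nhds y.2)).differentiableAt (by simp)
    have hdη : DifferentiableAt ℝ η (θ y) := (hη.differentiable (by simp)) _
    have h2 := (hdη.hasDerivAt.comp_hasFDerivAt (y : E3) hdθ.hasFDerivAt).fderiv
    show fderiv ℝ (fun y => η (θ y)) (y : E3) _ = deriv η (θ y) * fderiv ℝ θ y _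
    have h3 : (fun y => η (θ y)) = η ∘ θ := rfl
    rw [h3, h2]
    simp)
  have h1 := congrArg (fun f : UMB.SmR V => f.1 ⟨x, hx⟩) key
  have hDθ : ∀ k (y : V), (UMB.Dk hV k Θ).1 y = pd k θ y := fun k y => hD k Θ θ (fun _ => rfl) y
  have hDz : ∀ k i (y : V), (UMB.Dk hV k (Z i)).1 y = pd k (z i) y := fun k i y => hD k (Z i) (z i) (fun _ => rfl) y
  have e0 : (UMB.Dk hV 0 (UMB.rest _ hE * (Z 1 * UMB.Dk hV 2 Θ - Z 2 * UMB.Dk hV 1 Θ))).1 ⟨x, hx⟩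
      = pd 0 (curlF η θ z 0) x := by
    refine hD 0 _ _ (fun y => ?_) ⟨x, hx⟩
    show (UMB.rest _ hE).1 y * ((Z 1).1 y * (UMB.Dk hV 2 Θ).1 y - (Z 2).1 y * (UMB.Dk hV 1 Θ).1 y) = _
    rw [hDθ, hDθ]
    rfl
  have e1 : (UMB.Dk hV 1 (UMB.rest _ hE * (Z 2 * UMB.Dk hV 0 Θ - Z 0 * UMB.Dk hV 2 Θ))).1 ⟨x, hx⟩
      = pd 1 (curlF η θ z 1) x := by
    refine hD 1 _ _ (fun y => ?_) ⟨x, hx⟩
    show (UMB.rest _ hE).1 y * ((Z 2).1 y * (UMB.Dk hV 0 Θ).1 y - (Z 0).1 y * (UMB.Dk hV 2 Θ).1 y) = _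
    rw [hDθ, hDθ]
    rfl
  have e2 : (UMB.Dk hV 2 (UMB.rest _ hE * (Z 0 * UMB.Dk hV 1 Θ - Z 1 * UMB.Dk hV 0 Θ))).1 ⟨x, hx⟩
      = pd 2 (curlF η θ z 2) x := by
    refine hD 2 _ _ (fun y => ?_) ⟨x, hx⟩
    show (UMB.rest _ hE).1 y * ((Z 0).1 y * (UMB.Dk hV 1 Θ).1 y - (Z 1).1 y * (UMB.Dk hV 0 Θ).1 y) = _
    rw [hDθ, hDθ]
    rfl
  have e3 : (UMB.rest _ hE * (UMB.Dk hV 2 Θ * (UMB.Dk hV 0 (Z 1) - UMB.Dk hV 1 (Z 0)) + UMB.Dk hV 0 Θ * (UMB.Dk hV 1 (Z 2) - UMB.Dk hV 2 (Z 1))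
      + UMB.Dk hV 1 Θ * (UMB.Dk hV 2 (Z 0) - UMB.Dk hV 0 (Z 2)))).1 ⟨x, hx⟩ = η (θ x) * curlT θ z x := by
    show (UMB.rest _ hE).1 ⟨x, hx⟩ * ((UMB.Dk hV 2 Θ).1 ⟨x, hx⟩ * ((UMB.Dk hV 0 (Z 1)).1 ⟨x, hx⟩ - (UMB.Dk hV 1 (Z 0)).1 ⟨x, hx⟩)
      + (UMB.Dk hV 0 Θ).1 ⟨x, hx⟩ * ((UMB.Dk hV 1 (Z 2)).1 ⟨x, hx⟩ - (UMB.Dk hV 2 (Z 1)).1 ⟨x, hx⟩)
      + (UMB.Dk hV 1 Θ).1 ⟨x, hx⟩ * ((UMB.Dk hV 2 (Z 0)).1 ⟨x, hx⟩ - (UMB.Dk hV 0 (Z 2)).1 ⟨x, hx⟩)) = _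
    simp only [hDθ, hDz]
    rfl
  rw [Fin.sum_univ_three, ← e0, ← e1, ← e2, ← e3]
  exact h1

end Pool.Agent.H44G
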