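import Pool.Agent.Lib.H44G.ZDiv1
import Pool.Agent.Lib.H44G.ZDiv2

set_option autoImplicit false

open Filter Topology Set MeasureTheory
open scoped ContDiff

namespace Pool.Agent.H44G

open Pool.Agent.Lib.PenroseSph (E3 Tens pd)

theorem zdiv_smooth {V : Set E3} (hV : IsOpen V) {θ : E3 → ℝ} {z : Fin 3 → E3 → ℝ} (hθ : ContDiffOn ℝ ∞ θ V)
    (hz : ∀ i, ContDiffOn ℝ ∞ (z i) V) {η : ℝ → ℝ} (hη : ContDiff ℝ ∞ η) (k : Fin 3) :
    ContDiffOn ℝ ∞ (curlF η θ z k) V := by
  have hE : ContDiffOn ℝ ∞ (fun y => η (θ y)) V := hη.comp_contDiffOn hθ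
  have hp : ∀ k, ContDiffOn ℝ ∞ (pd k θ) V := fun k => UMB.smooth_pd hV hθ k
  unfold curlF
  refine hE.mul ?_
  fin_cases k
  · exact ((hz 1).mul (hp 2)).sub ((hz 2).mul (hp 1))
  · exact ((hz 2).mul (hp 0)).sub ((hz 0).mul (hp 2))
  · exact ((hz 0).mul (hp 1)).sub ((hz 1).mul (hp 0))

/-- **Chunk ZDIV3** (size M). `∫ η(θ) ∇θ · curl z = 0` if `η(θ)` vanishes off a compact subset of `V`. -/
theorem integral_curl_eq_zero {V : Set E3} (hV : IsOpen V) {θ : E3 → ℝ} {z : Fin 3 → E3 → ℝ} (hθ : ContDiffOn ℝ ∞ θ V)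
    (hz : ∀ i, ContDiffOn ℝ ∞ (z i) V) {η : ℝ → ℝ} (hη : ContDiff ℝ ∞ η) {K : Set E3} (hK : IsCompact K) (hKV : K ⊆ V)
    (h0 : ∀ x ∈ V, x ∉ K → η (θ x) = 0) :
    ∫ x in V, η (θ x) * curlT θ z x = 0 := by
  classical
  set Y : Fin 3 → E3 → ℝ := fun k => V.indicator (curlF η θ z k) with hYdef
  have hin : ∀ k x, x ∈ V → Y k =ᶠ[𝓝 x] curlF η θ z k := by
    intro k x hx
    filter_upwards [hV.mem_nhds hx] with y hy
    exact indicator_of_mem hy _
  have hout : ∀ k x, x ∉ V → Y k =ᶠ[𝓝 x] fun _ => 0 := by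
    intro k x hx
    have hxK : x ∈ Kᶜ := fun h => hx (hKV h)
    filter_upwards [hK.isClosed.isOpen_compl.mem_nhds hxK] with y hy
    by_cases hyV : y ∈ V
    · show V.indicator (curlF η θ z k) y = 0
      rw [indicator_of_mem hyV]
      unfold curlF
      rw [h0 y hyV hy, zero_mul]
    · exact indicator_of_notMem hyV _
  have hY1 : ∀ k, ContDiff ℝ 1 (Y k) := by
    intro k
    rw [contDiff_iff_contDiffAt]
    intro x
    by_cases hx : x ∈ V
    · refine ContDiffAt.congr_of_eventuallyEq ?_ (hin k x hx)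
      exact ((zdiv_smooth hV hθ hz hη k).contDiffAt (hV.mem_nhds hx)).of_le (by exact_mod_cast le_top)
    · exact ContDiffAt.congr_of_eventuallyEq contDiffAt_const (hout k x hx)
  have hY2 : ∀ k, HasCompactSupport (Y k) := by
    intro k
    refine HasCompactSupport.intro hK (fun x hx => ?_)
    by_cases hxV : x ∈ V
    · show V.indicator (curlF η θ z k) x = 0
      rw [indicator_of_mem hxV]
      unfold curlF
      rw [h0 x hxV hx, zero_mul]
    · exact indicator_of_notMem hxV _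
  have hpd : ∀ k x, pd k (Y k) x = V.indicator (fun x => pd k (curlF η θ z k) x) x := by
    intro k x
    by_cases hx : x ∈ V
    · rw [indicator_of_mem hx]
      exact Pool.Agent.Lib.PenroseSph.pd_congr k (hin k x hx)
    · rw [indicator_of_notMem hx, Pool.Agent.Lib.PenroseSph.pd_congr k (hout k x hx)]
      show fderiv ℝ (fun _ : E3 => (0 : ℝ)) x _ = 0
      simp
  have hint : ∀ k, Integrable (fun x => pd k (Y k) x) := by
    intro k
    exact (((hY1 k).continuous_fderiv (by simp)).clm_apply continuous_const).integrable_of_hasCompactSupport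
      ((hY2 k).fderiv_apply ℝ _)
  have h1 : ∫ x in V, η (θ x) * curlT θ z x = ∫ x, ∑ k, pd k (Y k) x := by
    rw [← integral_indicator hV.measurableSet]
    congr 1
    funext x
    simp only [hpd]
    by_cases hx : x ∈ V
    · simp only [indicator_of_mem hx]
      exact (div_curlF hV hθ hz hη hx).symm
    · simp only [indicator_of_notMem hx, Finset.sum_const_zero]
  rw [h1, integral_finsetSum _ fun k _ => hint k]
  exact Finset.sum_eq_zero fun k _ => integral_pd_eq_zero (hY1 k) (hY2 k) k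

end Pool.Agent.H44G
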