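import Mathlib

set_option autoImplicit false

open Filter Topology Set MeasureTheory
open scoped ContDiff

namespace Pool.Agent.H44G

/-- **Chunk ZSM** (size M). Uniform approximation of a continuous function with compact support in an open set `O` by smooth
functions supported in one fixed compact subset of `O`.

Proof. `K₁` compact with `tsupport η ⊆ interior K₁`, `K₁ ⊆ O` (`exists_compact_between`). Smooth `χ`, `0 ≤ χ ≤ 1`, `χ = 1` on
`tsupport η`, `tsupport χ ⊆ K₁` (`exists_contDiff_tsupport_subset` / `exists_smooth_zero_one_of_isClosed`,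
`exists_contMDiff_zero_iff_one_iff_of_isClosed`-type lemma, or `ContDiffBump` and partitions). Let `[a, b] ⊇ K₁` and `p` a
polynomial with `|p - η| ≤ ε` on `[a, b]` (Weierstrass: `exists_polynomial_near_of_continuousOn`). Then `g = χ p` is smooth,
`tsupport g ⊆ K₁`, and `|g - η| = |χ p - χ η| ≤ ε` on `K₁`, both are `0` off `K₁`. -/
theorem approx_smooth {O : Set ℝ} (hO : IsOpen O) {η : ℝ → ℝ} (hη : Continuous η) (hs : HasCompactSupport η)
    (hs' : tsupport η ⊆ O) :
    ∃ K₁ : Set ℝ, IsCompact K₁ ∧ K₁ ⊆ O ∧ tsupport η ⊆ K₁ ∧ ∀ ε : ℝ, 0 < ε → ∃ g : ℝ → ℝ, ContDiff ℝ ∞ g ∧ tsupport g ⊆ K₁ ∧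
      ∀ t, |g t - η t| ≤ ε := by
  obtain ⟨K₁, hK, hK1, hK2⟩ := exists_compact_between hs.isCompact hO hs'
  refine ⟨K₁, hK, hK2, hK1.trans interior_subset, ?_⟩
  obtain ⟨χ, hχ0, hχ1, hχ⟩ := exists_contMDiffMap_zero_one_of_isClosed (n := ⊤)
    (modelWithCornersSelf ℝ ℝ) (s := (interior K₁)ᶜ) (t := tsupport η) isOpen_interior.isClosed_compl
    (isClosed_tsupport η) (Set.disjoint_left.mpr fun x hx hx' => hx (hK1 hx'))
  have hχs : ContDiff ℝ ∞ (fun t => χ t) := contMDiff_iff_contDiff.mp χ.contMDiff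
  have hχt : tsupport (fun t => χ t) ⊆ K₁ := by
    apply closure_minimal _ hK.isClosed
    intro t ht
    by_contra hcon
    apply ht
    exact hχ0 (fun h => hcon (interior_subset h))
  obtain ⟨a, ha⟩ := hK.bddBelow
  obtain ⟨b, hb⟩ := hK.bddAbove
  intro ε hε
  obtain ⟨p, hp⟩ := exists_polynomial_near_of_continuousOn a b η hη.continuousOn ε hε
  have hpc : ContDiff ℝ ∞ (fun t => p.eval t) := by
    have h1 := Polynomial.contDiff_aeval (𝕜 := ℝ) p ∞
    simpa [Polynomial.aeval_def, Polynomial.eval₂_id] using h1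
  refine ⟨fun t => χ t * p.eval t, hχs.mul hpc, ?_, ?_⟩
  · exact (tsupport_mul_subset_left).trans hχt
  · intro t
    by_cases ht : t ∈ K₁
    · have h1 : η t = χ t * η t := by
        by_cases ht' : t ∈ tsupport η
        · have h2 : χ t = 1 := hχ1 ht'
          rw [h2, one_mul]
        · rw [image_eq_zero_of_notMem_tsupport ht', mul_zero]
      have h3 : χ t * p.eval t - η t = χ t * (p.eval t - η t) := by
        rw [mul_sub, ← h1]
      change |χ t * p.eval t - η t| ≤ ε
      rw [h3, abs_mul, abs_of_nonneg (hχ t).1]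
      have h4 := (hp t ⟨ha ht, hb ht⟩).le
      calc χ t * |p.eval t - η t| ≤ 1 * ε := mul_le_mul (hχ t).2 h4 (abs_nonneg _) zero_le_one
        _ = ε := one_mul ε
    · have h1 : χ t = 0 := hχ0 (fun h => ht (interior_subset h))
      have h2 : η t = 0 := by
        apply image_eq_zero_of_notMem_tsupport
        exact fun h => ht (interior_subset (hK1 h))
      change |χ t * p.eval t - η t| ≤ ε
      rw [h1, h2, zero_mul, sub_zero, abs_zero]
      exact hε.le

end Pool.Agent.H44G
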