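import Pool.Agent.Lib.H44G.ZInt
import Pool.Agent.Lib.H44G.ZDiv
import Pool.Agent.Lib.H44G.ZSm
import Pool.Agent.Lib.H44G.ZSmK

set_option autoImplicit false

open Filter Topology Set MeasureTheory
open scoped ContDiff

namespace Pool.Agent.H44G

open Pool.Agent.Lib.PenroseSph (E3 Tens pd)

/-- **Chunk ZTRANS** (size M). `∫ η(θ) ∇θ · curl z = 0` for continuous `η` with compact support in the regular values.

Proof. For smooth `η`: `integral_curl_eq_zero` with `V = regSet` (open: `isOpen_regSet`; `θ` smooth on it) and the compact set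
`{x | x ∈ shell R ∧ θ x ∈ tsupport η} ⊆ regSet` (`isCompact_pre`); on `shell R \ regSet` the integrand is `0` (`θ x ∉ reg`), so
the integrals over `shell R` and `regSet` are equal (`setIntegral_eq_of_subset_of_forall_diff_eq_zero`).
For continuous `η` take `K₁` and `g` of `approx_smooth isOpen_reg`: `T₁ = {x ∈ shell R | θ x ∈ K₁}` compact, `curlT θ z` is
continuous on `regSet` so `B = ∫_{T₁} |curlT|` is finite; `|∫ η(θ) curlT| = |∫ (η - g)(θ) curlT| ≤ ε B` for all `ε > 0`
(`integrable_weight` gives integrability of both). -/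
theorem transgression {θ : E3 → ℝ} {c d R : ℝ} (h : IsLevel θ c d R) {z : Fin 3 → E3 → ℝ}
    (hz : ∀ i, ContDiffOn ℝ ∞ (z i) (regSet θ c d R)) {η : ℝ → ℝ} (hη : Continuous η) (hs : HasCompactSupport η)
    (hs' : tsupport η ⊆ reg θ c d R) :
    ∫ x in shell R, η (θ x) * curlT θ z x = 0 := by
  have hO := isOpen_reg h
  obtain ⟨hVo, hVc⟩ := isOpen_regSet h
  have hVs : regSet θ c d R ⊆ shell R := fun x hx => hx.1
  have hso : IsOpen (shell R) :=
    (isOpen_lt continuous_const continuous_norm).inter (isOpen_lt continuous_norm continuous_const)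
  have hθV : ContDiffOn ℝ ∞ θ (regSet θ c d R) := h.smooth.mono hVs
  have hcurl : ContinuousOn (curlT θ z) (regSet θ c d R) := (dens_continuousOn hVo hθV hVc hz).2
  obtain ⟨K₁, hK₁, hK₁O, hηK, happ⟩ := approx_smooth hO hη hs hs'
  have hχm : Measurable (K₁.indicator (fun _ => (1 : ℝ))) := measurable_const.indicator hK₁.measurableSet
  have hχI := integrable_weight h hK₁ hK₁O hcurl hχm (M := 1)
    (by intro t; by_cases ht : t ∈ K₁ <;> simp [ht]) (by intro t ht; simp [ht])
  set B := ∫ x in shell R, ‖K₁.indicator (fun _ => (1 : ℝ)) (θ x) * curlT θ z x‖ with hB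
  have hB0 : 0 ≤ B := integral_nonneg (fun x => norm_nonneg _)
  obtain ⟨M, hM⟩ : ∃ M, ∀ t, |η t| ≤ M := by
    obtain ⟨M, hM⟩ := hs.exists_bound_of_continuous hη
    exact ⟨M, fun t => by simpa using hM t⟩
  have hη0 : ∀ t, t ∉ K₁ → η t = 0 := fun t ht => image_eq_zero_of_notMem_tsupport (fun h' => ht (hηK h'))
  have hηI := integrable_weight h hK₁ hK₁O hcurl hη.measurable hM hη0
  have key : ∀ ε : ℝ, 0 < ε → |∫ x in shell R, η (θ x) * curlT θ z x| ≤ ε * B := by
    intro ε hε
    obtain ⟨g, hg, hgK, hgη⟩ := happ ε hε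
    have hg0 : ∀ t, t ∉ K₁ → g t = 0 := fun t ht => image_eq_zero_of_notMem_tsupport (fun h' => ht (hgK h'))
    have hgb : ∀ t, |g t| ≤ M + ε := by
      intro t
      have h1 := hgη t
      have h2 := hM t
      have h3 : |g t| ≤ |g t - η t| + |η t| := by
        have := abs_add_le (g t - η t) (η t)
        simpa using this
      linarith
    have hgI := integrable_weight h hK₁ hK₁O hcurl hg.continuous.measurable hgb hg0
    have hz0 : ∫ x in shell R, g (θ x) * curlT θ z x = 0 := by
      rw [setIntegral_eq_of_subset_of_forall_diff_eq_zero hso.measurableSet hVs]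
      · refine integral_curl_eq_zero hVo hθV hz hg (K := {x : E3 | x ∈ shell R ∧ θ x ∈ K₁})
          (isCompact_pre h hK₁ (fun t ht => (hK₁O ht).1)) (fun x hx => ⟨hx.1, hK₁O hx.2⟩) ?_
        intro x hx hxK
        exact hg0 _ (fun h' => hxK ⟨hx.1, h'⟩)
      · intro x hx
        have h1 : θ x ∉ K₁ := fun h' => hx.2 ⟨hx.1, hK₁O h'⟩
        rw [hg0 _ h1, zero_mul]
    have h1 : ∫ x in shell R, η (θ x) * curlT θ z x
        = ∫ x in shell R, (η (θ x) * curlT θ z x - g (θ x) * curlT θ z x) := by
      rw [integral_sub hηI hgI, hz0, sub_zero]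
    rw [h1, hB, ← integral_const_mul, ← Real.norm_eq_abs]
    refine (norm_integral_le_integral_norm _).trans ?_
    refine integral_mono (hηI.sub hgI).norm (hχI.norm.const_mul ε) ?_
    intro x
    simp only
    rw [← sub_mul, norm_mul, norm_mul, ← mul_assoc]
    refine mul_le_mul_of_nonneg_right ?_ (norm_nonneg _)
    by_cases hx : θ x ∈ K₁
    · have h2 := hgη (θ x)
      rw [abs_sub_comm] at h2
      simpa [hx] using h2
    · simp [hx, hη0 _ hx, hg0 _ hx]
  by_contra hne
  have hpos : 0 < |∫ x in shell R, η (θ x) * curlT θ z x| := abs_pos.2 hne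
  have h3 := key (|∫ x in shell R, η (θ x) * curlT θ z x| / (2 * (B + 1))) (by positivity)
  have h4 : |∫ x in shell R, η (θ x) * curlT θ z x| / (2 * (B + 1)) * B
      < |∫ x in shell R, η (θ x) * curlT θ z x| := by
    rw [div_mul_eq_mul_div, div_lt_iff₀ (by positivity)]
    nlinarith [hpos, hB0, mul_nonneg hpos.le hB0]
  linarith

end Pool.Agent.H44G
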