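import Pool.Agent.Lib.H44G.ZExt
import Pool.Agent.Lib.H44G.ZTrans
import Pool.Agent.Lib.H44G.ZDeg
import Pool.Agent.Lib.H44G.MPoint
import Pool.Agent.Lib.H44G.ZSmK
import Pool.Agent.Lib.H44G.ZCrit

set_option autoImplicit false

open Filter Topology Set MeasureTheory
open scoped ContDiff

namespace Pool.Agent.H44G

open Pool.Agent.Lib.PenroseSph (E3 Tens pd)

/-- **Chunk ZMAIN** (size M). **Weak Gauss–Bonnet inequality**: for every bounded measurable weight `η ≥ 0` which vanishes off a
compact set `K` of regular values, `∫ η(θ) K |∇θ| dV_g ≤ 4π ∫ η`.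

Proof. Let `U = regSet θ c d R`, open, `dθ ≠ 0` on it (`isOpen_regSet`); `MetOn g U` (restrict `hg`), `θ` is smooth on `U ⊆ shell R`.
Take `z` of `point_identity`. On `U`: `vol * kap = gaussDens - curlT` =: `F`, continuous on `U` (`dens_continuousOn`). As
`η (θ x) = 0` for `x ∈ shell R \ U`, `η (θ x) * (vol * kap) = η (θ x) * F x` on the whole shell (`setIntegral_congr_fun`,
`IntegrableOn.congr_fun`; the shell is open, so measurable). Integrability: `integrable_weight` for `F`. Inequality: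
`extend_ineq` for `F` and `C = 4π`; its hypothesis for continuous `g`: `∫ g(θ)F = ∫ g(θ) gaussDens - ∫ g(θ) curlT` (both integrable by
`integrable_weight` with `K = tsupport g`), the second is `0` (`transgression`), the first is `≤ 4π ∫ g` (`degree_shell`). -/
theorem main {g : Tens} {θ : E3 → ℝ} {c d R : ℝ} (hg : UMB.MetOn g (shell R)) (h : IsLevel θ c d R) {K : Set ℝ}
    (hK : IsCompact K) (hKO : K ⊆ Ioo c d \ critVals θ R) {η : ℝ → ℝ} (hm : Measurable η) {M : ℝ} (hp : ∀ t, 0 ≤ η t)
    (hM : ∀ t, η t ≤ M) (h0 : ∀ t, t ∉ K → η t = 0) :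
    IntegrableOn (fun x => η (θ x) * (UMB.vol g x * UMB.kap g θ x)) (shell R) ∧
      ∫ x in shell R, η (θ x) * (UMB.vol g x * UMB.kap g θ x) ≤ 4 * Real.pi * ∫ t, η t := by
  have hso : IsOpen (shell R) :=
    (isOpen_lt continuous_const continuous_norm).inter (isOpen_lt continuous_norm continuous_const)
  obtain ⟨hVo, hVc⟩ := isOpen_regSet h
  have hVs : regSet θ c d R ⊆ shell R := fun x hx => hx.1
  have hθV : ContDiffOn ℝ ∞ θ (regSet θ c d R) := h.smooth.mono hVs
  have hgV : UMB.MetOn g (regSet θ c d R) :=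
    ⟨hVo, fun i j => (hg.smooth i j).mono hVs, fun x hx => hg.symm x (hVs hx), fun x hx => hg.pos x (hVs hx)⟩
  obtain ⟨z, hz, hpt⟩ := point_identity hgV hθV hVc
  obtain ⟨hG, hC⟩ := dens_continuousOn hVo hθV hVc hz
  have hF : ContinuousOn (fun x => gaussDens θ x - curlT θ z x) (regSet θ c d R) := hG.sub hC
  have hKO' : K ⊆ reg θ c d R := hKO
  have hcongr : ∀ x ∈ shell R, η (θ x) * (UMB.vol g x * UMB.kap g θ x)
      = η (θ x) * (gaussDens θ x - curlT θ z x) := by
    intro x hx
    by_cases hxV : x ∈ regSet θ c d R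
    · rw [hpt x hxV]
    · have h1 : θ x ∉ K := fun h' => hxV ⟨hx, hKO' h'⟩
      rw [h0 _ h1, zero_mul, zero_mul]
  have hM' : ∀ t, |η t| ≤ M := fun t => by
    rw [abs_of_nonneg (hp t)]
    exact hM t
  refine ⟨(integrable_weight h hK hKO' hF hm hM' h0).congr_fun (fun x hx => (hcongr x hx).symm)
    hso.measurableSet, ?_⟩
  rw [setIntegral_congr_fun hso.measurableSet hcongr]
  refine extend_ineq h hK hKO' hF (by positivity) ?_ hm hp hM h0
  intro γ hγ hγ0 hγs hγr
  obtain ⟨Mγ, hMγ⟩ := hγs.exists_bound_of_continuous hγ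
  have hMγ' : ∀ t, |γ t| ≤ Mγ := fun t => by simpa using hMγ t
  have hγz : ∀ t, t ∉ tsupport γ → γ t = 0 := fun t ht => image_eq_zero_of_notMem_tsupport ht
  have hI1 := integrable_weight h hγs.isCompact hγr hG hγ.measurable hMγ' hγz
  have hI2 := integrable_weight h hγs.isCompact hγr hC hγ.measurable hMγ' hγz
  have h1 : ∫ x in shell R, γ (θ x) * (gaussDens θ x - curlT θ z x)
      = (∫ x in shell R, γ (θ x) * gaussDens θ x) - ∫ x in shell R, γ (θ x) * curlT θ z x := by
    rw [← integral_sub hI1 hI2]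
    apply setIntegral_congr_fun hso.measurableSet
    intro x _
    simp only
    ring
  rw [h1, transgression h hz hγ hγs hγr, sub_zero]
  exact degree_shell h hγ hγ0 hγs hγr

end Pool.Agent.H44G
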