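import Mathlib

set_option autoImplicit false

open Filter Topology Set MeasureTheory
open scoped ContDiff

namespace Pool.Agent.H44G

/-- the continuous linear equivalence `v ↦ (m v, π v)`, `π v = v - ℓ v • e` -/
theorem schart_equiv {E : Type} [NormedAddCommGroup E] [NormedSpace ℝ E] {ℓ m : E →L[ℝ] ℝ} {e : E} (he : ℓ e = 1)
    (hm : m e ≠ 0) {π : E →L[ℝ] (LinearMap.ker ℓ.toLinearMap)} (hπ : ∀ v, ((π v : LinearMap.ker ℓ.toLinearMap) : E) = v - ℓ v • e) :
    ∃ f : E ≃L[ℝ] ℝ × (LinearMap.ker ℓ.toLinearMap), (f : E →L[ℝ] ℝ × (LinearMap.ker ℓ.toLinearMap)) = m.prod π := by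
  let H := LinearMap.ker ℓ.toLinearMap
  let f₂ : ℝ × H →L[ℝ] E := (H.subtypeL.comp (ContinuousLinearMap.snd ℝ ℝ H))
    + (((m e)⁻¹) • ((ContinuousLinearMap.fst ℝ ℝ H) - (m.comp (H.subtypeL.comp (ContinuousLinearMap.snd ℝ ℝ H))))).smulRight e
  have hf2 : ∀ p : ℝ × H, f₂ p = (p.2 : E) + ((m e)⁻¹ * (p.1 - m (p.2 : E))) • e := fun p => rfl
  refine ⟨ContinuousLinearEquiv.equivOfInverse (m.prod π) f₂ ?_ ?_, rfl⟩
  · intro v
    rw [hf2]
    have h1 : ((m.prod π) v).2 = π v := rfl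
    have h2 : ((m.prod π) v).1 = m v := rfl
    rw [h1, h2, hπ v, map_sub, map_smul, smul_eq_mul]
    have h3 : (m e)⁻¹ * (m v - (m v - ℓ v * m e)) = ℓ v := by field_simp; ring
    rw [h3]
    abel
  · intro p
    have h0 : ℓ (p.2 : E) = 0 := p.2.2
    have h1 : m (f₂ p) = p.1 := by
      rw [hf2, map_add, map_smul, smul_eq_mul]
      field_simp
      ring
    refine Prod.ext h1 ?_
    apply Subtype.ext
    change ((π (f₂ p) : H) : E) = (p.2 : E)
    rw [hπ, hf2, map_add, map_smul, h0, he, smul_eq_mul, mul_one, zero_add]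
    abel

/-- **Chunk SCHART** (size M/L). The zero set of `w` near a point with `dw ≠ 0` is the image of an open subset of a
hyperplane under a smooth map.

Proof. Let `ℓ = fderiv ℝ w x` and `e` with `ℓ e = 1` (scale a vector with `ℓ e ≠ 0`), `H = ker ℓ` (so
`finrank H + 1 = finrank E`: rank-nullity, `ℓ` is onto `ℝ`), and the continuous linear projection `π : E → H`,
`π v = v - ℓ v • e`. Let `Φ y = (w y, π y) : E → ℝ × H`; smooth on `U`. The derivative of `Φ` at `y ∈ U` is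
`v ↦ (dw_y v, π v)`; it is invertible iff `dw_y e ≠ 0` (it is injective: `π v = 0` means `v = t e`, and then
`dw_y v = t dw_y e`; equal dimensions, or explicit inverse `(s, h) ↦ h + ((s - dw_y h)/(dw_y e)) • e`). The set
`U₁ = {y ∈ U | fderiv ℝ w y e ≠ 0}` is open and contains `x`. Take the local inverse:
`ContDiffAt.toOpenPartialHomeomorph Φ (…)` at `x`, restricted to `U₁` (`OpenPartialHomeomorph.restrOpen`), call it `Ψ`;
`N = Ψ.source`, open, `x ∈ N ⊆ U₁`. `Ψ.symm` is `ContDiffAt ℝ ∞` at every point of the target: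
`OpenPartialHomeomorph.contDiffAt_symm` (needs the derivative as a `ContinuousLinearEquiv` and `ContDiffAt` at the
preimage). Put `V = {h : H | ((0 : ℝ), h) ∈ Ψ.target}` (open) and `σ h = Ψ.symm (0, h)`: smooth on `V`, values in `N`.
If `y ∈ N` and `w y = 0`, then `h = π y` has `(0, h) = Ψ y ∈ Ψ.target` and `σ h = y`. -/
theorem slice_chart {E : Type} [NormedAddCommGroup E] [NormedSpace ℝ E] [FiniteDimensional ℝ E] {U : Set E}
    (hU : IsOpen U) {w : E → ℝ} (hw : ContDiffOn ℝ ∞ w U) {x : E} (hx : x ∈ U) (hd : fderiv ℝ w x ≠ 0) :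
    ∃ (H : Submodule ℝ E) (N : Set E) (V : Set H) (σ : H → E),
      Module.finrank ℝ H + 1 = Module.finrank ℝ E ∧ IsOpen N ∧ x ∈ N ∧ N ⊆ U ∧ IsOpen V ∧ ContDiffOn ℝ ∞ σ V ∧
      (∀ h ∈ V, σ h ∈ N) ∧ ∀ y ∈ N, w y = 0 → ∃ h ∈ V, σ h = y := by
  set ℓ : E →L[ℝ] ℝ := fderiv ℝ w x with hℓ
  obtain ⟨e0, he0⟩ : ∃ e0, ℓ e0 ≠ 0 := by
    by_contra hcon
    apply hd
    ext v
    by_contra hv
    exact hcon ⟨v, hv⟩
  set e : E := (ℓ e0)⁻¹ • e0 with he
  have hℓe : ℓ e = 1 := by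
    rw [he, map_smul, smul_eq_mul, inv_mul_cancel₀ he0]
  set H : Submodule ℝ E := LinearMap.ker ℓ.toLinearMap with hH
  have hfin : Module.finrank ℝ H + 1 = Module.finrank ℝ E := by
    have h1 := LinearMap.finrank_range_add_finrank_ker ℓ.toLinearMap
    have h2 : LinearMap.range ℓ.toLinearMap = ⊤ := by
      rw [LinearMap.range_eq_top]
      intro c
      refine ⟨c • e, ?_⟩
      change ℓ (c • e) = c
      rw [map_smul, hℓe, smul_eq_mul, mul_one]
    rw [h2, finrank_top, Module.finrank_self] at h1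
    rw [← h1, add_comm]
  let π : E →L[ℝ] H := (ContinuousLinearMap.id ℝ E - ℓ.smulRight e).codRestrict H (by
    intro v
    rw [hH, LinearMap.mem_ker]
    change ℓ (v - ℓ v • e) = 0
    rw [map_sub, map_smul, hℓe, smul_eq_mul, mul_one, sub_self])
  have hπ : ∀ v, ((π v : H) : E) = v - ℓ v • e := fun v => rfl
  let Φ : E → ℝ × H := fun y => (w y, π y)
  have hwAt : ∀ y ∈ U, ContDiffAt ℝ ∞ w y := fun y hy => hw.contDiffAt (hU.mem_nhds hy)
  have hΦc : ∀ y ∈ U, ContDiffAt ℝ ∞ Φ y := fun y hy => (hwAt y hy).prodMk π.contDiff.contDiffAt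
  have hΦd : ∀ y ∈ U, HasFDerivAt Φ ((fderiv ℝ w y).prod π) y := fun y hy =>
    (((hwAt y hy).differentiableAt (by simp)).hasFDerivAt).prodMk π.hasFDerivAt
  set U₁ : Set E := {y | y ∈ U ∧ fderiv ℝ w y e ≠ 0} with hU₁
  have hU₁o : IsOpen U₁ := by
    have hc : ContinuousOn (fun y => fderiv ℝ w y e) U :=
      (hw.continuousOn_fderiv_of_isOpen hU (by simp)).clm_apply continuousOn_const
    have := hc.isOpen_inter_preimage hU (isOpen_compl_singleton (x := (0 : ℝ)))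
    exact this
  have hxU₁ : x ∈ U₁ := ⟨hx, by rw [← hℓ, hℓe]; exact one_ne_zero⟩
  obtain ⟨fx, hfx⟩ := schart_equiv hℓe hxU₁.2 hπ
  have hΦx : HasFDerivAt Φ (fx : E →L[ℝ] ℝ × H) x := by rw [hfx]; exact hΦd x hx
  let Ψ0 := (hΦc x hx).toOpenPartialHomeomorph Φ hΦx (by simp)
  let Ψ := Ψ0.restrOpen U₁ hU₁o
  have hΨ : ∀ y, Ψ y = Φ y := fun y => rfl
  have hsrc : Ψ.source = Ψ0.source ∩ U₁ := rfl
  have hsrcU : ∀ y ∈ Ψ.source, y ∈ U₁ := fun y hy => hy.2
  have hxs : x ∈ Ψ.source := ⟨(hΦc x hx).mem_toOpenPartialHomeomorph_source hΦx (by simp), hxU₁⟩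
  refine ⟨H, Ψ.source, {h : H | ((0 : ℝ), h) ∈ Ψ.target}, fun h => Ψ.symm ((0 : ℝ), h), hfin, Ψ.open_source, hxs,
    fun y hy => (hsrcU y hy).1, ?_, ?_, ?_, ?_⟩
  · exact Ψ.open_target.preimage (by fun_prop)
  · intro h hh
    have hy := Ψ.map_target hh
    have hyU := hsrcU _ hy
    obtain ⟨fy, hfy⟩ := schart_equiv hℓe hyU.2 hπ
    have h1 : ContDiffAt ℝ ∞ Ψ.symm ((0 : ℝ), h) := by
      refine Ψ.contDiffAt_symm (f₀' := fy) hh ?_ ?_
      · rw [hfy]
        exact hΦd _ hyU.1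
      · exact hΦc _ hyU.1
    have h2 : ContDiffAt ℝ ∞ (fun h : H => ((0 : ℝ), h)) h := contDiffAt_const.prodMk contDiffAt_id
    exact (ContDiffAt.comp h h1 h2).contDiffWithinAt
  · intro h hh
    exact Ψ.map_target hh
  · intro y hy hwy
    have h1 : Ψ y = ((0 : ℝ), π y) := by
      rw [hΨ]
      change (w y, π y) = _
      rw [hwy]
    have h2 : ((0 : ℝ), π y) ∈ Ψ.target := by
      rw [← h1]
      exact Ψ.map_source hy
    refine ⟨π y, h2, ?_⟩
    change Ψ.symm ((0 : ℝ), π y) = y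
    rw [← h1]
    exact Ψ.left_inv hy

end Pool.Agent.H44G
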