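import Mathlib

set_option autoImplicit false

open Filter Topology Set MeasureTheory
open scoped ContDiff

namespace Pool.Agent.H44G

/-- **Chunk SFLAT** (size M). If the derivatives of orders `1, …, k` of `f` vanish at `x` then `‖f y - f x‖ ≤ M ‖y - x‖^(k+1)`,
with `M` uniform for `x, y` in a compact convex set `K`.

Proof. Induction on `k`, for all `F` and all `f` (this is why `E F : Type`: `E →L[ℝ] F` is again in `Type`).
`k = 0`: `fderiv ℝ f` is continuous on `U`, so `‖fderiv ℝ f z‖ ≤ M` on the compact set `K`; the mean value inequality on the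
convex set `K` (`Convex.norm_image_sub_le_of_norm_fderiv_le`, or the `…_hasFDerivWithin_le` version) gives the claim.
`k → k+1`: apply the induction hypothesis to `φ = fderiv ℝ f : E → (E →L[ℝ] F)` (smooth on `U`:
`ContDiffOn.fderiv_of_isOpen`), with the constant `M`: if `iteratedFDeriv ℝ j f x = 0` for `1 ≤ j ≤ k+1`, then
`iteratedFDeriv ℝ j φ x = 0` for `1 ≤ j ≤ k` (`norm_iteratedFDeriv_fderiv`) and `φ x = 0` (`j = 1`,
`norm_iteratedFDeriv_fderiv` with `n = 0` and `norm_iteratedFDeriv_zero`). So `‖φ z‖ ≤ M ‖z - x‖^(k+1)` for `z ∈ K`. For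
`y ∈ K` all `z` in the segment `[x, y] ⊆ K` satisfy `‖φ z‖ ≤ M ‖y - x‖^(k+1)`; mean value inequality on the segment
(`Convex.norm_image_sub_le_of_norm_fderiv_le` for `s = segment ℝ x y`, or `norm_image_sub_le_of_norm_deriv_le_segment`):
`‖f y - f x‖ ≤ M ‖y - x‖^(k+1) ‖y - x‖`. -/
theorem flat_taylor {E : Type} [NormedAddCommGroup E] [NormedSpace ℝ E] [FiniteDimensional ℝ E] {F : Type}
    [NormedAddCommGroup F] [NormedSpace ℝ F] {U K : Set E} (hU : IsOpen U) (hK : IsCompact K) (hKc : Convex ℝ K)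
    (hKU : K ⊆ U) (k : ℕ) {f : E → F} (hf : ContDiffOn ℝ ∞ f U) :
    ∃ M : ℝ, 0 ≤ M ∧ ∀ x ∈ K, (∀ j : ℕ, 1 ≤ j → j ≤ k → iteratedFDeriv ℝ j f x = 0) → ∀ y ∈ K,
      ‖f y - f x‖ ≤ M * ‖y - x‖ ^ (k + 1) := by
  induction k generalizing F with
  | zero =>
    have hfd : ContinuousOn (fderiv ℝ f) U := hf.continuousOn_fderiv_of_isOpen hU (by simp)
    have hfn : ContinuousOn (fun z => ‖fderiv ℝ f z‖) K := (hfd.mono hKU).norm
    obtain ⟨M, hM⟩ := hK.exists_bound_of_continuousOn hfn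
    refine ⟨max M 0, le_max_right _ _, ?_⟩
    intro x hx _ y hy
    rw [zero_add, pow_one]
    apply hKc.norm_image_sub_le_of_norm_fderiv_le (𝕜 := ℝ) _ _ hx hy
    · intro z hz
      exact (hf.contDiffAt (hU.mem_nhds (hKU hz))).differentiableAt (by simp)
    · intro z hz
      have h1 := hM z hz
      rw [norm_norm] at h1
      exact h1.trans (le_max_left _ _)
  | succ k ih =>
    have hfs : ContDiffOn ℝ ∞ (fderiv ℝ f) U := hf.fderiv_of_isOpen hU (by simp)
    obtain ⟨M, hM0, hM⟩ := ih hfs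
    refine ⟨M, hM0, ?_⟩
    intro x hx hj y hy
    have hx0 : fderiv ℝ f x = 0 := by
      have h1 := hj 1 le_rfl (by omega)
      have h2 := norm_iteratedFDeriv_fderiv (𝕜 := ℝ) (f := f) (x := x) (n := 0)
      rw [norm_iteratedFDeriv_zero, zero_add, h1, norm_zero] at h2
      exact norm_eq_zero.mp h2
    have hxj : ∀ j : ℕ, 1 ≤ j → j ≤ k → iteratedFDeriv ℝ j (fderiv ℝ f) x = 0 := by
      intro j hj1 hjk
      have h1 := hj (j + 1) (by omega) (by omega)
      have h2 := norm_iteratedFDeriv_fderiv (𝕜 := ℝ) (f := f) (x := x) (n := j)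
      rw [h1, norm_zero] at h2
      exact norm_eq_zero.mp h2
    have h3 := hM x hx hxj
    have hseg : segment ℝ x y ⊆ K := hKc.segment_subset hx hy
    have hbound : ∀ z ∈ segment ℝ x y, ‖fderiv ℝ f z‖ ≤ M * ‖y - x‖ ^ (k + 1) := by
      intro z hz
      have h4 := h3 z (hseg hz)
      rw [hx0, sub_zero] at h4
      refine h4.trans ?_
      have h5 : ‖z - x‖ ≤ ‖y - x‖ := by
        obtain ⟨t, ht, rfl⟩ := (segment_eq_image' ℝ x y) ▸ hz
        simp only [add_sub_cancel_left, norm_smul, Real.norm_eq_abs, abs_of_nonneg ht.1]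
        exact mul_le_of_le_one_left (norm_nonneg _) ht.2
      gcongr
    have h6 := (convex_segment x y).norm_image_sub_le_of_norm_fderiv_le (𝕜 := ℝ) (f := f)
      (fun z hz => (hf.contDiffAt (hU.mem_nhds (hKU (hseg hz)))).differentiableAt (by simp)) hbound
      (left_mem_segment ℝ x y) (right_mem_segment ℝ x y)
    calc ‖f y - f x‖ ≤ M * ‖y - x‖ ^ (k + 1) * ‖y - x‖ := h6
      _ = M * ‖y - x‖ ^ (k + 1 + 1) := by ring

end Pool.Agent.H44G
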