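import Pool.Agent.Lib.H44G.ZInt

set_option autoImplicit false

open Filter Topology Set MeasureTheory
open scoped ContDiff

namespace Pool.Agent.H44G

open Pool.Agent.Lib.PenroseSph (E3 Tens pd)

theorem zapp_abs {a b χ : ℝ} (hχ0 : 0 ≤ χ) (hχ1 : χ ≤ 1) (h : (χ = 1 ∧ 0 ≤ a) ∨ a = 0) :
    |a - χ * max b 0| ≤ |a - b| := by
  rcases h with ⟨rfl, ha⟩ | rfl
  · rw [one_mul]
    rcases le_total 0 b with hb | hb
    · rw [max_eq_left hb]
    · rw [max_eq_right hb, sub_zero, abs_of_nonneg ha, abs_of_nonneg (by linarith)]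
      linarith
  · rw [zero_sub, zero_sub, abs_neg, abs_neg, abs_of_nonneg (mul_nonneg hχ0 (le_max_right _ _))]
    calc χ * max b 0 ≤ 1 * max b 0 := mul_le_mul_of_nonneg_right hχ1 (le_max_right _ _)
      _ = max b 0 := one_mul _
      _ ≤ |b| := max_le (le_abs_self _) (abs_nonneg _)

/-- **Chunk ZAPP** (size M/L). Approximation of a bounded measurable weight by a continuous one.

Proof. Let `K₁` be compact with `K ⊆ interior K₁`, `K₁ ⊆ reg` (`exists_compact_between`, `isOpen_reg`), and `χ` continuous with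
`0 ≤ χ ≤ 1`, `χ = 1` on `K`, `χ = 0` off `interior K₁`, compact support in `K₁` (`exists_continuous_one_of_compact_subset_open`-type
lemma or `exists_continuous_zero_one_of_isClosed`). Let `T₁ = {x ∈ shell R | θ x ∈ K₁}` (compact) and let `λ` be the finite measure
`volume.restrict K₁ + Measure.map θ ((volume.restrict T₁).withDensity (fun x => ENNReal.ofReal |F x|))` on `ℝ` (`θ` a.e.
measurable for `volume.restrict T₁`; replace `θ` by `indicator T₁ θ` if that is easier). `η` is `λ`-integrable. Take `g`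
continuous (compact support) with `∫ |η - g| dλ ≤ ε` (`Integrable.exists_hasCompactSupport_integral_sub_le`, or
`MemLp.exists_hasCompactSupport_integral_rpow_sub_le`) and put `g' = χ * max g 0`. Then `0 ≤ g'`, continuous, `tsupport g' ⊆ K₁`, and
`|η - g'| ≤ |η - g|` everywhere (on `K`: `χ = 1` and `η ≥ 0`; off `K`: `η = 0` and `|g'| ≤ |g|`). So
`∫ |η - g'| ≤ ε` (both vanish off `K₁`) and `∫_{T₁} |η(θ) - g'(θ)| |F| ≤ ε` (`integral_map`, `integral_withDensity…`), and both
`η ∘ θ`, `g' ∘ θ` vanish on `shell R \ T₁`. -/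
theorem approx_weight {θ : E3 → ℝ} {c d R : ℝ} (h : IsLevel θ c d R) {K : Set ℝ} (hK : IsCompact K)
    (hKO : K ⊆ reg θ c d R) {F : E3 → ℝ} (hF : ContinuousOn F (regSet θ c d R)) {η : ℝ → ℝ} (hm : Measurable η) {M : ℝ}
    (hp : ∀ t, 0 ≤ η t) (hM : ∀ t, η t ≤ M) (h0 : ∀ t, t ∉ K → η t = 0) {ε : ℝ} (hε : 0 < ε) :
    ∃ g : ℝ → ℝ, Continuous g ∧ (∀ t, 0 ≤ g t) ∧ HasCompactSupport g ∧ tsupport g ⊆ reg θ c d R ∧
      ∫ t, |η t - g t| ≤ ε ∧ ∫ x in shell R, |(η (θ x) - g (θ x)) * F x| ≤ ε := by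
  obtain ⟨K₁, hK₁, hKK₁, hK₁O⟩ := exists_compact_between hK (isOpen_reg h) hKO
  obtain ⟨χ, hχ1, hχ0, hχs, hχI⟩ := exists_continuous_one_zero_of_isCompact hK
    (isOpen_interior (s := K₁)).isClosed_compl (by
      rw [Set.disjoint_compl_right_iff_subset]
      exact hKK₁)
  have hχsupp : tsupport χ ⊆ K₁ := by
    refine closure_minimal ?_ hK₁.isClosed
    intro t ht
    by_contra hc
    exact ht (hχ0 (fun hi => hc (interior_subset hi)))
  set T : Set E3 := {x : E3 | x ∈ shell R ∧ θ x ∈ K₁} with hT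
  have hTc : IsCompact T := isCompact_pre h hK₁ fun t ht => (hK₁O ht).1
  have hTm : MeasurableSet T := hTc.measurableSet
  have hTreg : T ⊆ regSet θ c d R := fun x hx => ⟨hx.1, hK₁O hx.2⟩
  have hFT : ContinuousOn F T := hF.mono hTreg
  have hθT : ContinuousOn θ T := h.cont.mono fun x hx => ⟨hx.1.1.le, hx.1.2.le⟩
  obtain ⟨B', hB'⟩ := hTc.exists_bound_of_continuousOn hFT
  set B : ℝ := |B'| with hBdef
  have hB0 : 0 ≤ B := abs_nonneg _
  have hB : ∀ x ∈ T, |F x| ≤ B := fun x hx => (hB' x hx).trans (le_abs_self _)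
  have hθm : AEMeasurable θ (volume.restrict T) := hθT.aemeasurable hTm
  haveI : IsFiniteMeasure (volume.restrict T) := ⟨by simpa using hTc.measure_lt_top⟩
  haveI : IsFiniteMeasure (volume.restrict K₁) := ⟨by simpa using hK₁.measure_lt_top⟩
  set ν : Measure ℝ := Measure.map θ (volume.restrict T) with hν
  set lam : Measure ℝ := volume.restrict K₁ + ν with hlam
  have hMabs : ∀ t, |η t| ≤ M := fun t => by rw [abs_of_nonneg (hp t)]; exact hM t
  have hηi : Integrable η lam :=
    Integrable.of_bound hm.aestronglyMeasurable M (Eventually.of_forall fun t => hMabs t)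
  have hδ : 0 < ε / (1 + B) := by positivity
  obtain ⟨g₀, -, hg₀ε, hg₀c, hg₀i⟩ := hηi.exists_hasCompactSupport_integral_sub_le hδ
  simp only [Real.norm_eq_abs] at hg₀ε
  have hdi : Integrable (fun t => |η t - g₀ t|) lam := (hηi.sub hg₀i).abs
  have hdi' := integrable_add_measure.1 hdi
  have hsplit : ∫ t, |η t - g₀ t| ∂lam = (∫ t in K₁, |η t - g₀ t|) + ∫ t, |η t - g₀ t| ∂ν :=
    integral_add_measure hdi'.1 hdi'.2
  have hn1 : 0 ≤ ∫ t in K₁, |η t - g₀ t| := integral_nonneg fun _ => abs_nonneg _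
  have hn2 : 0 ≤ ∫ t, |η t - g₀ t| ∂ν := integral_nonneg fun _ => abs_nonneg _
  have hle1 : ε / (1 + B) ≤ ε := div_le_self hε.le (by linarith)
  have hle2 : B * (ε / (1 + B)) ≤ ε := by
    rw [mul_div_assoc', div_le_iff₀ (by linarith)]
    nlinarith
  have hpt : ∀ t, |η t - χ t * max (g₀ t) 0| ≤ |η t - g₀ t| := by
    intro t
    refine zapp_abs (hχI t).1 (hχI t).2 ?_
    by_cases ht : t ∈ K
    · exact Or.inl ⟨hχ1 ht, hp t⟩
    · exact Or.inr (h0 t ht)
  have hzero : ∀ t, t ∉ K₁ → η t - χ t * max (g₀ t) 0 = 0 := by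
    intro t ht
    have h1 : t ∉ interior K₁ := fun hi => ht (interior_subset hi)
    have h2 : t ∉ K := fun hk => h1 (hKK₁ hk)
    have h3 : χ t = 0 := hχ0 h1
    rw [h0 t h2, h3, zero_mul, sub_zero]
  refine ⟨fun t => χ t * max (g₀ t) 0, χ.continuous.mul (hg₀c.max continuous_const),
    fun t => mul_nonneg (hχI t).1 (le_max_right _ _), hχs.mul_right, ?_, ?_, ?_⟩
  · exact (tsupport_mul_subset_left (f := χ) (g := fun t => max (g₀ t) 0)).trans (hχsupp.trans hK₁O)
  · have e1 : ∫ t, |η t - χ t * max (g₀ t) 0| = ∫ t in K₁, |η t - χ t * max (g₀ t) 0| := by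
      rw [setIntegral_eq_integral_of_forall_compl_eq_zero]
      intro t ht
      rw [hzero t ht, abs_zero]
    rw [e1]
    have e2 : ∫ t in K₁, |η t - χ t * max (g₀ t) 0| ≤ ∫ t in K₁, |η t - g₀ t| :=
      integral_mono_of_nonneg (Eventually.of_forall fun _ => abs_nonneg _) hdi'.1
        (Eventually.of_forall hpt)
    linarith
  · have hTs : T ⊆ shell R := fun x hx => hx.1
    have hsm : MeasurableSet (shell R) :=
      ((isOpen_lt continuous_const continuous_norm).inter
        (isOpen_lt continuous_norm continuous_const)).measurableSet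
    have e1 : ∫ x in shell R, |(η (θ x) - χ (θ x) * max (g₀ (θ x)) 0) * F x| =
        ∫ x in T, |(η (θ x) - χ (θ x) * max (g₀ (θ x)) 0) * F x| := by
      refine setIntegral_eq_of_subset_of_forall_diff_eq_zero hsm hTs ?_
      intro x hx
      have : θ x ∉ K₁ := fun hk => hx.2 ⟨hx.1, hk⟩
      rw [hzero _ this, zero_mul, abs_zero]
    have hmap : ∫ t, |η t - g₀ t| ∂ν = ∫ x in T, |η (θ x) - g₀ (θ x)| := by
      rw [hν, integral_map hθm]
      exact (hm.sub hg₀c.measurable).norm.aestronglyMeasurable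
    have hcomp : Integrable (fun x => |η (θ x) - g₀ (θ x)|) (volume.restrict T) := by
      have := (integrable_map_measure (f := θ) (g := fun t => |η t - g₀ t|)
        (hm.sub hg₀c.measurable).norm.aestronglyMeasurable hθm).1 hdi'.2
      exact this
    have e2 : ∫ x in T, |(η (θ x) - χ (θ x) * max (g₀ (θ x)) 0) * F x| ≤
        ∫ x in T, B * |η (θ x) - g₀ (θ x)| := by
      refine integral_mono_of_nonneg (Eventually.of_forall fun _ => abs_nonneg _)
        (hcomp.const_mul B) ?_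
      filter_upwards [ae_restrict_mem hTm] with x hx
      show |(η (θ x) - χ (θ x) * max (g₀ (θ x)) 0) * F x| ≤ B * |η (θ x) - g₀ (θ x)|
      rw [abs_mul, mul_comm]
      exact mul_le_mul (hB x hx) (hpt _) (abs_nonneg _) hB0
    have e3 : ∫ x in T, B * |η (θ x) - g₀ (θ x)| = B * ∫ x in T, |η (θ x) - g₀ (θ x)| :=
      integral_const_mul _ _
    show ∫ x in shell R, |(η (θ x) - χ (θ x) * max (g₀ (θ x)) 0) * F x| ≤ ε
    rw [e1]
    refine e2.trans ?_
    rw [e3, ← hmap]
    have : ∫ t, |η t - g₀ t| ∂ν ≤ ε / (1 + B) := by linarith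
    exact (mul_le_mul_of_nonneg_left this hB0).trans hle2

end Pool.Agent.H44G
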