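import Pool.Agent.Lib.H44G.ZDefs

set_option autoImplicit false

open Filter Topology Set MeasureTheory
open scoped ContDiff

namespace Pool.Agent.H44G

open Pool.Agent.Lib.PenroseSph (E3 Tens pd)

/-- **Chunk ZDIV1** (size S). The integral of a partial derivative of a `C¹` function with compact support vanishes. -/
theorem integral_pd_eq_zero {f : E3 → ℝ} (hf : ContDiff ℝ 1 f) (hs : HasCompactSupport f) (k : Fin 3) :
    ∫ x, pd k f x = 0 := by
  have h1 : Integrable f := hf.continuous.integrable_of_hasCompactSupport hs
  have h2 : Integrable (fun x => fderiv ℝ f x (EuclideanSpace.single k (1 : ℝ))) :=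
    ((hf.continuous_fderiv (by simp)).clm_apply continuous_const).integrable_of_hasCompactSupport (hs.fderiv_apply ℝ _)
  have h3 := integral_mul_fderiv_eq_neg_fderiv_mul_of_integrable (μ := volume) (𝕜 := ℝ) (f := fun _ : E3 => (1 : ℝ)) (g := f)
    (v := EuclideanSpace.single k (1 : ℝ)) (by simp) (by simpa using h2) (by simpa using h1)
    (fun x _ => differentiableAt_const _) (fun x _ => (hf.differentiable (by simp)) x)
  simpa [pd] using h3

end Pool.Agent.H44G
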