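import Pool.Agent.Lib.H44G.ZApp

set_option autoImplicit false

open Filter Topology Set MeasureTheory
open scoped ContDiff

namespace Pool.Agent.H44G

open Pool.Agent.Lib.PenroseSph (E3 Tens pd)

/-- **Chunk ZEXT** (size S/M). An inequality for continuous weights extends to bounded measurable weights.

Proof. With `g` of `approx_weight`: `∫ η(θ)F ≤ ∫ g(θ)F + ε ≤ C ∫ g + ε ≤ C ∫ η + (C+1) ε` (`integrable_weight` for `η` with `K` and for
`g` with `tsupport g`; `η` and `g` are integrable on `ℝ`). Let `ε → 0`. -/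
theorem extend_ineq {θ : E3 → ℝ} {c d R : ℝ} (h : IsLevel θ c d R) {K : Set ℝ} (hK : IsCompact K)
    (hKO : K ⊆ reg θ c d R) {F : E3 → ℝ} (hF : ContinuousOn F (regSet θ c d R)) {C : ℝ} (hC : 0 ≤ C)
    (hyp : ∀ g : ℝ → ℝ, Continuous g → (∀ t, 0 ≤ g t) → HasCompactSupport g → tsupport g ⊆ reg θ c d R →
      ∫ x in shell R, g (θ x) * F x ≤ C * ∫ t, g t)
    {η : ℝ → ℝ} (hm : Measurable η) {M : ℝ} (hp : ∀ t, 0 ≤ η t) (hM : ∀ t, η t ≤ M) (h0 : ∀ t, t ∉ K → η t = 0) :
    ∫ x in shell R, η (θ x) * F x ≤ C * ∫ t, η t := by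
  have hη : Integrable η := by
    have h1 : IntegrableOn η K := by
      refine Measure.integrableOn_of_bounded (M := M) hK.measure_ne_top hm.aestronglyMeasurable ?_
      exact Filter.Eventually.of_forall fun t => by
        rw [Real.norm_eq_abs, abs_of_nonneg (hp t)]
        exact hM t
    refine (integrableOn_iff_integrable_of_support_subset ?_).mp h1
    intro t ht
    by_contra hcon
    exact ht (h0 t hcon)
  have hηF : IntegrableOn (fun x => η (θ x) * F x) (shell R) :=
    integrable_weight h hK hKO hF hm (M := M) (fun t => by rw [abs_of_nonneg (hp t)]; exact hM t) h0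
  apply le_of_forall_pos_le_add
  intro δ hδ
  set ε : ℝ := δ / (C + 1) with hε
  have hC1 : 0 < C + 1 := by linarith
  have hε0 : 0 < ε := div_pos hδ hC1
  obtain ⟨g, hgc, hg0, hgs, hgt, hg1, hg2⟩ := approx_weight h hK hKO hF hm hp hM h0 hε0
  have hgi : Integrable g := hgc.integrable_of_hasCompactSupport hgs
  obtain ⟨B, hB⟩ := hgs.exists_bound_of_continuous hgc
  have hgF : IntegrableOn (fun x => g (θ x) * F x) (shell R) :=
    integrable_weight h hgs.isCompact hgt hF hgc.measurable (M := B) (fun t => hB t)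
      (fun t ht => image_eq_zero_of_notMem_tsupport ht)
  have h1 : ∫ x in shell R, η (θ x) * F x ≤ (∫ x in shell R, g (θ x) * F x) + ε := by
    have h2 : (∫ x in shell R, η (θ x) * F x) - ∫ x in shell R, g (θ x) * F x
        = ∫ x in shell R, (η (θ x) - g (θ x)) * F x := by
      rw [← integral_sub hηF hgF]
      apply integral_congr_ae
      exact Filter.Eventually.of_forall fun x => by ring
    have h3 : ∫ x in shell R, (η (θ x) - g (θ x)) * F x
        ≤ ∫ x in shell R, |(η (θ x) - g (θ x)) * F x| :=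
      (le_abs_self _).trans (abs_integral_le_integral_abs)
    linarith
  have h4 : ∫ t, g t ≤ (∫ t, η t) + ε := by
    have h5 : (∫ t, g t) - ∫ t, η t = ∫ t, (g t - η t) := (integral_sub hgi hη).symm
    have h6 : ∫ t, (g t - η t) ≤ ∫ t, |η t - g t| := by
      apply integral_mono (hgi.sub hη) (hη.sub hgi).abs
      intro t
      change g t - η t ≤ |η t - g t|
      rw [abs_sub_comm]
      exact le_abs_self _
    linarith
  have h7 := hyp g hgc hg0 hgs hgt
  have h8 : C * ∫ t, g t ≤ C * ((∫ t, η t) + ε) := mul_le_mul_of_nonneg_left h4 hC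
  have h9 : (C + 1) * ε = δ := by
    rw [hε]
    field_simp
  nlinarith

end Pool.Agent.H44G
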