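import Pool.Agent.Lib.H44G.ZTop

set_option autoImplicit false

open Filter Topology Set MeasureTheory
open scoped ContDiff

namespace Pool.Agent.H44G

open Pool.Agent.Lib.PenroseSph (E3 Tens pd)

/-- **Chunk ZINT** (size M). Integrability. -/
theorem integrable_weight {θ : E3 → ℝ} {c d R : ℝ} (h : IsLevel θ c d R) {K : Set ℝ} (hK : IsCompact K)
    (hKO : K ⊆ reg θ c d R) {F : E3 → ℝ} (hF : ContinuousOn F (regSet θ c d R)) {η : ℝ → ℝ} (hm : Measurable η) {M : ℝ}
    (hM : ∀ t, |η t| ≤ M) (h0 : ∀ t, t ∉ K → η t = 0) :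
    IntegrableOn (fun x => η (θ x) * F x) (shell R) := by
  have hKI : K ⊆ Ioo c d := fun t ht => (hKO ht).1
  set T : Set E3 := {x : E3 | x ∈ shell R ∧ θ x ∈ K} with hT
  have hTc : IsCompact T := isCompact_pre h hK hKI
  have hTreg : T ⊆ regSet θ c d R := fun x hx => ⟨hx.1, hKO hx.2⟩
  have hTm : MeasurableSet T := hTc.measurableSet
  have hFT : ContinuousOn F T := hF.mono hTreg
  have hθT : ContinuousOn θ T := h.cont.mono fun x hx => ⟨hx.1.1.le, hx.1.2.le⟩
  obtain ⟨B, hB⟩ := hTc.exists_bound_of_continuousOn hFT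
  have hθm : AEMeasurable θ (volume.restrict T) := hθT.aemeasurable hTm
  have hFm : AEMeasurable F (volume.restrict T) := hFT.aemeasurable hTm
  have hmeas : AEStronglyMeasurable (fun x => η (θ x) * F x) (volume.restrict T) :=
    ((hm.comp_aemeasurable hθm).mul hFm).aestronglyMeasurable
  have hIT : IntegrableOn (fun x => η (θ x) * F x) T := by
    haveI : IsFiniteMeasure (volume.restrict T) := ⟨by simpa using hTc.measure_lt_top⟩
    refine Integrable.of_bound hmeas (M * B) ?_
    refine (ae_restrict_iff' hTm).2 (Eventually.of_forall fun x hx => ?_)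
    rw [norm_mul, Real.norm_eq_abs]
    have h1 := hM (θ x)
    have h2 := hB x hx
    have h3 : 0 ≤ M := (abs_nonneg _).trans h1
    exact mul_le_mul h1 h2 (norm_nonneg _) h3
  refine IntegrableOn.of_forall_sdiff_eq_zero hIT ?_ ?_
  · exact (isOpen_lt continuous_const continuous_norm |>.inter (isOpen_lt continuous_norm continuous_const)).measurableSet
  · intro x hx
    have : θ x ∉ K := fun hk => hx.2 ⟨hx.1, hk⟩
    rw [h0 _ this, zero_mul]

end Pool.Agent.H44G
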