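import Pool.Agent.Lib.H44G.ZDefs

set_option autoImplicit false

open Filter Topology Set MeasureTheory
open scoped ContDiff

namespace Pool.Agent.H44G

open Pool.Agent.Lib.PenroseSph (E3 Tens pd)

/-- **Chunk ZTOP** (size M). `θ` is proper on the open shell.

Proof. As `K ⊆ Ioo c d` and `θ = c`, `θ = d` on the two spheres, the set is `{x | 1 ≤ ‖x‖ ∧ ‖x‖ ≤ R ∧ θ x ∈ K}`: a closed subset
(`h.cont`, `ContinuousOn.preimage_isClosed_of_isClosed`) of the compact closed shell. -/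
theorem isCompact_pre {θ : E3 → ℝ} {c d R : ℝ} (h : IsLevel θ c d R) {K : Set ℝ} (hK : IsCompact K)
    (hKO : K ⊆ Ioo c d) : IsCompact {x : E3 | x ∈ shell R ∧ θ x ∈ K} := by
  have hB : IsClosed {x : E3 | 1 ≤ ‖x‖ ∧ ‖x‖ ≤ R} :=
    (isClosed_le continuous_const continuous_norm).inter (isClosed_le continuous_norm continuous_const)
  have hE : {x : E3 | x ∈ shell R ∧ θ x ∈ K} = {x : E3 | 1 ≤ ‖x‖ ∧ ‖x‖ ≤ R} ∩ θ ⁻¹' K := by
    ext x
    simp only [mem_setOf_eq, mem_inter_iff, mem_preimage]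
    constructor
    · rintro ⟨h1, h2⟩
      exact ⟨⟨h1.1.le, h1.2.le⟩, h2⟩
    · rintro ⟨⟨h1, h2⟩, h3⟩
      refine ⟨⟨lt_of_le_of_ne h1 ?_, lt_of_le_of_ne h2 ?_⟩, h3⟩
      · intro h4
        have h5 := (hKO h3).1
        rw [h.inner x h4.symm] at h5
        exact lt_irrefl _ h5
      · intro h4
        have h5 := (hKO h3).2
        rw [h.outer x h4] at h5
        exact lt_irrefl _ h5
  rw [hE]
  apply Metric.isCompact_of_isClosed_isBounded (h.cont.preimage_isClosed_of_isClosed hB hK.isClosed)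
  rw [isBounded_iff_forall_norm_le]
  exact ⟨R, fun x hx => hx.1.2⟩

theorem ztop_shell_open (R : ℝ) : IsOpen (shell R) :=
  (isOpen_lt continuous_const continuous_norm).inter (isOpen_lt continuous_norm continuous_const)

/-- **Chunk ZTOP** continued. The regular values form an open set.

Proof. For compact `K ⊆ Ioo c d` the set `K ∩ critVals θ R` is compact: it is the image under `θ` of
`{x | x ∈ shell R ∧ θ x ∈ K ∧ fderiv ℝ θ x = 0}`, a closed subset of the compact set `isCompact_pre` (`fderiv ℝ θ` is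
continuous on the open shell). For `t ∈ reg` take `K = Icc (t - δ) (t + δ) ⊆ Ioo c d`: `Ioo (t - δ) (t + δ) \ (K ∩ critVals)`
is an open neighbourhood of `t` contained in `reg`. -/
theorem isOpen_reg {θ : E3 → ℝ} {c d R : ℝ} (h : IsLevel θ c d R) : IsOpen (reg θ c d R) := by
  have hso := ztop_shell_open R
  have hfd : ContinuousOn (fun x => fderiv ℝ θ x) (shell R) :=
    h.smooth.continuousOn_fderiv_of_isOpen hso (by norm_num)
  have hcc : ∀ K : Set ℝ, IsCompact K → K ⊆ Ioo c d → IsClosed (K ∩ critVals θ R) := by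
    intro K hK hKO
    have hT := isCompact_pre h hK hKO
    have hTs : {x : E3 | x ∈ shell R ∧ θ x ∈ K} ⊆ shell R := fun x hx => hx.1
    have h1 : IsClosed ({x : E3 | x ∈ shell R ∧ θ x ∈ K} ∩ (fun x => fderiv ℝ θ x) ⁻¹' {0}) :=
      (hfd.mono hTs).preimage_isClosed_of_isClosed hT.isClosed isClosed_singleton
    have h2 : IsCompact ({x : E3 | x ∈ shell R ∧ θ x ∈ K} ∩ (fun x => fderiv ℝ θ x) ⁻¹' {0}) :=
      hT.of_isClosed_subset h1 inter_subset_left
    have h3 : IsCompact (θ '' ({x : E3 | x ∈ shell R ∧ θ x ∈ K} ∩ (fun x => fderiv ℝ θ x) ⁻¹' {0})) :=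
      h2.image_of_continuousOn (h.smooth.continuousOn.mono (fun x hx => hx.1.1))
    have h4 : K ∩ critVals θ R = θ '' ({x : E3 | x ∈ shell R ∧ θ x ∈ K} ∩ (fun x => fderiv ℝ θ x) ⁻¹' {0}) := by
      ext t
      constructor
      · rintro ⟨h5, x, h6, rfl⟩
        exact ⟨x, ⟨⟨h6.1, h5⟩, h6.2⟩, rfl⟩
      · rintro ⟨x, ⟨⟨h5, h6⟩, h7⟩, rfl⟩
        exact ⟨h6, x, ⟨h5, h7⟩, rfl⟩
    rw [h4]
    exact h3.isClosed
  rw [isOpen_iff_mem_nhds]
  rintro t ⟨ht, htc⟩
  obtain ⟨δ, hδ, hsub⟩ := Metric.isOpen_iff.1 isOpen_Ioo t ht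
  have hI : Icc (t - δ / 2) (t + δ / 2) ⊆ Ioo c d := by
    intro s hs
    apply hsub
    rw [Metric.mem_ball, Real.dist_eq, abs_lt]
    constructor <;> linarith [hs.1, hs.2]
  have hcl := hcc _ isCompact_Icc hI
  have hop : IsOpen (Ioo (t - δ / 2) (t + δ / 2) \ (Icc (t - δ / 2) (t + δ / 2) ∩ critVals θ R)) :=
    isOpen_Ioo.sdiff hcl
  have hmem : t ∈ Ioo (t - δ / 2) (t + δ / 2) \ (Icc (t - δ / 2) (t + δ / 2) ∩ critVals θ R) := by
    refine ⟨⟨by linarith, by linarith⟩, fun hc => htc hc.2⟩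
  filter_upwards [hop.mem_nhds hmem] with s hs
  refine ⟨hI (Ioo_subset_Icc_self hs.1), fun hc => hs.2 ⟨Ioo_subset_Icc_self hs.1, hc⟩⟩

/-- The regular set is open (the shell is open, `θ` is continuous on it), and `dθ ≠ 0` there. -/
theorem isOpen_regSet {θ : E3 → ℝ} {c d R : ℝ} (h : IsLevel θ c d R) :
    IsOpen (regSet θ c d R) ∧ ∀ x ∈ regSet θ c d R, fderiv ℝ θ x ≠ 0 := by
  constructor
  · exact h.smooth.continuousOn.isOpen_inter_preimage (ztop_shell_open R) (isOpen_reg h)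
  · intro x hx h0
    exact hx.2.2 ⟨x, ⟨hx.1, h0⟩, rfl⟩

end Pool.Agent.H44G
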